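import Pool.Agent.Helper10.RC.Basic

/-!
# Module RC-ST: the unit theorem in coset form for a `PSys`
-/

set_option autoImplicit false

namespace Pool.Agent.Helper98.RC

open Pool.Agent.Helper10.RC MvPolynomial

section units
variable {K Λ : Type} [Field K] [Fintype Λ] [DecidableEq Λ] (Z : PSys K Λ)

lemma isU_one : Z.IsU 1 := ⟨one_ne_zero, Z.O.one_mem, by rw [inv_one]; exact Z.O.one_mem⟩

variable {Z}

lemma IsU_mul {x y : K} (hx : Z.IsU x) (hy : Z.IsU y) : Z.IsU (x * y) :=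
  ⟨mul_ne_zero hx.1 hy.1, Z.O.mul_mem hx.2.1 hy.2.1, by
    rw [mul_inv]; exact Z.O.mul_mem hx.2.2 hy.2.2⟩

lemma IsU_inv {x : K} (hx : Z.IsU x) : Z.IsU x⁻¹ :=
  ⟨inv_ne_zero hx.1, hx.2.2, by rw [inv_inv]; exact hx.2.1⟩

lemma IsU_pow {x : K} (hx : Z.IsU x) (k : ℕ) : Z.IsU (x ^ k) := by
  induction k with
  | zero => rw [pow_zero]; exact isU_one Z
  | succ k ih => rw [pow_succ]; exact IsU_mul ih hx

lemma IsU_prod {ι : Type*} (s : Finset ι) (f : ι → K) (h : ∀ i ∈ s, Z.IsU (f i)) :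
    Z.IsU (∏ i ∈ s, f i) := by
  classical
  induction s using Finset.induction_on with
  | empty => rw [Finset.prod_empty]; exact isU_one Z
  | insert a s ha ih =>
    rw [Finset.prod_insert ha]
    exact IsU_mul (h a (Finset.mem_insert_self _ _))
      (ih fun i hi => h i (Finset.mem_insert_of_mem hi))

lemma prod_abv {x : K} (hx : Z.IsU x) : ∏ σ, Z.abv σ x = 1 := by
  have h1 := Z.one_le x hx.2.1 hx.1
  have h2 := Z.one_le x⁻¹ hx.2.2 (inv_ne_zero hx.1)
  have h3 : (∏ σ, Z.abv σ x) * ∏ σ, Z.abv σ x⁻¹ = 1 := by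
    rw [← Finset.prod_mul_distrib]
    refine Finset.prod_eq_one fun σ _ => ?_
    rw [← map_mul, mul_inv_cancel₀ hx.1, map_one]
  nlinarith

end units

section mono
variable {K : Type} [Field K] {n : ℕ}

/-- the value of the monomial -/
noncomputable def mon (t : Fin n → K) (γ : Fin n →₀ ℕ) : K := ∏ j, t j ^ γ j

lemma mon_ne {t : Fin n → K} (ht : ∀ j, t j ≠ 0) (γ : Fin n →₀ ℕ) : mon t γ ≠ 0 :=
  Finset.prod_ne_zero_iff.mpr fun j _ => pow_ne_zero _ (ht j)

lemma mon_div {t : Fin n → K} (ht : ∀ j, t j ≠ 0) (γ γ' : Fin n →₀ ℕ) :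
    ∏ j, t j ^ ((γ j : ℤ) - γ' j) = mon t γ / mon t γ' := by
  rw [mon, mon, ← Finset.prod_div_distrib]
  refine Finset.prod_congr rfl fun j _ => ?_
  rw [zpow_sub₀ (ht j), zpow_natCast, zpow_natCast]

lemma cov_of_ratio {E : Set ((Fin n → K) × K)} (hE : ∀ p ∈ E, ∀ j, p.1 j ≠ 0)
    {γ γ' : Fin n →₀ ℕ} (hne : γ ≠ γ') {F : Set K} (hF : F.Finite)
    (h : ∀ p ∈ E, mon p.1 γ / mon p.1 γ' ∈ F) : Cov E := by
  classical
  refine ⟨hF.toFinset.image fun x => ((fun j => (γ j : ℤ) - γ' j), x), ?_, ?_⟩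
  · intro a ha
    obtain ⟨x, -, rfl⟩ := Finset.mem_image.mp ha
    intro h0
    apply hne
    ext j
    have := congrFun h0 j
    simp only [Pi.zero_apply] at this
    omega
  · intro p hp
    refine ⟨((fun j => (γ j : ℤ) - γ' j), mon p.1 γ / mon p.1 γ'),
      Finset.mem_image.mpr ⟨_, hF.mem_toFinset.mpr (h p hp), rfl⟩, ?_⟩
    exact mon_div (hE p hp) γ γ'

end mono

section main
variable {K Λ : Type} [Field K] [Fintype Λ] [DecidableEq Λ] (Z : PSys K Λ) {n : ℕ}

lemma mon_isU {t : Fin n → K} (ht : ∀ j, Z.IsU (t j)) (γ : Fin n →₀ ℕ) : Z.IsU (mon t γ) :=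
  IsU_prod _ _ fun j _ => IsU_pow (ht j) _

lemma ratio_isU {t : Fin n → K} (ht : ∀ j, Z.IsU (t j)) (γ γ' : Fin n →₀ ℕ) :
    Z.IsU (mon t γ / mon t γ') := by
  rw [div_eq_mul_inv]
  exact IsU_mul (mon_isU Z ht γ) (IsU_inv (mon_isU Z ht γ'))

/-- the minimal counterexample argument -/
lemma core (hn : 0 < n) (k : ℕ) : ∀ (A : Finset (Fin n →₀ ℕ)) (c : (Fin n →₀ ℕ) → K)
    (E : Set ((Fin n → K) × K)), A.card = k → A.Nonempty → (∀ γ ∈ A, c γ ≠ 0) →
    (bigC K n hn).Big E → (∀ p ∈ E, (∀ j, Z.IsU (p.1 j)) ∧ ∑ γ ∈ A, c γ * mon p.1 γ = 0) →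
    False := by
  classical
  induction k using Nat.strong_induction_on with
  | _ k ih =>
  intro A c E hk hA hc hbig hE
  have hE0 : ∀ p ∈ E, ∀ j, p.1 j ≠ 0 := fun p hp j => ((hE p hp).1 j).1
  obtain ⟨p₀, hp₀⟩ := (bigC K n hn).nonempty hbig
  -- one term
  have hk1 : k ≠ 1 := by
    intro h1
    obtain ⟨α, hα⟩ := Finset.card_eq_one.mp (hk.trans h1)
    have h2 := (hE p₀ hp₀).2
    rw [hα, Finset.sum_singleton] at h2
    exact mul_ne_zero (hc α (by rw [hα]; exact Finset.mem_singleton_self α))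
      (mon_ne (hE0 p₀ hp₀) α) h2
  have hk0 : 0 < k := by rw [← hk]; exact hA.card_pos
  -- two terms
  have hk2 : k ≠ 2 := by
    intro h2
    obtain ⟨α, β, hne, hαβ⟩ := Finset.card_eq_two.mp (hk.trans h2)
    apply hbig
    refine cov_of_ratio hE0 hne (F := {-(c β / c α)}) (Set.finite_singleton _) ?_
    intro p hp
    have h3 := (hE p hp).2
    rw [hαβ, Finset.sum_pair hne] at h3
    have hcα := hc α (by rw [hαβ]; simp)
    have h4 := mon_ne (hE0 p hp) β
    rw [Set.mem_singleton_iff, div_eq_iff h4]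
    field_simp
    linear_combination h3
  have hk3 : 3 ≤ k := by omega
  -- the set where all the ratios are bounded is small
  obtain ⟨γ₀, hγ₀, γ₁, hγ₁, hne⟩ := Finset.one_lt_card.mp (by rw [hk]; omega : 1 < A.card)
  have hbig1 : (bigC K n hn).Big {p | p ∈ E ∧ ∃ γ ∈ A, ∃ γ' ∈ A, ∃ σ,
      1 < Z.abv σ (mon p.1 γ / mon p.1 γ')} := by
    have h1 : E ⊆ {p | p ∈ E ∧ ∀ γ ∈ A, ∀ γ' ∈ A, ∀ σ, Z.abv σ (mon p.1 γ / mon p.1 γ') ≤ 1} ∪
        {p | p ∈ E ∧ ∃ γ ∈ A, ∃ γ' ∈ A, ∃ σ, 1 < Z.abv σ (mon p.1 γ / mon p.1 γ')} := by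
      intro p hp
      by_cases h : ∀ γ ∈ A, ∀ γ' ∈ A, ∀ σ, Z.abv σ (mon p.1 γ / mon p.1 γ') ≤ 1
      · exact Or.inl ⟨hp, h⟩
      · refine Or.inr ⟨hp, ?_⟩
        push Not at h
        exact h
    rcases (bigC K n hn).union ((bigC K n hn).mono h1 hbig) with h2 | h2
    · exfalso
      apply h2
      refine cov_of_ratio (fun p hp => hE0 p hp.1) hne (Z.fin 1) ?_
      intro p hp
      exact ⟨(ratio_isU Z (hE p hp.1).1 _ _).2.1, fun σ => hp.2 γ₀ hγ₀ γ₁ hγ₁ σ⟩
    · exact h2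
  -- fix the place where the maximum is attained
  have hpart := (bigC K n hn).partition (A ×ˢ A ×ˢ (Finset.univ : Finset Λ)) hbig1
    (fun q p => 1 < Z.abv q.2.2 (mon p.1 q.1 / mon p.1 q.2.1) ∧
      ∀ γ ∈ A, ∀ γ' ∈ A, ∀ σ, Z.abv σ (mon p.1 γ / mon p.1 γ') ≤
        Z.abv q.2.2 (mon p.1 q.1 / mon p.1 q.2.1)) (by
    rintro p ⟨hp, γ, hγ, γ', hγ', σ, hlt⟩
    obtain ⟨q, hq, hmax⟩ := Finset.exists_max_image (A ×ˢ A ×ˢ (Finset.univ : Finset Λ))
      (fun q => Z.abv q.2.2 (mon p.1 q.1 / mon p.1 q.2.1))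
      ⟨(γ, γ', σ), by simp [hγ, hγ']⟩
    refine ⟨q, hq, ?_, ?_⟩
    · exact lt_of_lt_of_le hlt (hmax (γ, γ', σ) (by simp [hγ, hγ']))
    · intro δ hδ δ' hδ' τ
      exact hmax (δ, δ', τ) (by simp [hδ, hδ']))
  obtain ⟨⟨β, α, σ₁⟩, hq, hbig2⟩ := hpart
  simp only [Finset.mem_product, Finset.mem_univ, and_true] at hq
  obtain ⟨hβ, hα⟩ := hq
  simp only at hbig2
  have hβα : β ≠ α := by
    rintro rfl
    obtain ⟨p, ⟨hp, -⟩, hlt, -⟩ := (bigC K n hn).nonempty hbig2
    rw [div_self (mon_ne (hE0 p hp) _), map_one] at hlt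
    exact lt_irrefl _ hlt
  -- the system of forms
  have hcα := hc α hα
  have hcβ := hc β hβ
  let b : {γ // γ ∈ A.erase α} := ⟨β, Finset.mem_erase.mpr ⟨hβα, hβ⟩⟩
  let M : Matrix {γ // γ ∈ A.erase α} {γ // γ ∈ A.erase α} K :=
    fun i j => if i = b then -(c j.1 / c α) else if i = j then 1 else 0
  have hMb : ∀ v : {γ // γ ∈ A.erase α} → K, ∑ j, M b j * v j = ∑ j, -(c j.1 / c α) * v j := by
    intro v
    refine Finset.sum_congr rfl fun j _ => ?_
    simp [M]
  have hMi : ∀ (v : {γ // γ ∈ A.erase α} → K) (i : {γ // γ ∈ A.erase α}), i ≠ b →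
      ∑ j, M i j * v j = v i := by
    intro v i hi
    rw [Finset.sum_eq_single i]
    · simp [M, hi]
    · intro j _ hji
      simp [M, hi, Ne.symm hji]
    · intro h
      exact absurd (Finset.mem_univ i) h
  have hdet : M.det ≠ 0 := by
    intro h0
    obtain ⟨v, hv, hMv⟩ := Matrix.exists_mulVec_eq_zero_iff.mpr h0
    apply hv
    have h1 : ∀ i, i ≠ b → v i = 0 := by
      intro i hi
      have := congrFun hMv i
      rw [Matrix.mulVec, dotProduct, hMi v i hi] at this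
      exact this
    have h2 : v b = 0 := by
      have h3 := congrFun hMv b
      rw [Matrix.mulVec, dotProduct, hMb v, Finset.sum_eq_single b] at h3
      · have h4 : -(c b.1 / c α) ≠ 0 := neg_ne_zero.mpr (div_ne_zero hcβ hcα)
        exact (mul_eq_zero.mp h3).resolve_left h4
      · intro j _ hj
        rw [h1 j hj, mul_zero]
      · intro h
        exact absurd (Finset.mem_univ b) h
    funext i
    by_cases hi : i = b
    · rw [hi, h2]; rfl
    · rw [h1 i hi]; rfl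
  have hcard : 2 ≤ Fintype.card {γ // γ ∈ A.erase α} := by
    rw [Fintype.card_coe, Finset.card_erase_of_mem hα, hk]
    omega
  obtain ⟨𝒲, h𝒲, hsub⟩ := Z.sub σ₁ {γ // γ ∈ A.erase α} M hcard hdet 1 1 one_pos
  -- every point lies in one of the subspaces
  have hpart3 := (bigC K n hn).partition 𝒲 hbig2
    (fun W p => (fun i : {γ // γ ∈ A.erase α} => mon p.1 i.1 / mon p.1 β) ∈ W) (by
    rintro p ⟨⟨hp, -⟩, hlt, hmax⟩
    have hU := (hE p hp).1
    have hrel := (hE p hp).2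
    have hne0 := hE0 p hp
    set Q := Z.abv σ₁ (mon p.1 β / mon p.1 α) with hQ
    have hQ0 : 0 < Q := lt_trans one_pos hlt
    have hyU : ∀ i : {γ // γ ∈ A.erase α}, Z.IsU (mon p.1 i.1 / mon p.1 β) :=
      fun i => ratio_isU Z hU _ _
    have hyle : ∀ (σ : Λ) (i : {γ // γ ∈ A.erase α}), Z.abv σ (mon p.1 i.1 / mon p.1 β) ≤ Q :=
      fun σ i => hmax i.1 (Finset.mem_of_mem_erase i.2) β hβ σ
    have hyge : ∀ (σ : Λ) (i : {γ // γ ∈ A.erase α}), Q⁻¹ ≤ Z.abv σ (mon p.1 i.1 / mon p.1 β) := by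
      intro σ i
      have h1 := hmax β hβ i.1 (Finset.mem_of_mem_erase i.2) σ
      have h2 : Z.abv σ (mon p.1 i.1 / mon p.1 β) = (Z.abv σ (mon p.1 β / mon p.1 i.1))⁻¹ := by
        rw [← map_inv₀, inv_div]
      rw [h2]
      refine inv_anti₀ ?_ h1
      exact (Z.abv σ).pos (div_ne_zero (mon_ne hne0 _) (mon_ne hne0 _))
    refine hsub Q (fun i => if i = b then Q⁻¹ else Z.abv σ₁ (mon p.1 i.1 / mon p.1 β)) _ hlt.le
      (fun i => (hyU i).2.1) ?_ ?_ ?_ ?_
    · intro i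
      rw [Real.rpow_neg_one, Real.rpow_one]
      by_cases hi : i = b
      · rw [if_pos hi]
        exact ⟨le_refl _, (inv_le_one_of_one_le₀ hlt.le).trans hlt.le⟩
      · rw [if_neg hi]
        exact ⟨hyge σ₁ i, hyle σ₁ i⟩
    · intro σ i
      rw [Real.rpow_neg_one, Real.rpow_one]
      exact ⟨hyge σ i, hyle σ i⟩
    · intro i
      by_cases hi : i = b
      · rw [if_pos hi, hi, hMb]
        have h1 : ∑ j : {γ // γ ∈ A.erase α}, -(c j.1 / c α) * (mon p.1 j.1 / mon p.1 β) =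
            mon p.1 α / mon p.1 β := by
          have h2 : ∑ j : {γ // γ ∈ A.erase α}, c j.1 * mon p.1 j.1 = -(c α * mon p.1 α) := by
            have h3 : ∑ j : {γ // γ ∈ A.erase α}, c j.1 * mon p.1 j.1 =
                ∑ γ ∈ A.erase α, c γ * mon p.1 γ :=
              Finset.sum_coe_sort (A.erase α) (fun γ => c γ * mon p.1 γ)
            rw [h3]
            have h4 := Finset.add_sum_erase A (fun γ => c γ * mon p.1 γ) hα
            rw [hrel] at h4
            linear_combination h4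
          have h5 : ∀ j : {γ // γ ∈ A.erase α}, -(c j.1 / c α) * (mon p.1 j.1 / mon p.1 β) =
              (c j.1 * mon p.1 j.1) * (-(1 / (c α * mon p.1 β))) := by
            intro j
            have := mon_ne hne0 β
            field_simp
          rw [Finset.sum_congr rfl fun j _ => h5 j, ← Finset.sum_mul, h2]
          have := mon_ne hne0 β
          field_simp
        rw [h1, ← inv_div (mon p.1 β) (mon p.1 α), map_inv₀]
      · rw [if_neg hi, hMi _ i hi]
    · have h1 : (∏ i : {γ // γ ∈ A.erase α},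
          if i = b then Q⁻¹ else Z.abv σ₁ (mon p.1 i.1 / mon p.1 β)) =
          Q⁻¹ * ∏ i : {γ // γ ∈ A.erase α}, Z.abv σ₁ (mon p.1 i.1 / mon p.1 β) := by
        have h2 : ∀ i : {γ // γ ∈ A.erase α},
            (if i = b then Q⁻¹ else Z.abv σ₁ (mon p.1 i.1 / mon p.1 β)) =
            (if i = b then Q⁻¹ else 1) * Z.abv σ₁ (mon p.1 i.1 / mon p.1 β) := by
          intro i
          by_cases hi : i = b
          · rw [if_pos hi, if_pos hi, hi]
            simp only [b]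
            rw [div_self (mon_ne hne0 _), map_one, mul_one]
          · rw [if_neg hi, if_neg hi, one_mul]
        rw [Finset.prod_congr rfl fun i _ => h2 i, Finset.prod_mul_distrib,
          Finset.prod_ite_eq' Finset.univ b, if_pos (Finset.mem_univ b)]
      have h3 : (∏ i : {γ // γ ∈ A.erase α}, Z.abv σ₁ (mon p.1 i.1 / mon p.1 β)) *
          ∏ i : {γ // γ ∈ A.erase α}, ∏ σ ∈ Finset.univ.erase σ₁,
            Z.abv σ (mon p.1 i.1 / mon p.1 β) = 1 := by
        rw [← Finset.prod_mul_distrib]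
        refine Finset.prod_eq_one fun i _ => ?_
        rw [Finset.mul_prod_erase Finset.univ (fun σ => Z.abv σ (mon p.1 i.1 / mon p.1 β))
          (Finset.mem_univ σ₁)]
        exact prod_abv (hyU i)
      rw [h1, mul_assoc, h3, mul_one, Real.rpow_neg_one])
  obtain ⟨W, hW, hbig3⟩ := hpart3
  -- a shorter relation
  obtain ⟨f, hf0, hfW⟩ := Submodule.exists_le_ker_of_lt_top W (lt_top_iff_ne_top.mpr (h𝒲 W hW))
  let c' : (Fin n →₀ ℕ) → K := fun γ => if h : γ ∈ A.erase α then f (Pi.single ⟨γ, h⟩ 1) else 0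
  have hc' : ∀ i : {γ // γ ∈ A.erase α}, c' i.1 = f (Pi.single i 1) := by
    intro i
    simp only [c']
    rw [dif_pos i.2]
  have hfv : ∀ v : {γ // γ ∈ A.erase α} → K, f v = ∑ i, c' i.1 * v i := by
    intro v
    have h1 : v = ∑ i, v i • (Pi.single i (1 : K) : {γ // γ ∈ A.erase α} → K) := by
      funext j
      rw [Finset.sum_apply, Finset.sum_eq_single j]
      · simp
      · intro i _ hij
        simp [Ne.symm hij]
      · intro h
        exact absurd (Finset.mem_univ j) h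
    conv_lhs => rw [h1]
    rw [map_sum]
    refine Finset.sum_congr rfl fun i _ => ?_
    rw [map_smul, smul_eq_mul, hc' i, mul_comm]
  let A' := (A.erase α).filter fun γ => c' γ ≠ 0
  have hA' : A'.Nonempty := by
    by_contra hcon
    rw [Finset.not_nonempty_iff_eq_empty] at hcon
    apply hf0
    refine LinearMap.ext fun v => ?_
    rw [hfv, LinearMap.zero_apply]
    refine Finset.sum_eq_zero fun i _ => ?_
    have h1 : c' i.1 = 0 := by
      by_contra h2
      have h3 : i.1 ∈ A' := Finset.mem_filter.mpr ⟨i.2, h2⟩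
      rw [hcon] at h3
      exact absurd h3 (Finset.notMem_empty _)
    rw [h1, zero_mul]
  refine ih A'.card ?_ A' c' _ rfl hA' (fun γ hγ => (Finset.mem_filter.mp hγ).2) hbig3 ?_
  · rw [← hk]
    refine lt_of_le_of_lt (Finset.card_filter_le _ _) ?_
    exact Finset.card_erase_lt_of_mem hα
  · rintro p ⟨⟨⟨hp, -⟩, -, -⟩, hpW⟩
    refine ⟨(hE p hp).1, ?_⟩
    have h1 := LinearMap.mem_ker.mp (hfW hpW)
    rw [hfv] at h1
    have hne0 := mon_ne (hE0 p hp) β
    have h2 : ∑ i : {γ // γ ∈ A.erase α}, c' i.1 * mon p.1 i.1 = 0 := by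
      have h3 : ∑ i : {γ // γ ∈ A.erase α}, c' i.1 * mon p.1 i.1 =
          (∑ i : {γ // γ ∈ A.erase α}, c' i.1 * (mon p.1 i.1 / mon p.1 β)) * mon p.1 β := by
        rw [Finset.sum_mul]
        refine Finset.sum_congr rfl fun i _ => ?_
        field_simp
      rw [h3, h1, zero_mul]
    have h4 : ∑ i : {γ // γ ∈ A.erase α}, c' i.1 * mon p.1 i.1 =
        ∑ γ ∈ A.erase α, c' γ * mon p.1 γ :=
      Finset.sum_coe_sort (A.erase α) (fun γ => c' γ * mon p.1 γ)
    rw [h4] at h2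
    rw [← h2]
    refine Finset.sum_subset (Finset.filter_subset _ _) ?_
    intro γ hγ hγ'
    have h5 : c' γ = 0 := by
      by_contra h6
      exact hγ' (Finset.mem_filter.mpr ⟨hγ, h6⟩)
    rw [h5, zero_mul]

end main

/-- The unit theorem: the unit points on a hypersurface are covered by finitely many cosets. -/
theorem unit_rel {K Λ : Type} [Field K] [Fintype Λ] [DecidableEq Λ] (Z : PSys K Λ) {n : ℕ}
    (hn : 0 < n) (g : MvPolynomial (Fin n) K) (hg : g ≠ 0) (E : Set ((Fin n → K) × K))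
    (hE : ∀ p ∈ E, (∀ j, Z.IsU (p.1 j)) ∧ eval p.1 g = 0) : Cov E := by
  by_contra hbig
  refine core Z hn g.support.card g.support (fun γ => coeff γ g) E rfl
    (by rw [Finset.nonempty_iff_ne_empty, Ne, MvPolynomial.support_eq_empty]; exact hg)
    (fun γ hγ => MvPolynomial.mem_support_iff.mp hγ) hbig ?_
  intro p hp
  refine ⟨(hE p hp).1, ?_⟩
  have h := (hE p hp).2
  rw [MvPolynomial.eval_eq'] at h
  exact h

end Pool.Agent.Helper98.RC
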