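import Pool.Agent.Helper10.Sub.Defs

open Module

set_option linter.unusedSectionVars false

namespace Pool.Agent.Helper98.Sub

open Pool.Agent.Helper10.Sub

section fin
variable {T : Type} [Fintype T] {p : T → ℕ} [∀ t, Fact (p t).Prime]

lemma one_lt_norm_of_dvd_den (q : ℕ) [Fact q.Prime] {r : ℚ} (h : q ∣ r.den) :
    1 < ‖(r : ℚ_[q])‖ := by
  have h1 : (r : ℚ_[q]) = (r.num : ℚ_[q]) / (r.den : ℚ_[q]) := by
    conv_lhs => rw [← Rat.num_div_den r]
    push_cast; rfl
  have h2 : ‖((r.den : ℤ) : ℚ_[q])‖ < 1 := by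
    rw [Padic.norm_intCast_lt_one_iff]
    exact_mod_cast h
  have h3 : ‖(r.num : ℚ_[q])‖ = 1 := by
    refine le_antisymm (Padic.norm_int_le_one _) ?_
    by_contra hcon
    push Not at hcon
    rw [Padic.norm_intCast_lt_one_iff] at hcon
    have h4 : q ∣ r.num.natAbs := Int.natCast_dvd.1 hcon
    have h5 : q ∣ Nat.gcd r.num.natAbs r.den := Nat.dvd_gcd h4 h
    rw [r.reduced.gcd_eq_one] at h5
    exact (Fact.out : q.Prime).one_lt.ne' (Nat.dvd_one.1 h5)
  rw [h1, norm_div, h3]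
  have h6 : 0 < ‖(r.den : ℚ_[q])‖ := by
    rw [norm_pos_iff]
    exact_mod_cast r.den_ne_zero
  rw [one_lt_div h6]
  exact_mod_cast h2

/-- Rational numbers in `ℤ[1/P]` of bounded size at all places form a finite set. -/
lemma finite_bounded (c : ℝ) :
    {x : ℚ | PInt (pprod p) x ∧ |(x : ℝ)| ≤ c ∧ ∀ t, ‖(x : ℚ_[p t])‖ ≤ c}.Finite := by
  obtain ⟨m, hm⟩ := pow_unbounded_of_one_lt c (by norm_num : (1 : ℝ) < 2)
  have hP0 : pprod p ≠ 0 := Finset.prod_ne_zero_iff.2 fun t _ => (Fact.out : (p t).Prime).ne_zero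
  have key : ∀ x : ℚ, PInt (pprod p) x → (∀ t, ‖(x : ℚ_[p t])‖ ≤ c) →
      ∃ z : ℤ, x * (pprod p : ℚ) ^ m = z := by
    rintro x ⟨k, z, hz⟩ hx
    set r := x * (pprod p : ℚ) ^ m with hr
    have hden : r.den = 1 := by
      by_contra hne
      obtain ⟨q, hq, hqd⟩ := Nat.exists_prime_and_dvd hne
      -- q divides P
      have h1 : r * (pprod p : ℚ) ^ k = z * (pprod p : ℚ) ^ m := by
        rw [hr, ← hz]; ring
      have hqP : q ∣ pprod p := by
        haveI := Fact.mk hq
        by_contra hqP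
        have h2 : ‖((pprod p : ℚ) : ℚ_[q])‖ = 1 := by
          refine le_antisymm ?_ ?_
          · exact_mod_cast Padic.norm_int_le_one (p := q) (pprod p : ℤ)
          · by_contra hcon
            push Not at hcon
            have h3 : ‖((pprod p : ℤ) : ℚ_[q])‖ < 1 := by exact_mod_cast hcon
            rw [Padic.norm_intCast_lt_one_iff] at h3
            exact hqP (by exact_mod_cast h3)
        have h4 := one_lt_norm_of_dvd_den q hqd
        have h5 : ‖((r * (pprod p : ℚ) ^ k : ℚ) : ℚ_[q])‖ ≤ 1 := by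
          rw [h1]
          push_cast
          rw [norm_mul, norm_pow]
          have h6 := Padic.norm_int_le_one (p := q) z
          have h7 : ‖(pprod p : ℚ_[q])‖ = 1 := by exact_mod_cast h2
          rw [h7]; simpa using h6
        rw [Rat.cast_mul, norm_mul, Rat.cast_pow, norm_pow, h2, one_pow, mul_one] at h5
        linarith
      obtain ⟨t, -, ht⟩ := (Prime.dvd_finset_prod_iff hq.prime _).1 hqP
      have hqt : q = p t := (Nat.prime_dvd_prime_iff_eq hq (Fact.out)).1 ht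
      subst hqt
      have h4 := one_lt_norm_of_dvd_den (p t) hqd
      have h5 : ‖(r : ℚ_[p t])‖ ≤ c * (2⁻¹) ^ m := by
        rw [hr]
        push_cast
        rw [norm_mul, norm_pow]
        have h6 : ‖(pprod p : ℚ_[p t])‖ ≤ 2⁻¹ := by
          obtain ⟨w, hw⟩ := hqP
          rw [hw]
          push_cast
          rw [norm_mul, Padic.norm_p]
          have h7 : ‖(w : ℚ_[p t])‖ ≤ 1 := by exact_mod_cast Padic.norm_int_le_one (p := p t) (w : ℤ)
          have h8 : ((p t : ℝ))⁻¹ ≤ 2⁻¹ := by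
            apply inv_anti₀ (by norm_num)
            exact_mod_cast (Fact.out : (p t).Prime).two_le
          calc ((p t : ℝ))⁻¹ * ‖(w : ℚ_[p t])‖ ≤ 2⁻¹ * 1 := by gcongr
            _ = 2⁻¹ := mul_one _
        have hx' := hx t
        have hc0 : 0 ≤ c := (norm_nonneg _).trans hx'
        gcongr
      have h9 : c * (2⁻¹) ^ m < 1 := by
        rw [inv_pow, ← div_eq_mul_inv, div_lt_one (by positivity)]
        exact hm
      linarith
    exact ⟨r.num, by
      conv_lhs => rw [← Rat.num_div_den r]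
      rw [hden]; simp⟩
  have hfin : (Set.Icc (-⌈c * (pprod p : ℝ) ^ m⌉) ⌈c * (pprod p : ℝ) ^ m⌉).Finite :=
    Set.finite_Icc _ _
  refine (hfin.image (fun z : ℤ => (z : ℚ) / (pprod p : ℚ) ^ m)).subset ?_
  rintro x ⟨h1, h2, h3⟩
  obtain ⟨z, hz⟩ := key x h1 h3
  have hPq : (pprod p : ℚ) ^ m ≠ 0 := by
    apply pow_ne_zero
    exact_mod_cast hP0
  refine ⟨z, ?_, ?_⟩
  · have h4 : |(z : ℝ)| ≤ c * (pprod p : ℝ) ^ m := by
      have h5 : (z : ℝ) = (x : ℝ) * (pprod p : ℝ) ^ m := by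
        have : ((z : ℚ) : ℝ) = ((x * (pprod p : ℚ) ^ m : ℚ) : ℝ) := by rw [hz]
        push_cast at this
        exact this
      rw [h5, abs_mul, abs_pow, Nat.abs_cast]
      gcongr
    rw [abs_le] at h4
    constructor
    · have h5 := (Int.le_ceil (c * (pprod p : ℝ) ^ m))
      have : (-(⌈c * (pprod p : ℝ) ^ m⌉ : ℤ) : ℝ) ≤ z := by linarith
      exact_mod_cast this
    · have h5 := (Int.le_ceil (c * (pprod p : ℝ) ^ m))
      have : (z : ℝ) ≤ (⌈c * (pprod p : ℝ) ^ m⌉ : ℤ) := by linarith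
      exact_mod_cast this
  · simp only
    rw [← hz, mul_div_cancel_right₀ _ hPq]

end fin

section emb
variable {K : Type} [Field K] [NumberField K]
variable {J : Type} [Fintype J] [DecidableEq J] (ω : Basis J ℚ K)

/-- The matrix of the embeddings is invertible. -/
lemma det_emb_ne_zero {C : Type} [Field C] [CharZero C] (e : J → (K →+* C))
    (he : Function.Injective e) : (Matrix.of fun j j' => e j (ω j')).det ≠ 0 := by
  intro h0
  obtain ⟨v, hv0, hv⟩ := Matrix.exists_vecMul_eq_zero_iff.2 h0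
  apply hv0
  have h1 : ∀ y : K, ∑ j, v j * e j y = 0 := by
    intro y
    have h2 : ∀ j', ∑ j, v j * e j (ω j') = 0 := fun j' => congrFun hv j'
    have h3 : ∀ j, e j y = ∑ j', ((ω.repr y j' : ℚ) : C) * e j (ω j') := by
      intro j
      conv_lhs => rw [← ω.sum_repr y]
      rw [map_sum]
      refine Finset.sum_congr rfl fun j' _ => ?_
      rw [Rat.smul_def, map_mul, map_ratCast]
    calc ∑ j, v j * e j y = ∑ j, ∑ j', ((ω.repr y j' : ℚ) : C) * (v j * e j (ω j')) := by
          refine Finset.sum_congr rfl fun j _ => ?_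
          rw [h3, Finset.mul_sum]
          refine Finset.sum_congr rfl fun j' _ => ?_
          ring
      _ = ∑ j', ((ω.repr y j' : ℚ) : C) * ∑ j, v j * e j (ω j') := by
          rw [Finset.sum_comm]
          refine Finset.sum_congr rfl fun j' _ => ?_
          rw [Finset.mul_sum]
      _ = 0 := by
          refine Finset.sum_eq_zero fun j' _ => ?_
          rw [h2, mul_zero]
  have hli : LinearIndependent C (fun f : K →* C => (f : K → C)) := linearIndependent_monoidHom K C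
  have hinj : Function.Injective (fun j : J => ((e j : K →+* C) : K →* C)) := by
    intro a b hab
    apply he
    ext x
    exact DFunLike.congr_fun hab x
  have hli2 := hli.comp _ hinj
  rw [Fintype.linearIndependent_iff] at hli2
  funext j
  apply hli2 v
  funext y
  simp only [Function.comp, Finset.sum_apply, Pi.smul_apply, smul_eq_mul, Pi.zero_apply]
  exact h1 y

/-- The block matrix of the forms `∑ k, l σ i k * σ (y k)` in the coordinates. -/
noncomputable def blk {M : ℕ} {C : Type} [Field C] (e : J → (K →+* C)) (L : (K →+* C) → Matrix (Fin M) (Fin M) C) :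
    Matrix (Fin M × J) (Fin M × J) C :=
  Matrix.of fun r q => L (e r.2) r.1 q.1 * e r.2 (ω q.2)

/-- Coordinates. -/
noncomputable def co (M : ℕ) : (Fin M → K) ≃ₗ[ℚ] (Fin M × J → ℚ) :=
  (LinearEquiv.piCongrRight fun _ : Fin M => ω.equivFun).trans
    (LinearEquiv.curry ℚ ℚ (Fin M) J).symm

lemma co_apply {M : ℕ} (y : Fin M → K) (q : Fin M × J) : co ω M y q = ω.repr (y q.1) q.2 := rfl

lemma emb_repr {C : Type} [Field C] [CharZero C] (e : K →+* C) (y : K) :
    e y = ∑ j', ((ω.repr y j' : ℚ) : C) * e (ω j') := by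
  conv_lhs => rw [← ω.sum_repr y]
  rw [map_sum]
  refine Finset.sum_congr rfl fun j' _ => ?_
  rw [Rat.smul_def, map_mul, map_ratCast]

lemma blk_row {M : ℕ} {C : Type} [Field C] [CharZero C] (e : J → (K →+* C))
    (L : (K →+* C) → Matrix (Fin M) (Fin M) C) (y : Fin M → K) (r : Fin M × J) :
    ∑ q, blk ω e L r q * ((co ω M y q : ℚ) : C) = ∑ k, L (e r.2) r.1 k * e r.2 (y k) := by
  rw [Fintype.sum_prod_type]
  refine Finset.sum_congr rfl fun k _ => ?_
  rw [emb_repr ω (e r.2) (y k), Finset.mul_sum]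
  refine Finset.sum_congr rfl fun j' _ => ?_
  rw [co_apply, blk, Matrix.of_apply]
  ring

lemma det_blk {M : ℕ} {C : Type} [Field C] [CharZero C] (e : J → (K →+* C))
    (he : Function.Injective e) (L : (K →+* C) → Matrix (Fin M) (Fin M) C)
    (hL : ∀ σ, (L σ).det ≠ 0) : (blk ω e L).det ≠ 0 := by
  intro h0
  obtain ⟨v, hv0, hv⟩ := Matrix.exists_mulVec_eq_zero_iff.2 h0
  apply hv0
  have h1 : ∀ j k, ∑ j', e j (ω j') * v (k, j') = 0 := by
    intro j
    by_contra hcon
    push Not at hcon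
    obtain ⟨k0, hk0⟩ := hcon
    apply hL (e j)
    rw [← Matrix.exists_mulVec_eq_zero_iff]
    refine ⟨fun k => ∑ j', e j (ω j') * v (k, j'), fun h => hk0 (congrFun h k0), ?_⟩
    funext i
    have h2 : ∑ q : Fin M × J, blk ω e L (i, j) q * v q = 0 := congrFun hv (i, j)
    rw [Fintype.sum_prod_type] at h2
    change ∑ k, L (e j) i k * ∑ j', e j (ω j') * v (k, j') = 0
    rw [← h2]
    refine Finset.sum_congr rfl fun k _ => ?_
    rw [Finset.mul_sum]
    refine Finset.sum_congr rfl fun j' _ => ?_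
    rw [blk, Matrix.of_apply]
    ring
  have h3 : ∀ k, (fun j' => v (k, j')) = 0 := by
    intro k
    by_contra hcon
    apply det_emb_ne_zero ω e he
    rw [← Matrix.exists_mulVec_eq_zero_iff]
    exact ⟨_, hcon, funext fun j => h1 j k⟩
  funext q
  exact congrFun (h3 q.1) q.2

lemma alg_blk {M : ℕ} {C : Type} [Field C] [CharZero C] (e : J → (K →+* C))
    (L : (K →+* C) → Matrix (Fin M) (Fin M) C) (hL : ∀ σ i j, IsAlgebraic ℚ (L σ i j))
    (r q : Fin M × J) : IsAlgebraic ℚ (blk ω e L r q) := by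
  rw [blk, Matrix.of_apply]
  refine (hL _ _ _).mul ?_
  have h1 : IsAlgebraic ℚ (ω q.2) := Algebra.IsAlgebraic.isAlgebraic _
  exact h1.algHom (e r.2).toRatAlgHom

/-- An invertible matrix controls the coordinates. -/
lemma exists_inv_bound {ι : Type} [Fintype ι] [DecidableEq ι] {C : Type} [NormedField C]
    (A : Matrix ι ι C) (hA : A.det ≠ 0) : ∃ c : ℝ, 0 ≤ c ∧ ∀ (x : ι → C) (b : ℝ),
      (∀ i, ‖∑ j, A i j * x j‖ ≤ b) → ∀ i, ‖x i‖ ≤ c * b := by
  refine ⟨∑ i, ∑ j, ‖A⁻¹ i j‖, by positivity, fun x b hb i => ?_⟩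
  have h1 : x = A⁻¹.mulVec (A.mulVec x) := by
    rw [Matrix.mulVec_mulVec, Matrix.nonsing_inv_mul _ (isUnit_iff_ne_zero.2 hA),
      Matrix.one_mulVec]
  have hb0 : 0 ≤ b := (norm_nonneg _).trans (hb i)
  calc ‖x i‖ = ‖∑ j, A⁻¹ i j * (A.mulVec x) j‖ := congrArg norm (congrFun h1 i)
    _ ≤ ∑ j, ‖A⁻¹ i j * (A.mulVec x) j‖ := norm_sum_le _ _
    _ ≤ ∑ j, ‖A⁻¹ i j‖ * b := by
        refine Finset.sum_le_sum fun j _ => ?_
        rw [norm_mul]
        exact mul_le_mul_of_nonneg_left (hb j) (norm_nonneg _)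
    _ = (∑ j, ‖A⁻¹ i j‖) * b := by rw [Finset.sum_mul]
    _ ≤ (∑ i, ∑ j, ‖A⁻¹ i j‖) * b := by
        refine mul_le_mul_of_nonneg_right ?_ hb0
        exact Finset.single_le_sum (f := fun i => ∑ j, ‖A⁻¹ i j‖)
          (fun i _ => by positivity) (Finset.mem_univ i)

/-- The Vandermonde family. -/
noncomputable def lam (ω : Basis J ℚ K) (f : J ≃ Fin (Fintype.card J)) (n : ℕ) : K :=
  ∑ j, ((n : ℚ) ^ (f j : ℕ)) • ω j

lemma lam_span (f : J ≃ Fin (Fintype.card J)) (W : Submodule ℚ K) (N : Finset ℕ)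
    (hN : Fintype.card J ≤ N.card) (h : ∀ n ∈ N, lam ω f n ∈ W) : W = ⊤ := by
  by_contra hW
  obtain ⟨φ, hφ0, hφ⟩ := W.exists_le_ker_of_lt_top (lt_top_iff_ne_top.2 hW)
  apply hφ0
  let P : Polynomial ℚ := ∑ j, Polynomial.C (φ (ω j)) * Polynomial.X ^ (f j : ℕ)
  have hev : ∀ n : ℕ, P.eval (n : ℚ) = φ (lam ω f n) := by
    intro n
    simp only [P, lam, Polynomial.eval_finset_sum, Polynomial.eval_mul, Polynomial.eval_C,
      Polynomial.eval_pow, Polynomial.eval_X, map_sum, map_smul, smul_eq_mul]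
    refine Finset.sum_congr rfl fun j _ => ?_
    ring
  have hdeg : P.degree < Fintype.card J := by
    refine (Polynomial.degree_sum_le _ _).trans_lt ?_
    rw [Finset.sup_lt_iff (by exact WithBot.bot_lt_coe _)]
    intro j _
    refine (Polynomial.degree_C_mul_X_pow_le _ _).trans_lt ?_
    exact_mod_cast (f j).2
  have hP : P = 0 := by
    by_contra hP0
    have h1 : (N.image (fun n : ℕ => (n : ℚ))).card ≤ P.natDegree := by
      apply Polynomial.card_le_degree_of_subset_roots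
      intro x hx
      rw [Finset.mem_val, Finset.mem_image] at hx
      obtain ⟨n, hn, rfl⟩ := hx
      rw [Polynomial.mem_roots hP0, Polynomial.IsRoot.def, hev]
      exact hφ (h n hn)
    rw [Finset.card_image_of_injective _ Nat.cast_injective] at h1
    have h2 := (Polynomial.natDegree_lt_iff_degree_lt hP0).2 hdeg
    omega
  apply ω.ext
  intro j
  have h3 : P.coeff (f j) = φ (ω j) := by
    simp only [P, Polynomial.finset_sum_coeff, Polynomial.coeff_C_mul, Polynomial.coeff_X_pow]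
    rw [Finset.sum_eq_single j]
    · simp
    · intro b _ hb
      rw [if_neg, mul_zero]
      intro h4
      exact hb (f.injective (Fin.ext h4)).symm
    · intro h4; exact absurd (Finset.mem_univ _) h4
  rw [← h3, hP]
  simp

/-- The `K`-subspace attached to a `ℚ`-subspace of the coordinate space. -/
def kSub {M : ℕ} (W : Submodule ℚ (Fin M × J → ℚ)) : Submodule K (Fin M → K) where
  carrier := {y | ∀ μ : K, co ω M (μ • y) ∈ W}
  add_mem' := by
    intro a b ha hb μ
    rw [smul_add, map_add]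
    exact W.add_mem (ha μ) (hb μ)
  zero_mem' := by
    intro μ
    rw [smul_zero, map_zero]
    exact W.zero_mem
  smul_mem' := by
    intro c x hx μ
    rw [smul_smul]
    exact hx _

lemma kSub_ne_top {M : ℕ} {W : Submodule ℚ (Fin M × J → ℚ)} (hW : W ≠ ⊤) : kSub ω W ≠ ⊤ := by
  intro h
  apply hW
  rw [eq_top_iff]
  intro x _
  have h1 : (co ω M).symm x ∈ kSub ω W := by rw [h]; trivial
  have h2 := h1 1
  rwa [one_smul, LinearEquiv.apply_symm_apply] at h2

lemma mem_kSub_of {M : ℕ} {W : Submodule ℚ (Fin M × J → ℚ)} (f : J ≃ Fin (Fintype.card J))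
    (y : Fin M → K) (N : Finset ℕ) (hN : Fintype.card J ≤ N.card)
    (h : ∀ n ∈ N, co ω M (lam ω f n • y) ∈ W) : y ∈ kSub ω W := by
  let ψ : K →ₗ[ℚ] (Fin M × J → ℚ) :=
    (co ω M).toLinearMap ∘ₗ (LinearMap.toSpanSingleton K (Fin M → K) y).restrictScalars ℚ
  have h1 : W.comap ψ = ⊤ := lam_span ω f _ N hN fun n hn => h n hn
  intro μ
  have h2 : μ ∈ W.comap ψ := by rw [h1]; trivial
  exact h2

end emb

open NumberField in
lemma pint_of_integral {K : Type} [Field K] [NumberField K] (P : ℕ) (z : K) (n : ℕ)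
    (h : IsIntegral ℤ ((P : K) ^ n * z)) (j : Free.ChooseBasisIndex ℤ (𝓞 K)) :
    PInt P ((integralBasis K).repr z j) := by
  let w : 𝓞 K := ⟨(P : K) ^ n * z, h⟩
  refine ⟨n, (RingOfIntegers.basis K).repr w j, ?_⟩
  have h1 := integralBasis_repr_apply K w j
  have h2 : algebraMap (𝓞 K) K w = ((P : ℚ) ^ n) • z := by
    change (P : K) ^ n * z = _
    rw [Rat.smul_def]
    push_cast
    rfl
  rw [h2, map_smul] at h1
  simp only [Finsupp.smul_apply, smul_eq_mul] at h1
  rw [mul_comm, h1]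
  rfl

open NumberField in
lemma lam_integral {K : Type} [Field K] [NumberField K]
    (f : Free.ChooseBasisIndex ℤ (𝓞 K) ≃ Fin (Fintype.card (Free.ChooseBasisIndex ℤ (𝓞 K))))
    (n : ℕ) : IsIntegral ℤ (lam (integralBasis K) f n) := by
  rw [lam]
  refine IsIntegral.sum _ fun j _ => ?_
  rw [Rat.smul_def]
  refine IsIntegral.mul ?_ ?_
  · push_cast
    have h1 : IsIntegral ℤ (algebraMap ℤ K (n : ℤ)) := isIntegral_algebraMap
    have h2 : algebraMap ℤ K (n : ℤ) = (n : K) := by simp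
    rw [h2] at h1
    exact h1.pow _
  · rw [integralBasis_apply]
    exact RingOfIntegers.isIntegral_coe _

open NumberField in
/-- SUBK -/
theorem subspaceK {K : Type} [Field K] [NumberField K] {T : Type} [Fintype T] {p : T → ℕ}
    [∀ t, Fact (p t).Prime] (F : T → Type) [∀ t, NontriviallyNormedField (F t)]
    [∀ t, NormedAlgebra ℚ_[p t] (F t)] [∀ t, FiniteDimensional ℚ_[p t] (F t)]
    [∀ t, CharZero (F t)] [∀ t, Fintype (K →+* F t)]
    (hcard : ∀ t, Fintype.card (K →+* F t) = Module.finrank ℚ K)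
    (M : ℕ) (hM : 2 ≤ M) (δ B : ℝ) (hδ : 0 < δ)
    -- the theorem SUBF for all index types
    (hsub : ∀ (ι : Type) [Fintype ι] [DecidableEq ι], 2 ≤ Fintype.card ι →
      ∀ (A : Matrix ι ι ℂ) (A' : ∀ t, Matrix ι ι (F t)),
      (∀ i j, IsAlgebraic ℚ (A i j)) → (∀ t i j, IsAlgebraic ℚ (A' t i j)) →
      A.det ≠ 0 → (∀ t, (A' t).det ≠ 0) →
      ∃ 𝒲 : Finset (Submodule ℚ (ι → ℚ)), (∀ W ∈ 𝒲, W ≠ ⊤) ∧
      ∀ (Q : ℝ) (a : ι → ℝ) (a' : T → ι → ℝ), 1 ≤ Q →
      (∀ i, Q ^ (-(B + 1)) ≤ a i ∧ a i ≤ Q ^ (B + 1)) →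
      (∀ t i, Q ^ (-(B + 1)) ≤ a' t i ∧ a' t i ≤ Q ^ (B + 1)) →
      wprod a a' ≤ Q ^ (-(δ / 2)) → ∀ x : ι → ℚ, PVec (pprod p) x →
      (∀ i, ‖∑ j, A i j * ((x j : ℚ) : ℂ)‖ ≤ a i) →
      (∀ t i, ‖∑ j, A' t i j * ((x j : ℚ) : F t)‖ ≤ a' t i) → ∃ W ∈ 𝒲, x ∈ W)
    (l : (K →+* ℂ) → Matrix (Fin M) (Fin M) ℂ)
    (l' : ∀ t, (K →+* F t) → Matrix (Fin M) (Fin M) (F t))
    (hl : ∀ σ i j, IsAlgebraic ℚ (l σ i j)) (hl' : ∀ t σ i j, IsAlgebraic ℚ (l' t σ i j))
    (hd : ∀ σ, (l σ).det ≠ 0) (hd' : ∀ t σ, (l' t σ).det ≠ 0) :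
    ∃ 𝒲 : Finset (Submodule K (Fin M → K)), (∀ W ∈ 𝒲, W ≠ ⊤) ∧
      ∀ (Q : ℝ) (a : (K →+* ℂ) → Fin M → ℝ) (a' : ∀ t, (K →+* F t) → Fin M → ℝ), 1 ≤ Q →
      (∀ σ i, Q ^ (-B) ≤ a σ i ∧ a σ i ≤ Q ^ B) →
      (∀ t σ i, Q ^ (-B) ≤ a' t σ i ∧ a' t σ i ≤ Q ^ B) →
      (∏ σ, ∏ i, a σ i) * ∏ t, ∏ σ, ∏ i, a' t σ i ≤ Q ^ (-δ) →
      ∀ y : Fin M → K, (∀ k, ∃ n : ℕ, IsIntegral ℤ ((pprod p : K) ^ n * y k)) →
      (∀ σ i, ‖∑ j, l σ i j * σ (y j)‖ ≤ a σ i) →
      (∀ t σ i, ‖∑ j, l' t σ i j * σ (y j)‖ ≤ a' t σ i) → ∃ W ∈ 𝒲, y ∈ W := by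
  classical
  let J := Free.ChooseBasisIndex ℤ (𝓞 K)
  let ω : Basis J ℚ K := integralBasis K
  have hDcard : Module.finrank ℚ K = Fintype.card J := Module.finrank_eq_card_basis ω
  have hDpos : 0 < Fintype.card J := by rw [← hDcard]; exact Module.finrank_pos
  let e : J ≃ (K →+* ℂ) := Fintype.equivOfCardEq (hDcard.symm.trans (Embeddings.card K ℂ).symm)
  let e' : ∀ t, J ≃ (K →+* F t) := fun t =>
    Fintype.equivOfCardEq (hDcard.symm.trans (hcard t).symm)
  let f : J ≃ Fin (Fintype.card J) := Fintype.equivFin J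
  let A := blk ω e l
  let A' : ∀ t, Matrix (Fin M × J) (Fin M × J) (F t) := fun t => blk ω (e' t) (l' t)
  have hA : A.det ≠ 0 := det_blk ω e e.injective l hd
  have hA' : ∀ t, (A' t).det ≠ 0 := fun t => det_blk ω (e' t) (e' t).injective (l' t) (hd' t)
  have hcardι : 2 ≤ Fintype.card (Fin M × J) := by
    rw [Fintype.card_prod, Fintype.card_fin]
    exact hM.trans (Nat.le_mul_of_pos_right _ hDpos)
  obtain ⟨𝒲0, h𝒲0, hmain⟩ := hsub (Fin M × J) hcardι A A'
    (fun r q => alg_blk ω e l hl r q) (fun t r q => alg_blk ω (e' t) (l' t) (hl' t) r q) hA hA'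
  let R := 𝒲0.card * (Fintype.card J - 1) + 1
  let C : ℝ := 1 + ∑ n ∈ Finset.range R, ∑ σ : K →+* ℂ, ‖σ (lam ω f n)‖ +
    ∑ t, ∑ n ∈ Finset.range R, ∑ σ : K →+* F t, ‖σ (lam ω f n)‖
  have s1 : 0 ≤ ∑ n ∈ Finset.range R, ∑ σ : K →+* ℂ, ‖σ (lam ω f n)‖ := by positivity
  have s2 : 0 ≤ ∑ t, ∑ n ∈ Finset.range R, ∑ σ : K →+* F t, ‖σ (lam ω f n)‖ := by positivity
  have hC1 : 1 ≤ C := by simp only [C]; linarith
  have hCσ : ∀ n ∈ Finset.range R, ∀ σ : K →+* ℂ, ‖σ (lam ω f n)‖ ≤ C := by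
    intro n hn σ
    have h1 : ‖σ (lam ω f n)‖ ≤ ∑ σ : K →+* ℂ, ‖σ (lam ω f n)‖ :=
      Finset.single_le_sum (f := fun σ : K →+* ℂ => ‖σ (lam ω f n)‖)
        (fun _ _ => norm_nonneg _) (Finset.mem_univ σ)
    have h2 : ∑ σ : K →+* ℂ, ‖σ (lam ω f n)‖ ≤
        ∑ n ∈ Finset.range R, ∑ σ : K →+* ℂ, ‖σ (lam ω f n)‖ :=
      Finset.single_le_sum (f := fun n => ∑ σ : K →+* ℂ, ‖σ (lam ω f n)‖)
        (fun _ _ => by positivity) hn
    simp only [C]; linarith
  have hCσ' : ∀ t, ∀ n ∈ Finset.range R, ∀ σ : K →+* F t, ‖σ (lam ω f n)‖ ≤ C := by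
    intro t n hn σ
    have h1 : ‖σ (lam ω f n)‖ ≤ ∑ σ : K →+* F t, ‖σ (lam ω f n)‖ :=
      Finset.single_le_sum (f := fun σ : K →+* F t => ‖σ (lam ω f n)‖)
        (fun _ _ => norm_nonneg _) (Finset.mem_univ σ)
    have h2 : ∑ σ : K →+* F t, ‖σ (lam ω f n)‖ ≤
        ∑ n ∈ Finset.range R, ∑ σ : K →+* F t, ‖σ (lam ω f n)‖ :=
      Finset.single_le_sum (f := fun n => ∑ σ : K →+* F t, ‖σ (lam ω f n)‖)
        (fun _ _ => by positivity) hn
    have h3 : ∑ n ∈ Finset.range R, ∑ σ : K →+* F t, ‖σ (lam ω f n)‖ ≤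
        ∑ t, ∑ n ∈ Finset.range R, ∑ σ : K →+* F t, ‖σ (lam ω f n)‖ :=
      Finset.single_le_sum
        (f := fun t => ∑ n ∈ Finset.range R, ∑ σ : K →+* F t, ‖σ (lam ω f n)‖)
        (fun _ _ => by positivity) (Finset.mem_univ t)
    simp only [C]; linarith
  let N := Fintype.card (Fin M × J) * (1 + Fintype.card T)
  let Q1 : ℝ := max C (C ^ (2 * (N : ℝ) / δ))
  have hQ1 : 1 ≤ Q1 := hC1.trans (le_max_left _ _)
  obtain ⟨c0, hc0, hinv⟩ := exists_inv_bound A hA
  have hinv' : ∀ t, ∃ c : ℝ, 0 ≤ c ∧ ∀ (x : Fin M × J → F t) (b : ℝ),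
      (∀ i, ‖∑ j, A' t i j * x j‖ ≤ b) → ∀ i, ‖x i‖ ≤ c * b :=
    fun t => exists_inv_bound (A' t) (hA' t)
  choose c' hc' hinv' using hinv'
  let b : ℝ := Q1 ^ |B|
  have hb : 0 ≤ b := by positivity
  let cc : ℝ := (c0 + ∑ t, c' t) * b
  let Sf : Set (Fin M → K) := {y | ∀ q, co ω M y q ∈
    {x : ℚ | PInt (pprod p) x ∧ |(x : ℝ)| ≤ cc ∧ ∀ t, ‖(x : ℚ_[p t])‖ ≤ cc}}
  have hSf : Sf.Finite := by
    have h1 : (Set.univ.pi fun _ : Fin M × J =>
      {x : ℚ | PInt (pprod p) x ∧ |(x : ℝ)| ≤ cc ∧ ∀ t, ‖(x : ℚ_[p t])‖ ≤ cc}).Finite :=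
      Set.Finite.pi fun _ => finite_bounded cc
    refine (h1.preimage ((co ω M).injective.injOn)).subset ?_
    intro y hy q _
    exact hy q
  refine ⟨𝒲0.image (kSub ω) ∪ hSf.toFinset.image (fun y => K ∙ y), ?_, ?_⟩
  · intro W hW
    rw [Finset.mem_union, Finset.mem_image, Finset.mem_image] at hW
    rcases hW with ⟨W0, hW0, rfl⟩ | ⟨y, -, rfl⟩
    · exact kSub_ne_top ω (h𝒲0 W0 hW0)
    · intro htop
      have h1 : finrank K (K ∙ y) ≤ 1 := (finrank_span_le_card ({y} : Set (Fin M → K))).trans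
        (by simp)
      rw [htop, finrank_top, finrank_fin_fun] at h1
      omega
  · intro Q a a' hQ ha ha' hprod y hint hrow hrow'
    have hpos : 0 < Q := by linarith
    rcases le_or_gt Q1 Q with hQQ | hQQ
    · -- large Q
      have hCQ : C ≤ Q := (le_max_left _ _).trans hQQ
      have hCN : C ^ N ≤ Q ^ (δ / 2) := by
        have h1 : C ^ (2 * (N : ℝ) / δ) ≤ Q := (le_max_right _ _).trans hQQ
        have h2 : (C ^ (2 * (N : ℝ) / δ)) ^ (δ / 2) ≤ Q ^ (δ / 2) :=
          Real.rpow_le_rpow (by positivity) h1 (by positivity)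
        rw [← Real.rpow_mul (by linarith)] at h2
        have h3 : 2 * (N : ℝ) / δ * (δ / 2) = N := by field_simp
        rw [h3, Real.rpow_natCast] at h2
        exact h2
      have hapos : ∀ σ i, 0 < a σ i := fun σ i => (Real.rpow_pos_of_pos hpos _).trans_le (ha σ i).1
      have ha'pos : ∀ t σ i, 0 < a' t σ i := fun t σ i =>
        (Real.rpow_pos_of_pos hpos _).trans_le (ha' t σ i).1
      have hwt : ∀ v : ℝ, Q ^ (-B) ≤ v ∧ v ≤ Q ^ B →
          Q ^ (-(B + 1)) ≤ C * v ∧ C * v ≤ Q ^ (B + 1) := by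
        rintro v ⟨h1, h2⟩
        have hv : 0 < v := (Real.rpow_pos_of_pos hpos _).trans_le h1
        constructor
        · calc Q ^ (-(B + 1)) ≤ Q ^ (-B) := Real.rpow_le_rpow_of_exponent_le hQ (by linarith)
            _ ≤ v := h1
            _ ≤ C * v := le_mul_of_one_le_left hv.le hC1
        · calc C * v ≤ Q * Q ^ B := by gcongr
            _ = Q ^ (B + 1) := by rw [Real.rpow_add hpos, Real.rpow_one]; ring
      have hall : ∀ n ∈ Finset.range R, ∃ W ∈ 𝒲0, co ω M (lam ω f n • y) ∈ W := by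
        intro n hn
        apply hmain Q (fun r => C * a (e r.2) r.1) (fun t r => C * a' t (e' t r.2) r.1) hQ
          (fun r => hwt _ (ha _ _)) (fun t r => hwt _ (ha' t _ _))
        · -- product of the weights
          have p1 : ∏ r : Fin M × J, a (e r.2) r.1 = ∏ σ, ∏ i, a σ i := by
            rw [Fintype.prod_prod_type_right]
            exact Equiv.prod_comp e (fun σ => ∏ i, a σ i)
          have p2 : ∀ t, ∏ r : Fin M × J, a' t (e' t r.2) r.1 = ∏ σ, ∏ i, a' t σ i := by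
            intro t
            rw [Fintype.prod_prod_type_right]
            exact Equiv.prod_comp (e' t) (fun σ => ∏ i, a' t σ i)
          have p3 : wprod (fun r : Fin M × J => C * a (e r.2) r.1)
              (fun t r => C * a' t (e' t r.2) r.1) =
              C ^ N * ((∏ σ, ∏ i, a σ i) * ∏ t, ∏ σ, ∏ i, a' t σ i) := by
            rw [wprod]
            simp only [Finset.prod_mul_distrib, Finset.prod_const, Finset.card_univ, p1, p2]
            simp only [N]
            rw [← pow_mul]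
            ring
          rw [p3]
          have h4 : Q ^ (-(δ / 2)) = Q ^ (δ / 2) * Q ^ (-δ) := by
            rw [← Real.rpow_add hpos]; congr 1; ring
          rw [h4]
          refine mul_le_mul hCN hprod ?_ (by positivity)
          refine mul_nonneg (Finset.prod_nonneg fun σ _ => Finset.prod_nonneg fun i _ =>
            (hapos σ i).le) (Finset.prod_nonneg fun t _ => Finset.prod_nonneg fun σ _ =>
            Finset.prod_nonneg fun i _ => (ha'pos t σ i).le)
        · intro q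
          rw [co_apply]
          obtain ⟨m, hm⟩ := hint q.1
          apply pint_of_integral _ _ m
          have h5 : (pprod p : K) ^ m * ((lam ω f n • y) q.1) =
              lam ω f n * ((pprod p : K) ^ m * y q.1) := by
            rw [Pi.smul_apply, smul_eq_mul]; ring
          rw [h5]
          exact (lam_integral f n).mul hm
        · intro r
          rw [blk_row ω e l (lam ω f n • y) r]
          have h6 : ∑ k, l (e r.2) r.1 k * e r.2 ((lam ω f n • y) k) =
              e r.2 (lam ω f n) * ∑ k, l (e r.2) r.1 k * e r.2 (y k) := by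
            rw [Finset.mul_sum]
            refine Finset.sum_congr rfl fun k _ => ?_
            rw [Pi.smul_apply, smul_eq_mul, map_mul]; ring
          rw [h6, norm_mul]
          exact mul_le_mul (hCσ n hn _) (hrow _ _) (norm_nonneg _) (by linarith)
        · intro t r
          rw [blk_row ω (e' t) (l' t) (lam ω f n • y) r]
          have h6 : ∑ k, l' t (e' t r.2) r.1 k * e' t r.2 ((lam ω f n • y) k) =
              e' t r.2 (lam ω f n) * ∑ k, l' t (e' t r.2) r.1 k * e' t r.2 (y k) := by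
            rw [Finset.mul_sum]
            refine Finset.sum_congr rfl fun k _ => ?_
            rw [Pi.smul_apply, smul_eq_mul, map_mul]; ring
          rw [h6, norm_mul]
          exact mul_le_mul (hCσ' t n hn _) (hrow' _ _ _) (norm_nonneg _) (by linarith)
      choose! g hg1 hg2 using hall
      have hpig : 𝒲0.card * (Fintype.card J - 1) < (Finset.range R).card := by
        rw [Finset.card_range]; exact Nat.lt_succ_self _
      obtain ⟨W, hW, hWc⟩ := Finset.exists_lt_card_fiber_of_mul_lt_card_of_maps_to hg1 hpig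
      refine ⟨kSub ω W, Finset.mem_union_left _ (Finset.mem_image_of_mem _ hW), ?_⟩
      refine mem_kSub_of ω f y ((Finset.range R).filter fun n => g n = W) (by omega)
        fun n hn => ?_
      rw [Finset.mem_filter] at hn
      rw [← hn.2]
      exact hg2 n hn.1
    · -- small Q
      have hQB : Q ^ B ≤ b := by
        calc Q ^ B ≤ Q ^ |B| := Real.rpow_le_rpow_of_exponent_le hQ (le_abs_self B)
          _ ≤ Q1 ^ |B| := Real.rpow_le_rpow hpos.le hQQ.le (abs_nonneg _)
      have hcc0 : c0 * b ≤ cc := by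
        have : 0 ≤ ∑ t, c' t := Finset.sum_nonneg fun t _ => hc' t
        simp only [cc]
        gcongr
        linarith
      have hcc' : ∀ t, c' t * b ≤ cc := by
        intro t
        have : c' t ≤ ∑ t, c' t := Finset.single_le_sum (fun t _ => hc' t) (Finset.mem_univ t)
        simp only [cc]
        gcongr
        linarith
      have hy : y ∈ Sf := by
        intro q
        refine ⟨?_, ?_, ?_⟩
        · rw [co_apply]
          obtain ⟨m, hm⟩ := hint q.1
          exact pint_of_integral _ _ m hm _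
        · have h1 := hinv (fun q => ((co ω M y q : ℚ) : ℂ)) b (fun r => by
            rw [blk_row ω e l y r]
            exact (hrow _ _).trans ((ha _ _).2.trans hQB)) q
          have h2 : ‖((co ω M y q : ℚ) : ℂ)‖ = |((co ω M y q : ℚ) : ℝ)| := by
            rw [← Complex.ofReal_ratCast, Complex.norm_real, Real.norm_eq_abs]
          rw [← h2]
          exact h1.trans hcc0
        · intro t
          have h1 := hinv' t (fun q => ((co ω M y q : ℚ) : F t)) b (fun r => by
            rw [blk_row ω (e' t) (l' t) y r]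
            exact (hrow' _ _ _).trans ((ha' _ _ _).2.trans hQB)) q
          have h2 : ‖((co ω M y q : ℚ) : F t)‖ = ‖((co ω M y q : ℚ) : ℚ_[p t])‖ := by
            rw [← map_ratCast (algebraMap ℚ_[p t] (F t)), norm_algebraMap']
          rw [← h2]
          exact h1.trans (hcc' t)
      refine ⟨K ∙ y, Finset.mem_union_right _ (Finset.mem_image_of_mem _ ?_),
        Submodule.mem_span_singleton_self y⟩
      exact hSf.mem_toFinset.2 hy

end Pool.Agent.Helper98.Sub
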