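import Pool.Agent.Helper12.Circ.Defs

/-!
# CIRC-MADER: a graph without `K₅` minor has at most `3n - 6` edges
-/

set_option autoImplicit false

open Finset
open scoped Classical

namespace Pool.Agent.Circ

universe u

section minors

lemma mader_induce_singleton {V : Type*} (G : SimpleGraph V) (x : V) :
    (G.induce ({x} : Set V)).Connected := by
  rw [SimpleGraph.connected_iff_exists_forall_reachable]
  refine ⟨⟨x, rfl⟩, ?_⟩
  rintro ⟨y, hy⟩
  cases hy
  exact SimpleGraph.Reachable.refl _

/-- The minor relation is transitive. -/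
theorem mader_trans {W' W V : Type*} {K : SimpleGraph W'} {H : SimpleGraph W} {G : SimpleGraph V}
    (h1 : IsMinor K H) (h2 : IsMinor H G) : IsMinor K G := by
  obtain ⟨B, hBc, hBd, hBa⟩ := h1
  obtain ⟨C, hCc, hCd, hCa⟩ := h2
  refine ⟨fun i => ⋃ w ∈ B i, C w, ?_, ?_, ?_⟩
  · intro i
    have hsub : ∀ w : B i, C w ⊆ ⋃ w ∈ B i, C w := fun w x hx => by
      rw [Set.mem_iUnion₂]
      exact ⟨w.1, w.2, hx⟩
    have hin : ∀ (w : B i) (x y : V) (hx : x ∈ C w) (hy : y ∈ C w),
        (G.induce (⋃ w ∈ B i, C w)).Reachable ⟨x, hsub w hx⟩ ⟨y, hsub w hy⟩ := by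
      intro w x y hx hy
      exact ((hCc w).preconnected ⟨x, hx⟩ ⟨y, hy⟩).map (SimpleGraph.induceHomOfLE G (hsub w)).toHom
    have key : ∀ (w w' : B i) (_ : (H.induce (B i)).Walk w w') (x y : V) (hx : x ∈ C w)
        (hy : y ∈ C w'),
        (G.induce (⋃ w ∈ B i, C w)).Reachable ⟨x, hsub w hx⟩ ⟨y, hsub w' hy⟩ := by
      intro w w' p
      induction p with
      | nil => intro x y hx hy; exact hin _ x y hx hy
      | @cons a b c hab p ih =>
        intro x y hx hy
        obtain ⟨s, hs, t, ht, hst⟩ := hCa a b hab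
        refine (hin a x s hx hs).trans (SimpleGraph.Reachable.trans ?_ (ih t y ht hy))
        apply SimpleGraph.Adj.reachable
        exact hst
    obtain ⟨w0⟩ := (hBc i).nonempty
    obtain ⟨x0⟩ := (hCc w0).nonempty
    rw [SimpleGraph.connected_iff_exists_forall_reachable]
    refine ⟨⟨x0.1, hsub w0 x0.2⟩, ?_⟩
    rintro ⟨y, hy⟩
    rw [Set.mem_iUnion₂] at hy
    obtain ⟨w, hw, hyw⟩ := hy
    obtain ⟨p⟩ := (hBc i).preconnected w0 ⟨w, hw⟩
    exact key _ _ p x0.1 y x0.2 hyw
  · intro i j hij
    rw [Set.disjoint_left]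
    intro x hx hy
    rw [Set.mem_iUnion₂] at hx hy
    obtain ⟨w, hw, hxw⟩ := hx
    obtain ⟨w', hw', hxw'⟩ := hy
    by_cases h : w = w'
    · subst h
      exact Set.disjoint_left.mp (hBd i j hij) hw hw'
    · exact Set.disjoint_left.mp (hCd w w' h) hxw hxw'
  · intro i j hij
    obtain ⟨w, hw, w', hw', h⟩ := hBa i j hij
    obtain ⟨x, hx, y, hy, hxy⟩ := hCa w w' h
    exact ⟨x, Set.mem_iUnion₂.mpr ⟨w, hw, hx⟩, y, Set.mem_iUnion₂.mpr ⟨w', hw', hy⟩, hxy⟩

lemma mader_induce {V : Type*} (G : SimpleGraph V) (s : Set V) : IsMinor (G.induce s) G := by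
  refine ⟨fun w => {w.1}, fun w => mader_induce_singleton G _, fun i j hij => ?_, fun i j hij => ?_⟩
  · rw [Set.disjoint_singleton]
    exact fun h => hij (Subtype.ext h)
  · exact ⟨i.1, rfl, j.1, rfl, hij⟩

lemma mader_of_le {V : Type*} {G' G : SimpleGraph V} (h : G' ≤ G) : IsMinor G' G := by
  refine ⟨fun w => {w}, fun w => mader_induce_singleton G _, fun i j hij => ?_, fun i j hij => ?_⟩
  · rw [Set.disjoint_singleton]
    exact hij
  · exact ⟨i, rfl, j, rfl, h hij⟩

/-- contraction of `v` into `u` -/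
def contr {V : Type*} (G : SimpleGraph V) (u v : V) : SimpleGraph ({v}ᶜ : Set V) where
  Adj a b := a ≠ b ∧ (G.Adj a b ∨ (a.1 = u ∧ G.Adj v b) ∨ (b.1 = u ∧ G.Adj v a))
  symm := ⟨by
    rintro a b ⟨h1, h2⟩
    refine ⟨h1.symm, ?_⟩
    rcases h2 with h | h | h
    · exact Or.inl h.symm
    · exact Or.inr (Or.inr h)
    · exact Or.inr (Or.inl h)⟩
  loopless := ⟨by
    intro a h
    exact h.1 rfl⟩

lemma mader_contr {V : Type*} (G : SimpleGraph V) {u v : V} (huv : G.Adj u v) :
    IsMinor (contr G u v) G := by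
  refine ⟨fun w => if w.1 = u then {u, v} else {w.1}, fun w => ?_, fun i j hij => ?_,
    fun i j hij => ?_⟩
  · dsimp only
    by_cases h : w.1 = u
    · rw [if_pos h]
      exact SimpleGraph.induce_pair_connected_of_adj huv
    · rw [if_neg h]
      exact mader_induce_singleton G _
  · have hi : i.1 ≠ v := i.2
    have hj : j.1 ≠ v := j.2
    have hij' : i.1 ≠ j.1 := fun h => hij (Subtype.ext h)
    dsimp only
    split_ifs with h1 h2 h2
    · exact absurd (h1.trans h2.symm) hij'
    · rw [Set.disjoint_singleton_right]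
      rintro (h | h)
      · exact h2 h
      · exact hj h
    · rw [Set.disjoint_singleton_left]
      rintro (h | h)
      · exact h1 h
      · exact hi h
    · rw [Set.disjoint_singleton]
      exact hij'
  · dsimp only
    obtain ⟨hne, h | ⟨h1, h⟩ | ⟨h1, h⟩⟩ := hij
    · refine ⟨i.1, ?_, j.1, ?_, h⟩
      · split_ifs with h1
        · left; exact h1
        · rfl
      · split_ifs with h1
        · left; exact h1
        · rfl
    · refine ⟨v, ?_, j.1, ?_, h⟩
      · rw [if_pos h1]; right; rfl
      · split_ifs with h1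
        · left; exact h1
        · rfl
    · refine ⟨i.1, ?_, v, ?_, h.symm⟩
      · split_ifs with h1
        · left; exact h1
        · rfl
      · rw [if_pos h1]; right; rfl

end minors

section K5

/-- `K₅` from six vertices, two of them contracted. -/
lemma K5_of {V : Type*} {G : SimpleGraph V} {v z a x b y : V}
    (hvz : G.Adj v z) (hva : G.Adj v a) (hvx : G.Adj v x) (hvb : G.Adj v b) (hvy : G.Adj v y)
    (hza : G.Adj z a) (hzx : G.Adj z x) (hzb : G.Adj z b) (hzy : G.Adj z y)
    (hax : G.Adj a x) (hab : a ≠ b) (hay : G.Adj a y) (hxb : G.Adj x b) (hxy : x ≠ y)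
    (hby : G.Adj b y) : IsMinor (⊤ : SimpleGraph (Fin 5)) G := by
  refine ⟨![{v}, {z}, {a, x}, {b}, {y}], fun i => ?_, fun i j hij => ?_, fun i j hij => ?_⟩
  · fin_cases i
    · exact mader_induce_singleton G v
    · exact mader_induce_singleton G z
    · exact SimpleGraph.induce_pair_connected_of_adj hax
    · exact mader_induce_singleton G b
    · exact mader_induce_singleton G y
  · have key : ∀ i j : Fin 5, i < j → Disjoint ((![{v}, {z}, {a, x}, {b}, {y}] : Fin 5 → Set V) i)
        ((![{v}, {z}, {a, x}, {b}, {y}] : Fin 5 → Set V) j) := by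
      intro i j hij
      fin_cases i <;> fin_cases j <;> simp at hij <;>
        simp [hvz.ne, hva.ne, hvx.ne, hvb.ne, hvy.ne, hza.ne, hzx.ne, hzb.ne, hzy.ne, hab.symm,
          hay.ne.symm, hxb.ne.symm, hxy.symm, hby.ne]
    rcases lt_or_gt_of_ne hij with h | h
    · exact key i j h
    · exact (key j i h).symm
  · have key : ∀ i j : Fin 5, i < j → ∃ s ∈ (![{v}, {z}, {a, x}, {b}, {y}] : Fin 5 → Set V) i,
        ∃ t ∈ (![{v}, {z}, {a, x}, {b}, {y}] : Fin 5 → Set V) j, G.Adj s t := by
      intro i j hij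
      fin_cases i <;> fin_cases j <;> simp at hij <;>
        simp [hvz, hva, hvb, hvy, hza, hzb, hzy, hay, hxb, hby]
    have hij' : i ≠ j := hij
    rcases lt_or_gt_of_ne hij' with h | h
    · exact key i j h
    · obtain ⟨s, hs, t, ht, hst⟩ := key j i h
      exact ⟨t, ht, s, hs, hst.symm⟩

/-- `K₅` from five vertices. -/
lemma K5_of' {V : Type*} {G : SimpleGraph V} {v z a b y : V}
    (hvz : G.Adj v z) (hva : G.Adj v a) (hvb : G.Adj v b) (hvy : G.Adj v y)
    (hza : G.Adj z a) (hzb : G.Adj z b) (hzy : G.Adj z y)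
    (hab : G.Adj a b) (hay : G.Adj a y)
    (hby : G.Adj b y) : IsMinor (⊤ : SimpleGraph (Fin 5)) G := by
  refine ⟨![{v}, {z}, {a}, {b}, {y}], fun i => ?_, fun i j hij => ?_, fun i j hij => ?_⟩
  · fin_cases i
    · exact mader_induce_singleton G v
    · exact mader_induce_singleton G z
    · exact mader_induce_singleton G a
    · exact mader_induce_singleton G b
    · exact mader_induce_singleton G y
  · have key : ∀ i j : Fin 5, i < j → Disjoint ((![{v}, {z}, {a}, {b}, {y}] : Fin 5 → Set V) i)
        ((![{v}, {z}, {a}, {b}, {y}] : Fin 5 → Set V) j) := by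
      intro i j hij
      fin_cases i <;> fin_cases j <;> simp at hij <;>
        simp [hvz.ne, hva.ne, hvb.ne, hvy.ne, hza.ne, hzb.ne, hzy.ne, hab.ne,
          hay.ne, hby.ne]
    rcases lt_or_gt_of_ne hij with h | h
    · exact key i j h
    · exact (key j i h).symm
  · have key : ∀ i j : Fin 5, i < j → ∃ s ∈ (![{v}, {z}, {a}, {b}, {y}] : Fin 5 → Set V) i,
        ∃ t ∈ (![{v}, {z}, {a}, {b}, {y}] : Fin 5 → Set V) j, G.Adj s t := by
      intro i j hij
      fin_cases i <;> fin_cases j <;> simp at hij <;>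
        simp [hvz, hva, hvb, hvy, hza, hzb, hzy, hab, hay, hby]
    have hij' : i ≠ j := hij
    rcases lt_or_gt_of_ne hij' with h | h
    · exact key i j h
    · obtain ⟨s, hs, t, ht, hst⟩ := key j i h
      exact ⟨t, ht, s, hs, hst.symm⟩

end K5

section counting

variable {V : Type u} [Fintype V]

lemma mader_ncard {W : Type*} (G : SimpleGraph W) [Fintype G.edgeSet] :
    G.edgeSet.ncard = G.edgeFinset.card := by
  rw [Set.ncard_eq_toFinset_card']
  rfl

lemma card_del (G : SimpleGraph V) (v : V) :
    (G.induce ({v}ᶜ : Set V)).edgeSet.ncard = G.edgeSet.ncard - G.degree v := by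
  rw [mader_ncard G, ← SimpleGraph.card_edgeFinset_deleteIncidenceSet,
      ← SimpleGraph.card_edgeFinset_induce_compl_singleton, mader_ncard]

lemma card_contr (G : SimpleGraph V) {u v : V} (huv : G.Adj u v) :
    G.edgeSet.ncard ≤ (contr G u v).edgeSet.ncard + 1 +
      (G.neighborFinset u ∩ G.neighborFinset v).card := by
  set u' : ({v}ᶜ : Set V) := ⟨u, huv.ne⟩ with hu'
  set F : Finset ({v}ᶜ : Set V) :=
    univ.filter (fun b : ({v}ᶜ : Set V) => G.Adj v b ∧ ¬ G.Adj u b ∧ b.1 ≠ u) with hF
  set S1 := (G.induce ({v}ᶜ : Set V)).edgeFinset with hS1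
  set S2 := F.image (fun b => s(u', b)) with hS2
  have h1 : S1 ∪ S2 ⊆ (contr G u v).edgeFinset := by
    intro e he
    rw [mem_union] at he
    rw [SimpleGraph.mem_edgeFinset]
    rcases he with he | he
    · rw [hS1, SimpleGraph.mem_edgeFinset] at he
      induction e with
      | _ a b =>
        rw [SimpleGraph.mem_edgeSet] at he ⊢
        exact ⟨he.ne, Or.inl he⟩
    · rw [hS2, mem_image] at he
      obtain ⟨b, hb, rfl⟩ := he
      rw [hF, mem_filter] at hb
      rw [SimpleGraph.mem_edgeSet]
      refine ⟨fun h => hb.2.2.2 (congrArg Subtype.val h).symm, Or.inr (Or.inl ⟨rfl, hb.2.1⟩)⟩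
  have h2 : Disjoint S1 S2 := by
    rw [disjoint_left]
    intro e he he'
    rw [hS2, mem_image] at he'
    obtain ⟨b, hb, rfl⟩ := he'
    rw [hF, mem_filter] at hb
    rw [hS1, SimpleGraph.mem_edgeFinset, SimpleGraph.mem_edgeSet] at he
    exact hb.2.2.1 he
  have h3 : S2.card = F.card := by
    rw [hS2]
    refine card_image_of_injective _ fun a b hab => ?_
    exact Sym2.congr_right.mp hab
  have h4 : S1.card = G.edgeSet.ncard - G.degree v := by
    rw [hS1, ← card_del, mader_ncard]
  have h5 : G.degree v ≤ F.card + 1 + (G.neighborFinset u ∩ G.neighborFinset v).card := by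
    rw [← SimpleGraph.card_neighborFinset_eq_degree]
    have hsub : G.neighborFinset v ⊆
        (F.image Subtype.val ∪ {u}) ∪ (G.neighborFinset u ∩ G.neighborFinset v) := by
      intro b hb
      have hb' := hb
      rw [SimpleGraph.mem_neighborFinset] at hb
      rw [mem_union, mem_union, mem_image, mem_singleton, mem_inter, SimpleGraph.mem_neighborFinset]
      by_cases hbu : b = u
      · exact Or.inl (Or.inr hbu)
      by_cases hub : G.Adj u b
      · exact Or.inr ⟨hub, hb'⟩
      · refine Or.inl (Or.inl ⟨⟨b, hb.ne.symm⟩, ?_, rfl⟩)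
        rw [hF, mem_filter]
        exact ⟨mem_univ _, hb, hub, hbu⟩
    refine (card_le_card hsub).trans ((card_union_le _ _).trans ?_)
    refine Nat.add_le_add_right ((card_union_le _ _).trans ?_) _
    rw [card_singleton]
    exact Nat.add_le_add_right card_image_le _
  have h6 := card_le_card h1
  rw [card_union_of_disjoint h2, h3, h4, ← mader_ncard] at h6
  omega

lemma exists_sub_edges (G : SimpleGraph V) {m : ℕ} (hm : m ≤ G.edgeSet.ncard) :
    ∃ G' : SimpleGraph V, G' ≤ G ∧ G'.edgeSet.ncard = m := by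
  rw [mader_ncard] at hm
  obtain ⟨s, hs, hsm⟩ := exists_subset_card_eq hm
  refine ⟨SimpleGraph.fromEdgeSet (s : Set (Sym2 V)), ?_, ?_⟩
  · conv_rhs => rw [← SimpleGraph.fromEdgeSet_edgeSet G]
    refine SimpleGraph.fromEdgeSet_mono fun e he => ?_
    exact SimpleGraph.mem_edgeFinset.mp (hs he)
  · rw [← hsm, ← Set.ncard_coe_finset]
    congr 1
    ext e
    rw [SimpleGraph.edgeSet_fromEdgeSet]
    constructor
    · intro h
      exact h.1
    · intro h
      exact ⟨h, fun hd => SimpleGraph.not_isDiag_of_mem_edgeSet G (SimpleGraph.mem_edgeFinset.mp (hs h)) hd⟩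

lemma local_K5 (G : SimpleGraph V) (v : V) (h4 : 4 ≤ G.degree v) (h5 : G.degree v ≤ 5)
    (hc : ∀ u, G.Adj v u → 3 ≤ (G.neighborFinset u ∩ G.neighborFinset v).card) :
    IsMinor (⊤ : SimpleGraph (Fin 5)) G := by
  set N := G.neighborFinset v with hN
  rw [← SimpleGraph.card_neighborFinset_eq_degree, ← hN] at h4 h5
  have hadj : ∀ u ∈ N, G.Adj v u := fun u hu => by
    rwa [hN, SimpleGraph.mem_neighborFinset] at hu
  have factA : ∀ u ∈ N, ∀ s ∈ N, ∀ t ∈ N, u ≠ s → u ≠ t → s ≠ t → G.Adj u s ∨ G.Adj u t := by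
    intro u hu s hs t ht hus hut hst
    by_contra hcon
    push Not at hcon
    have h1 := hc u (hadj u hu)
    have h2 : insert u (insert s (insert t (G.neighborFinset u ∩ N))) ⊆ N := by
      intro x hx
      rw [mem_insert, mem_insert, mem_insert, mem_inter] at hx
      rcases hx with rfl | rfl | rfl | h
      · exact hu
      · exact hs
      · exact ht
      · exact h.2
    have h3 := card_le_card h2
    rw [card_insert_of_notMem, card_insert_of_notMem, card_insert_of_notMem] at h3
    · omega
    · rw [mem_inter, SimpleGraph.mem_neighborFinset]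
      exact fun h => hcon.2 h.1
    · rw [mem_insert, mem_inter, SimpleGraph.mem_neighborFinset]
      rintro (h | h)
      · exact hst h
      · exact hcon.1 h.1
    · rw [mem_insert, mem_insert, mem_inter, SimpleGraph.mem_neighborFinset]
      rintro (h | h | h)
      · exact hus h
      · exact hut h
      · exact h.1.ne rfl
  by_cases hall : ∀ a ∈ N, ∀ b ∈ N, a ≠ b → G.Adj a b
  · obtain ⟨T, hT, hT4⟩ := exists_subset_card_eq h4
    obtain ⟨a, ha⟩ : T.Nonempty := card_pos.mp (by omega)
    have hT3 : (T.erase a).card = 3 := by rw [card_erase_of_mem ha, hT4]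
    obtain ⟨x, y, z, hxy, hxz, hyz, he⟩ := card_eq_three.mp hT3
    have hx : x ∈ T.erase a := by rw [he]; simp
    have hy : y ∈ T.erase a := by rw [he]; simp
    have hz : z ∈ T.erase a := by rw [he]; simp
    rw [mem_erase] at hx hy hz
    have ha' := hT ha
    have hx' := hT hx.2
    have hy' := hT hy.2
    have hz' := hT hz.2
    exact K5_of' (hadj a ha') (hadj x hx') (hadj y hy') (hadj z hz')
      (hall a ha' x hx' hx.1.symm) (hall a ha' y hy' hy.1.symm) (hall a ha' z hz' hz.1.symm)
      (hall x hx' y hy' hxy) (hall x hx' z hz' hxz) (hall y hy' z hz' hyz)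
  · push Not at hall
    obtain ⟨a, ha, b, hb, hab, hnab⟩ := hall
    have hN5 : N.card = 5 := by
      by_contra hcon
      have h1 := hc a (hadj a ha)
      have h2 : insert a (insert b (G.neighborFinset a ∩ N)) ⊆ N := by
        intro x hx
        rw [mem_insert, mem_insert, mem_inter] at hx
        rcases hx with rfl | rfl | h
        · exact ha
        · exact hb
        · exact h.2
      have h3 := card_le_card h2
      rw [card_insert_of_notMem, card_insert_of_notMem] at h3
      · omega
      · rw [mem_inter, SimpleGraph.mem_neighborFinset]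
        exact fun h => hnab h.1
      · rw [mem_insert, mem_inter, SimpleGraph.mem_neighborFinset]
        rintro (h | h)
        · exact hab h
        · exact h.1.ne rfl
    have hT3 : ((N.erase a).erase b).card = 3 := by
      rw [card_erase_of_mem (mem_erase.mpr ⟨hab.symm, hb⟩), card_erase_of_mem ha, hN5]
    obtain ⟨x, y, z, hxy, hxz, hyz, he⟩ := card_eq_three.mp hT3
    have hx : x ∈ (N.erase a).erase b := by rw [he]; simp
    have hy : y ∈ (N.erase a).erase b := by rw [he]; simp
    have hz : z ∈ (N.erase a).erase b := by rw [he]; simp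
    rw [mem_erase, mem_erase] at hx hy hz
    obtain ⟨hxb, hxa, hx⟩ := hx
    obtain ⟨hyb, hya, hy⟩ := hy
    obtain ⟨hzb, hza, hz⟩ := hz
    have ax := (factA a ha b hb x hx hab hxa.symm hxb.symm).resolve_left hnab
    have ay := (factA a ha b hb y hy hab hya.symm hyb.symm).resolve_left hnab
    have az := (factA a ha b hb z hz hab hza.symm hzb.symm).resolve_left hnab
    have hnba : ¬ G.Adj b a := fun h => hnab h.symm
    have bx := (factA b hb a ha x hx hab.symm hxb.symm hxa.symm).resolve_left hnba
    have bY := (factA b hb a ha y hy hab.symm hyb.symm hya.symm).resolve_left hnba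
    have bz := (factA b hb a ha z hz hab.symm hzb.symm hza.symm).resolve_left hnba
    have va := hadj a ha
    have vb := hadj b hb
    have vx := hadj x hx
    have vy := hadj y hy
    have vz := hadj z hz
    by_cases hxy' : G.Adj x y
    · by_cases hxz' : G.Adj x z
      · exact K5_of vx va vy vb vz ax.symm hxy' bx.symm hxz' ay hab az bY.symm hyz bz
      · have yz : G.Adj y z := by
          have h1 := (factA z hz x hx y hy hxz.symm hyz.symm hxy).resolve_left
            (fun h => hxz' h.symm)
          exact h1.symm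
        exact K5_of vy va vx vb vz ay.symm hxy'.symm bY.symm yz ax hab az bx.symm hxz bz
    · have xz := (factA x hx y hy z hz hxy hxz hyz).resolve_left hxy'
      have yz := (factA y hy x hx z hz hxy.symm hyz hxz).resolve_left (fun h => hxy' h.symm)
      exact K5_of vz va vx vb vy az.symm xz.symm bz.symm yz.symm ax hab ay bx.symm hxy bY

end counting

theorem mader_main : ∀ n : ℕ, 3 ≤ n → ∀ (V : Type u) [Fintype V] (G : SimpleGraph V),
    Fintype.card V = n → 3 * n ≤ G.edgeSet.ncard + 5 → IsMinor (⊤ : SimpleGraph (Fin 5)) G := by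
  intro n hn
  induction n, hn using Nat.le_induction with
  | base =>
    intro V _ G hV hE
    have h1 := G.card_edgeFinset_le_card_choose_two
    rw [hV, ← mader_ncard] at h1
    have h2 : Nat.choose 3 2 = 3 := by decide
    omega
  | succ n hn ih =>
    intro V _ G₀ hV hE₀
    obtain ⟨G, hGG, hE⟩ := exists_sub_edges G₀ (m := 3 * (n + 1) - 5) (by omega)
    refine mader_trans ?_ (mader_of_le hGG)
    have hcard : ∀ v : V, Fintype.card ({v}ᶜ : Set V) = n := by
      intro v
      rw [Fintype.card_compl_set, hV]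
      simp
    by_cases ha : ∃ v, G.degree v ≤ 3
    · obtain ⟨v, hv⟩ := ha
      refine mader_trans (ih _ (G.induce ({v}ᶜ : Set V)) (hcard v) ?_) (mader_induce G _)
      have h4 := card_del G v
      omega
    push Not at ha
    by_cases hb : ∃ u v, G.Adj u v ∧ (G.neighborFinset u ∩ G.neighborFinset v).card ≤ 2
    · obtain ⟨u, v, huv, h2⟩ := hb
      refine mader_trans (ih _ (contr G u v) (hcard v) ?_) (mader_contr G huv)
      have := card_contr G huv
      omega
    push Not at hb
    obtain ⟨v, hv⟩ : ∃ v, G.degree v ≤ 5 := by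
      by_contra hcon
      push Not at hcon
      have h1 := G.sum_degrees_eq_twice_card_edges
      have h2 : ∑ v : V, 6 ≤ ∑ v, G.degree v := sum_le_sum fun v _ => hcon v
      rw [sum_const, card_univ, hV, smul_eq_mul] at h2
      rw [← mader_ncard] at h1
      omega
    exact local_K5 G v (ha v) hv fun u hu => hb u v hu.symm

/-- CIRC-MADER. -/
theorem mader {V : Type*} [Fintype V] [LinearOrder V] (G : SimpleGraph V)
    (h : ¬ IsMinor (⊤ : SimpleGraph (Fin 5)) G) (B : Finset V) (hB : 3 ≤ B.card) :
    eIn G B + 6 ≤ 3 * B.card := by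
  by_contra hcon
  push Not at hcon
  apply h
  refine mader_trans (mader_main B.card hB (B : Set V) (G.induce (B : Set V)) (by simp) ?_)
    (mader_induce G _)
  have key : eIn G B ≤ (G.induce (B : Set V)).edgeSet.ncard := by
    rw [mader_ncard, ← card_map (Function.Embedding.sym2Map (Function.Embedding.subtype _))]
    unfold eIn
    refine card_le_card_of_injOn (fun p => s(p.1, p.2)) ?_ ?_
    · intro p hp
      simp only [coe_filter, mem_product, Set.mem_ofPred_eq] at hp
      rw [mem_coe, mem_map]
      refine ⟨s(⟨p.1, hp.1.1⟩, ⟨p.2, hp.1.2⟩), ?_, rfl⟩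
      rw [SimpleGraph.mem_edgeFinset, SimpleGraph.mem_edgeSet]
      exact hp.2.2
    · intro p hp q hq hpq
      simp only [coe_filter, mem_product, Set.mem_ofPred_eq] at hp hq
      rcases Sym2.eq_iff.mp hpq with ⟨h1, h2⟩ | ⟨h1, h2⟩
      · exact Prod.ext h1 h2
      · exfalso
        have h3 := hp.2.1
        rw [h1, h2] at h3
        exact lt_asymm h3 hq.2.1
  omega

end Pool.Agent.Circ
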