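import Mathlib

/-!
Coprime polynomials in several variables: elimination certificates, extension of the base field and
generic three dimensional linear sections.
-/

open MvPolynomial

namespace Pool.Agent.Helper98.BBCoprime

open scoped nonZeroDivisors

theorem gauss_cert {R : Type} [CommRing R] [IsDomain R] [UniqueFactorizationMonoid R]
    {F G : Polynomial R} (h : IsRelPrime F G) :
    ∃ (U V : Polynomial R) (r : R), r ≠ 0 ∧ U * F + V * G = Polynomial.C r := by
  classical
  let K := FractionRing R
  let _ : NormalizedGCDMonoid R := Classical.choice (inferInstance : Nonempty (NormalizedGCDMonoid R))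
  have hinj : Function.Injective (algebraMap R K) := IsFractionRing.injective R K
  have hmapinj : Function.Injective (Polynomial.map (algebraMap R K)) :=
    Polynomial.map_injective _ hinj
  have hcop : IsCoprime (F.map (algebraMap R K)) (G.map (algebraMap R K)) := by
    apply IsRelPrime.isCoprime
    intro w hF hG
    have hw : w ≠ 0 := by
      rintro rfl
      rw [zero_dvd_iff] at hF hG
      have hF0 : F = 0 := hmapinj (by rw [hF, Polynomial.map_zero])
      have hG0 : G = 0 := hmapinj (by rw [hG, Polynomial.map_zero])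
      rw [hF0, hG0] at h
      exact not_isUnit_zero (h (dvd_refl 0) (dvd_refl 0))
    obtain ⟨c, c0, hc⟩ := IsLocalization.integerNormalization_spec R⁰ w
    rw [Algebra.smul_def, Polynomial.algebraMap_apply] at hc
    have hcu : IsUnit (Polynomial.C (algebraMap R K c)) := by
      rw [Polynomial.isUnit_C, isUnit_iff_ne_zero]
      intro h0
      have := hinj (h0.trans (map_zero _).symm)
      exact nonZeroDivisors.ne_zero c0 this
    have key : ∀ H : Polynomial R, w ∣ H.map (algebraMap R K) →
        (IsLocalization.integerNormalization R⁰ w).primPart ∣ H := by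
      intro H hH
      apply (Polynomial.isPrimitive_primPart _).dvd_of_fraction_map_dvd_fraction_map (K := K)
      have h1 : (IsLocalization.integerNormalization R⁰ w).primPart.map (algebraMap R K) ∣
          (IsLocalization.integerNormalization R⁰ w).map (algebraMap R K) := by
        refine Polynomial.map_dvd _ ?_
        exact Polynomial.primPart_dvd _
      refine h1.trans ?_
      rw [hc]
      exact (hcu.mul_left_dvd).2 hH
    have h2 := h (key F hF) (key G hG)
    exact Polynomial.isUnit_or_eq_zero_of_isUnit_integerNormalization_primPart hw h2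
  obtain ⟨a, b, hab⟩ := hcop
  obtain ⟨c, c0, hc⟩ := IsLocalization.integerNormalization_spec R⁰ a
  obtain ⟨d, d0, hd⟩ := IsLocalization.integerNormalization_spec R⁰ b
  rw [Algebra.smul_def, Polynomial.algebraMap_apply] at hc hd
  refine ⟨Polynomial.C d * IsLocalization.integerNormalization R⁰ a,
    Polynomial.C c * IsLocalization.integerNormalization R⁰ b, c * d,
    mul_ne_zero (nonZeroDivisors.ne_zero c0) (nonZeroDivisors.ne_zero d0), ?_⟩
  apply hmapinj
  rw [Polynomial.map_add, Polynomial.map_mul, Polynomial.map_mul, Polynomial.map_mul,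
    Polynomial.map_mul, Polynomial.map_C, Polynomial.map_C, Polynomial.map_C, hc, hd]
  have : Polynomial.C (algebraMap R K (c * d)) =
      Polynomial.C (algebraMap R K c) * Polynomial.C (algebraMap R K d) *
      (a * F.map (algebraMap R K) + b * G.map (algebraMap R K)) := by
    rw [hab, mul_one, map_mul, map_mul]
  rw [this]
  ring

theorem isRelPrime_of_equiv {A B : Type} [CommRing A] [CommRing B] (e : A ≃+* B) {F G : A}
    (h : IsRelPrime F G) : IsRelPrime (e F) (e G) := by
  intro w hF hG
  have h1 : e.symm w ∣ F := by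
    have := map_dvd e.symm hF
    rwa [RingEquiv.symm_apply_apply] at this
  have h2 : e.symm w ∣ G := by
    have := map_dvd e.symm hG
    rwa [RingEquiv.symm_apply_apply] at this
  have h3 := (h h1 h2).map e
  rwa [RingEquiv.apply_symm_apply] at h3

/-- Elimination certificates. -/
theorem exists_elim {k σ : Type} [Field k] [Finite σ] {F G : MvPolynomial σ k}
    (h : IsRelPrime F G) (j : σ) :
    ∃ U V D : MvPolynomial σ k, U * F + V * G = D ∧ D ≠ 0 ∧ D.degreeOf j = 0 := by
  classical
  let e : MvPolynomial σ k ≃ₐ[k] Polynomial (MvPolynomial {b // b ≠ j} k) :=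
    (renameEquiv k (Equiv.optionSubtypeNe j).symm).trans (optionEquivLeft k {b // b ≠ j})
  have he : ∀ p, degreeOf j p = (e p).natDegree := fun p => degreeOf_eq_natDegree j p
  obtain ⟨U, V, r, hr, hUV⟩ := gauss_cert (isRelPrime_of_equiv e.toRingEquiv h)
  refine ⟨e.symm U, e.symm V, e.symm (Polynomial.C r), ?_, ?_, ?_⟩
  · apply e.injective
    rw [map_add, map_mul, map_mul, AlgEquiv.apply_symm_apply, AlgEquiv.apply_symm_apply,
      AlgEquiv.apply_symm_apply]
    exact hUV
  · intro h0
    rw [EmbeddingLike.map_eq_zero_iff, Polynomial.C_eq_zero] at h0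
    exact hr h0
  · rw [he, AlgEquiv.apply_symm_apply, Polynomial.natDegree_C]

theorem degreeOf_eq_zero_of_dvd {k σ : Type} [Field k] {W D : MvPolynomial σ k} {j : σ}
    (hD : D ≠ 0) (hj : D.degreeOf j = 0) (h : W ∣ D) : W.degreeOf j = 0 := by
  obtain ⟨q, rfl⟩ := h
  have hW : W ≠ 0 := left_ne_zero_of_mul hD
  have hq : q ≠ 0 := right_ne_zero_of_mul hD
  rw [degreeOf_mul_eq hW hq] at hj
  omega

theorem eq_C_of_degreeOf_eq_zero {k σ : Type} [Field k] {W : MvPolynomial σ k}
    (h : ∀ j, W.degreeOf j = 0) : ∃ c, W = C c := by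
  classical
  refine ⟨coeff 0 W, ?_⟩
  ext m
  rw [coeff_C]
  split_ifs with h1
  · rw [h1]
  · by_contra h2
    have h3 : m ∈ W.support := mem_support_iff.2 h2
    apply h1
    ext j
    have h4 := monomial_le_degreeOf j h3
    rw [h j] at h4
    exact (Nat.le_zero.1 h4).symm

/-- Coprimality is preserved by extension of the base field. -/
theorem isRelPrime_map {k K σ : Type} [Field k] [Field K] [Algebra k K] [Finite σ]
    {F G : MvPolynomial σ k} (h : IsRelPrime F G) :
    IsRelPrime (map (algebraMap k K) F) (map (algebraMap k K) G) := by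
  intro W hF hG
  have hinj : Function.Injective (map (algebraMap k K) : MvPolynomial σ k →+* MvPolynomial σ K) :=
    map_injective _ (algebraMap k K).injective
  have hne : W ≠ 0 := by
    rintro rfl
    rw [zero_dvd_iff] at hF hG
    have hF0 : F = 0 := hinj (by rw [hF, map_zero])
    have hG0 : G = 0 := hinj (by rw [hG, map_zero])
    rw [hF0, hG0] at h
    exact not_isUnit_zero (h (dvd_refl 0) (dvd_refl 0))
  have h1 : ∀ j, W.degreeOf j = 0 := by
    intro j
    obtain ⟨U, V, D, hD, hD0, hDj⟩ := exists_elim h j
    have h2 : W ∣ map (algebraMap k K) D := by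
      rw [← hD, map_add, map_mul, map_mul]
      exact dvd_add (Dvd.dvd.mul_left hF _) (Dvd.dvd.mul_left hG _)
    refine degreeOf_eq_zero_of_dvd ?_ ?_ h2
    · intro h0
      exact hD0 (hinj (by rw [h0, map_zero]))
    · rw [degreeOf_eq_sup, support_map_of_injective _ (algebraMap k K).injective,
        ← degreeOf_eq_sup]
      exact hDj
  obtain ⟨c, rfl⟩ := eq_C_of_degreeOf_eq_zero h1
  have hc : c ≠ 0 := by
    rintro rfl
    exact hne C_0
  exact (isUnit_iff_ne_zero.2 hc).map C

/-- A divisor with nonzero constant term of a nonzero homogeneous polynomial is constant. -/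
theorem eq_C_of_dvd_homogeneous {k σ : Type} [Field k] {W f : MvPolynomial σ k} {d : ℕ}
    (hf : f.IsHomogeneous d) (hf0 : f ≠ 0) (hW : W ∣ f) (h0 : constantCoeff W ≠ 0) :
    ∃ c, W = C c := by
  classical
  let θ : MvPolynomial σ k →+* Polynomial (MvPolynomial σ k) :=
    (MvPolynomial.aeval (R := k) (fun i => Polynomial.C (X i) * Polynomial.X)).toRingHom
  have hθ : ∀ p, θ p = MvPolynomial.aeval (R := k)
      (fun i => (Polynomial.C (X i) * Polynomial.X : Polynomial (MvPolynomial σ k))) p :=
    fun p => rfl
  have h1 : θ f = Polynomial.C f * Polynomial.X ^ d := by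
    rw [hθ, f.as_sum, map_sum, map_sum, Finset.sum_mul]
    refine Finset.sum_congr rfl fun m hm => ?_
    rw [aeval_monomial, Finsupp.prod]
    have hd := hf (mem_support_iff.1 hm)
    have h2 : ∀ i, (Polynomial.C (X i : MvPolynomial σ k) * Polynomial.X) ^ m i =
        Polynomial.C (X i ^ m i) * Polynomial.X ^ m i := by
      intro i
      rw [mul_pow, Polynomial.C_pow]
    simp_rw [h2]
    rw [Finset.prod_mul_distrib, Finset.prod_pow_eq_pow_sum]
    have h3 : ∑ i ∈ m.support, m i = d := by
      rw [← hd, Finsupp.weight_apply, Finsupp.sum]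
      simp
    rw [h3, ← mul_assoc]
    congr 1
    rw [monomial_eq, Finsupp.prod, Polynomial.C_mul, map_prod]
    rfl
  have h2 : ∀ p : MvPolynomial σ k, (θ p).eval 0 = C (constantCoeff p) := by
    intro p
    have : ((Polynomial.evalRingHom (0 : MvPolynomial σ k)).comp θ) =
        (C : k →+* MvPolynomial σ k).comp constantCoeff := by
      apply MvPolynomial.ringHom_ext
      · intro r
        simp [hθ, Polynomial.algebraMap_apply]
      · intro i
        simp [hθ]
    exact congrArg (fun φ : MvPolynomial σ k →+* MvPolynomial σ k => φ p) this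
  have h3 : ∀ p : MvPolynomial σ k, (θ p).eval 1 = p := by
    intro p
    have : ((Polynomial.evalRingHom (1 : MvPolynomial σ k)).comp θ) =
        RingHom.id (MvPolynomial σ k) := by
      apply MvPolynomial.ringHom_ext
      · intro r
        simp [hθ, Polynomial.algebraMap_apply]
      · intro i
        simp [hθ]
    exact congrArg (fun φ : MvPolynomial σ k →+* MvPolynomial σ k => φ p) this
  have h4 : ¬ Polynomial.X ∣ θ W := by
    intro h5
    obtain ⟨q, hq⟩ := h5
    have h6 := h2 W
    rw [hq, Polynomial.eval_mul, Polynomial.eval_X, zero_mul] at h6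
    exact h0 (C_injective σ k (h6.symm.trans C_0.symm))
  have h5 : ∀ n : ℕ, θ W ∣ Polynomial.C f * Polynomial.X ^ n → θ W ∣ Polynomial.C f := by
    intro n
    induction n with
    | zero => simp
    | succ n ih =>
      rintro ⟨q, hq⟩
      apply ih
      have h6 : Polynomial.X ∣ θ W * q := by
        rw [← hq, pow_succ, ← mul_assoc]
        exact dvd_mul_left _ _
      obtain ⟨q', rfl⟩ := (Polynomial.prime_X.dvd_or_dvd h6).resolve_left h4
      refine ⟨q', ?_⟩
      apply mul_right_cancel₀ (Polynomial.X_ne_zero (R := MvPolynomial σ k))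
      rw [mul_assoc, ← pow_succ, hq]
      ring
  have h6 : θ W ∣ Polynomial.C f := by
    apply h5 d
    rw [← h1]
    exact map_dvd θ hW
  have h7 := Polynomial.natDegree_le_of_dvd h6 (by rwa [Polynomial.C_ne_zero])
  rw [Polynomial.natDegree_C, Nat.le_zero] at h7
  rw [Polynomial.natDegree_eq_zero] at h7
  obtain ⟨x, hx⟩ := h7
  refine ⟨constantCoeff W, ?_⟩
  rw [← h2, ← hx, Polynomial.eval_C]
  have := h3 W
  rw [← hx, Polynomial.eval_C] at this
  exact this.symm

section LinAlg

open Module

variable {k V : Type} [Field k] [AddCommGroup V] [Module k V] [FiniteDimensional k V]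

theorem exists_submodule_ge (N : Submodule k V) (d : ℕ) (h : finrank k N + d ≤ finrank k V) :
    ∃ T : Submodule k V, N ≤ T ∧ finrank k T = finrank k N + d := by
  induction d with
  | zero => exact ⟨N, le_rfl, rfl⟩
  | succ d ih =>
    obtain ⟨T, hT, hd⟩ := ih (by omega)
    have hne : T ≠ ⊤ := by
      rintro rfl
      rw [finrank_top] at hd
      omega
    obtain ⟨x, hx⟩ : ∃ x, x ∉ T := by
      by_contra hcon
      push Not at hcon
      exact hne (by ext x; simp [hcon x])
    refine ⟨T ⊔ Submodule.span k {x}, hT.trans le_sup_left, ?_⟩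
    have hx0 : x ≠ 0 := by
      rintro rfl
      exact hx T.zero_mem
    have h1 := Submodule.finrank_sup_add_finrank_inf_eq T (Submodule.span k {x})
    rw [finrank_span_singleton hx0] at h1
    have h2 : T ⊓ Submodule.span k {x} = ⊥ := by
      rw [eq_bot_iff]
      rintro y ⟨hy1, hy2⟩
      obtain ⟨c, rfl⟩ := Submodule.mem_span_singleton.1 hy2
      by_cases hc : c = 0
      · simp [hc]
      · exfalso
        apply hx
        have := T.smul_mem c⁻¹ hy1
        rwa [smul_smul, inv_mul_cancel₀ hc, one_smul] at this
    rw [h2, finrank_bot] at h1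
    omega

theorem exists_adapted_basis (hn : 4 ≤ finrank k V) (p q r : V) :
    ∃ (m : ℕ) (e : Basis (Fin 3 ⊕ Fin (m + 1)) k V),
      p ∈ Submodule.span k (Set.range fun i => e (Sum.inl i)) ∧
      q ∈ Submodule.span k (Set.range fun i => e (Sum.inl i)) ∧
      r ∈ Submodule.span k (Set.range fun i => e (Sum.inl i)) := by
  classical
  have h1 : finrank k (Submodule.span k ({p, q, r} : Set V)) ≤ 3 := by
    have h2 := finrank_span_finset_le_card (R := k) ({p, q, r} : Finset V)
    have h3 : ({p, q, r} : Finset V).card ≤ 3 := Finset.card_le_three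
    have h4 : Submodule.span k ({p, q, r} : Set V) = Submodule.span k (({p, q, r} : Finset V) : Set V) := by
      simp
    rw [h4]
    exact h2.trans h3
  obtain ⟨T, hT, hd⟩ := exists_submodule_ge (Submodule.span k ({p, q, r} : Set V))
    (3 - finrank k (Submodule.span k ({p, q, r} : Set V))) (by omega)
  have hT3 : finrank k T = 3 := by omega
  obtain ⟨T', hT'⟩ := Submodule.exists_isCompl T
  have h5 := Submodule.finrank_add_eq_of_isCompl hT'
  have hT'1 : finrank k T' = (finrank k V - 4) + 1 := by omega
  let bT : Basis (Fin 3) k T := finBasisOfFinrankEq k T hT3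
  let bT' : Basis (Fin ((finrank k V - 4) + 1)) k T' := finBasisOfFinrankEq k T' hT'1
  let e : Basis (Fin 3 ⊕ Fin ((finrank k V - 4) + 1)) k V :=
    (bT.prod bT').map (Submodule.prodEquivOfIsCompl T T' hT')
  have he : ∀ i, e (Sum.inl i) = (bT i : V) := by
    intro i
    simp [e]
  have hspan : ∀ x ∈ T, x ∈ Submodule.span k (Set.range fun i => e (Sum.inl i)) := by
    intro x hx
    have h6 := bT.sum_repr ⟨x, hx⟩
    have h7 : x = ∑ i, bT.repr ⟨x, hx⟩ i • e (Sum.inl i) := by
      have := congrArg (Subtype.val) h6
      rw [Submodule.coe_sum] at this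
      refine this.symm.trans ?_
      refine Finset.sum_congr rfl fun i _ => ?_
      rw [he]
      rfl
    rw [h7]
    exact Submodule.sum_mem _ fun i _ => Submodule.smul_mem _ _ (Submodule.subset_span ⟨i, rfl⟩)
  refine ⟨_, e, hspan p (hT (Submodule.subset_span ?_)), hspan q (hT (Submodule.subset_span ?_)),
    hspan r (hT (Submodule.subset_span ?_))⟩
  · simp
  · simp
  · simp

end LinAlg

section Section

variable {k : Type} [Field k]

/-- substitution of linear forms given by vectors -/
noncomputable def lin {ι τ : Type} [Fintype ι] (w : ι → τ → k) (i : τ) : MvPolynomial ι k :=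
  ∑ j, C (w j i) * X j

theorem eval_lin {ι τ : Type} [Fintype ι] (w : ι → τ → k) (ρ : ι → k) (F : MvPolynomial τ k) :
    eval ρ (bind₁ (lin w) F) = eval (fun i => ∑ j, ρ j * w j i) F := by
  have : ((eval ρ).comp (bind₁ (lin w)).toRingHom) = eval (fun i => ∑ j, ρ j * w j i) := by
    apply MvPolynomial.ringHom_ext
    · intro c
      simp
    · intro i
      simp [lin, mul_comm]
  exact congrArg (fun φ : MvPolynomial τ k →+* k => φ F) this

theorem isHomogeneous_lin {ι τ : Type} [Fintype ι] (w : ι → τ → k) {F : MvPolynomial τ k} {d : ℕ}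
    (hF : F.IsHomogeneous d) : (bind₁ (lin w) F).IsHomogeneous d := by
  have h1 := hF.aeval (lin w) (n := 1) ?_
  · rw [one_mul] at h1
    exact h1
  · intro i
    exact IsHomogeneous.sum _ _ _ fun j _ => isHomogeneous_C_mul_X _ _

theorem degreeOf_bind₁_eq_zero {σ τ : Type} {D : MvPolynomial σ k} {j : σ} (hj : D.degreeOf j = 0)
    {s : σ → MvPolynomial τ k} {t : τ} (hs : ∀ i, i ≠ j → (s i).degreeOf t = 0) :
    (bind₁ s D).degreeOf t = 0 := by
  classical
  rw [D.as_sum, map_sum]
  refine Nat.le_zero.1 ((degreeOf_sum_le _ _ _).trans ?_)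
  refine Finset.sup_le fun m hm => ?_
  rw [bind₁_monomial]
  refine (degreeOf_C_mul_le _ _ _).trans ?_
  refine (degreeOf_prod_le _ _ _).trans ?_
  rw [Nat.le_zero, Finset.sum_eq_zero_iff]
  intro i hi
  have hij : i ≠ j := by
    rintro rfl
    have h1 := monomial_le_degreeOf i hm
    rw [hj, Nat.le_zero] at h1
    exact (Finsupp.mem_support_iff.1 hi) h1
  have := degreeOf_pow_le t (s i) (m i)
  rw [hs i hij, mul_zero] at this
  exact Nat.le_zero.1 this

theorem isRelPrime_of_inverse {σ τ : Type} {α : MvPolynomial σ k →ₐ[k] MvPolynomial τ k}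
    {β : MvPolynomial τ k →ₐ[k] MvPolynomial σ k} (h1 : ∀ x, β (α x) = x) (h2 : ∀ x, α (β x) = x)
    {F G : MvPolynomial σ k} (h : IsRelPrime F G) : IsRelPrime (α F) (α G) := by
  intro w hF hG
  have h3 := h (d := β w) (by have := map_dvd β hF; rwa [h1] at this)
    (by have := map_dvd β hG; rwa [h1] at this)
  have h4 := h3.map α
  rwa [h2] at h4

/-- Generic three dimensional linear sections through two given points stay coprime. -/
theorem exists_section [Infinite k] {n d : ℕ} (hn : 3 ≤ n)
    {F G : MvPolynomial (Fin (n + 1)) k} (hF : F.IsHomogeneous d) (hG : G.IsHomogeneous d)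
    (hFG : IsRelPrime F G) (p q : Fin (n + 1) → k) :
    ∃ w : Fin 4 → Fin (n + 1) → k, p ∈ Submodule.span k (Set.range w) ∧
      q ∈ Submodule.span k (Set.range w) ∧ LinearIndependent k w ∧
      IsRelPrime (bind₁ (fun i => ∑ j, C (w j i) * X j) F)
        (bind₁ (fun i => ∑ j, C (w j i) * X j) G) := by
  classical
  -- a point where `F` and `G` do not both vanish
  obtain ⟨r, hr⟩ : ∃ r, eval r F ≠ 0 ∨ eval r G ≠ 0 := by
    by_contra hcon
    push Not at hcon
    have hF0 : F = 0 := MvPolynomial.funext (fun x => by rw [(hcon x).1, map_zero])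
    have hG0 : G = 0 := MvPolynomial.funext (fun x => by rw [(hcon x).2, map_zero])
    rw [hF0, hG0] at hFG
    exact not_isUnit_zero (hFG (dvd_refl 0) (dvd_refl 0))
  obtain ⟨m, e, hp, hq, hr'⟩ := exists_adapted_basis (k := k) (V := Fin (n + 1) → k)
    (by rw [Module.finrank_fin_fun]; omega) p q r
  -- change of coordinates
  let f : Fin (n + 1) → (Fin 3 ⊕ Fin (m + 1)) → k := fun i j => e.repr (Pi.single i 1) j
  have hfe : ∀ x, bind₁ (lin f) (bind₁ (lin fun j => e j) x) = x := by
    intro x
    have h1 : ∀ i, bind₁ (lin f) (lin (fun j => e j) i) = X i := by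
      intro i
      simp only [lin, map_sum, map_mul, bind₁_X_right, algHom_C, Finset.mul_sum]
      rw [Finset.sum_comm]
      have h2 : ∀ l : Fin (n + 1), (∑ j, algebraMap k (MvPolynomial (Fin (n + 1)) k) (e j i) *
          (C (f l j) * X l)) = C ((Pi.single l 1 : Fin (n + 1) → k) i) * X l := by
        intro l
        have h3 := congrFun (e.sum_repr (Pi.single l 1)) i
        rw [Finset.sum_apply] at h3
        rw [← h3, map_sum, Finset.sum_mul]
        refine Finset.sum_congr rfl fun j _ => ?_
        rw [Pi.smul_apply, smul_eq_mul, map_mul, algebraMap_eq]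
        ring
      rw [Finset.sum_congr rfl fun l _ => h2 l, Finset.sum_eq_single i]
      · simp
      · intro l _ hl
        rw [Pi.single_eq_of_ne (Ne.symm hl)]
        simp
      · simp
    rw [bind₁_bind₁]
    have h2 : (fun i => bind₁ (lin f) (lin (fun j => e j) i)) = X := _root_.funext h1
    rw [h2, bind₁_X_left]
    rfl
  have hef : ∀ x, bind₁ (lin fun j => e j) (bind₁ (lin f) x) = x := by
    intro x
    have h1 : ∀ i, bind₁ (lin fun j => e j) (lin f i) = X i := by
      intro i
      simp only [lin, map_sum, map_mul, bind₁_X_right, algHom_C, Finset.mul_sum]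
      rw [Finset.sum_comm]
      have h2 : ∀ l : Fin 3 ⊕ Fin (m + 1),
          (∑ j, algebraMap k (MvPolynomial (Fin 3 ⊕ Fin (m + 1)) k) (f j i) *
          (C (e l j) * X l)) = C (e.repr (e l) i) * X l := by
        intro l
        have h3 : e l = ∑ j, e l j • (Pi.single j 1 : Fin (n + 1) → k) := by
          ext t
          rw [Finset.sum_apply]
          simp [Pi.single_apply]
        have h4 : e.repr (e l) i = ∑ j, e l j * f j i := by
          conv_lhs => rw [h3]
          rw [map_sum, Finsupp.finsetSum_apply]
          refine Finset.sum_congr rfl fun j _ => ?_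
          rw [map_smul, Finsupp.smul_apply, smul_eq_mul]
        rw [h4, map_sum, Finset.sum_mul]
        refine Finset.sum_congr rfl fun j _ => ?_
        rw [map_mul, algebraMap_eq]
        ring
      rw [Finset.sum_congr rfl fun l _ => h2 l, Finset.sum_eq_single i]
      · simp
      · intro l _ hl
        rw [Module.Basis.repr_self, Finsupp.single_eq_of_ne (Ne.symm hl)]
        simp
      · simp
    rw [bind₁_bind₁]
    have h2 : (fun i => bind₁ (lin fun j => e j) (lin f i)) = X := _root_.funext h1
    rw [h2, bind₁_X_left]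
    rfl
  have hcop : IsRelPrime (bind₁ (lin fun j => e j) F) (bind₁ (lin fun j => e j) G) :=
    isRelPrime_of_inverse hfe hef hFG
  -- certificates
  have hcert := fun l : Fin 3 => exists_elim hcop (Sum.inl l)
  choose U V D hD hD0 hDj using hcert
  obtain ⟨v, hv⟩ : ∃ v, eval v ((∏ l, D l) * X (Sum.inr 0)) ≠ 0 := by
    by_contra hcon
    push Not at hcon
    have h1 : (∏ l, D l) * X (Sum.inr 0) = 0 := MvPolynomial.funext
      (fun x => by rw [hcon x, map_zero])
    refine mul_ne_zero (Finset.prod_ne_zero_iff.2 fun l _ => hD0 l) (X_ne_zero _) h1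
  rw [map_mul, map_prod, eval_X] at hv
  have hv1 : ∀ l, eval v (D l) ≠ 0 := fun l =>
    Finset.prod_ne_zero_iff.1 (left_ne_zero_of_mul hv) l (Finset.mem_univ l)
  have hv2 : v (Sum.inr 0) ≠ 0 := right_ne_zero_of_mul hv
  let w : Fin 4 → Fin (n + 1) → k := Fin.snoc (fun l : Fin 3 => e (Sum.inl l)) (∑ j, v j • e j)
  have hw1 : ∀ l : Fin 3, w l.castSucc = e (Sum.inl l) := fun l => by
    simp only [w]
    exact Fin.snoc_castSucc (α := fun _ => Fin (n + 1) → k) _ _ l
  have hw2 : w (Fin.last 3) = ∑ j, v j • e j := by
    simp only [w]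
    exact Fin.snoc_last (α := fun _ => Fin (n + 1) → k) _ _
  have hsub : Submodule.span k (Set.range fun i => e (Sum.inl i)) ≤
      Submodule.span k (Set.range w) := by
    apply Submodule.span_mono
    rintro _ ⟨l, rfl⟩
    exact ⟨l.castSucc, hw1 l⟩
  refine ⟨w, hsub hp, hsub hq, ?_, ?_⟩
  · simp only [w]
    rw [linearIndependent_finSnoc]
    constructor
    · exact e.linearIndependent.comp _ Sum.inl_injective
    · intro hmem
      have h1 : Submodule.span k (Set.range fun i => e (Sum.inl i)) ≤
          LinearMap.ker (e.coord (Sum.inr 0)) := by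
        rw [Submodule.span_le]
        rintro _ ⟨l, rfl⟩
        simp
      have h2 := h1 hmem
      rw [LinearMap.mem_ker, map_sum] at h2
      apply hv2
      rw [← h2, Finset.sum_eq_single (Sum.inr 0)]
      · simp
      · intro j _ hj
        rw [map_smul, Module.Basis.coord_apply, Module.Basis.repr_self,
          Finsupp.single_eq_of_ne (Ne.symm hj), smul_zero]
      · simp
  · let s : Fin 3 ⊕ Fin (m + 1) → MvPolynomial (Fin 4) k := fun j =>
      Sum.elim (fun l : Fin 3 => X l.castSucc) (fun _ => 0) j + C (v j) * X (Fin.last 3)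
    have hs : ∀ H, bind₁ s (bind₁ (lin fun j => e j) H) = bind₁ (lin w) H := by
      intro H
      rw [bind₁_bind₁]
      have h1 : (fun i => bind₁ s (lin (fun j => e j) i)) = lin w := by
        funext i
        simp only [lin, map_sum, map_mul, bind₁_X_right, algHom_C]
        rw [Fin.sum_univ_castSucc (fun j => C (w j i) * X j), hw2]
        have h2 : ∀ j, algebraMap k (MvPolynomial (Fin 4) k) (e j i) * s j =
            C (e j i) * Sum.elim (fun l : Fin 3 => X l.castSucc) (fun _ => 0) j +
            C (v j * e j i) * X (Fin.last 3) := by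
          intro j
          simp only [s, algebraMap_eq, map_mul]
          ring
        rw [Finset.sum_congr rfl fun j _ => h2 j, Finset.sum_add_distrib]
        congr 1
        · rw [Fintype.sum_sum_type]
          simp only [Sum.elim_inl, Sum.elim_inr, mul_zero, Finset.sum_const_zero, add_zero]
          refine Finset.sum_congr rfl fun l _ => ?_
          rw [hw1]
        · rw [← Finset.sum_mul, Finset.sum_apply, map_sum]
          rfl
      rw [h1]
    have hcoe : ∀ H : MvPolynomial (Fin (n + 1)) k,
        bind₁ (fun i => ∑ j, C (w j i) * X j) H = bind₁ (lin w) H := fun H => rfl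
    rw [hcoe, hcoe]
    intro W hWF hWG
    have hW0 : ∀ l : Fin 3, W.degreeOf l.castSucc = 0 := by
      intro l
      have h1 : W ∣ bind₁ s (D l) := by
        rw [← hD l, map_add, map_mul, map_mul, hs, hs]
        exact dvd_add (Dvd.dvd.mul_left hWF _) (Dvd.dvd.mul_left hWG _)
      refine degreeOf_eq_zero_of_dvd ?_ ?_ h1
      · intro h2
        apply hv1 l
        have h3 : eval (Pi.single (Fin.last 3) 1) (bind₁ s (D l)) = eval v (D l) := by
          have : ((eval (Pi.single (Fin.last 3) (1 : k))).comp (bind₁ s).toRingHom) = eval v := by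
            apply MvPolynomial.ringHom_ext
            · intro c
              simp
            · intro i
              rcases i with i | i
              · have h4 : (Pi.single (Fin.last 3) (1 : k) : Fin 4 → k) i.castSucc = 0 :=
                  Pi.single_eq_of_ne (Fin.castSucc_ne_last i) _
                simp [s]
                exact h4
              · simp [s]
          exact congrArg (fun φ : MvPolynomial (Fin 3 ⊕ Fin (m + 1)) k →+* k => φ (D l)) this
        rw [← h3, h2, map_zero]
      · refine degreeOf_bind₁_eq_zero (hDj l) ?_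
        intro i hi
        have h2 : degreeOf l.castSucc (C (v i) * X (Fin.last 3) : MvPolynomial (Fin 4) k) = 0 := by
          refine Nat.le_zero.1 ((degreeOf_C_mul_le _ _ _).trans ?_)
          rw [degreeOf_X, if_neg]
          exact Fin.castSucc_ne_last l
        refine Nat.le_zero.1 ((degreeOf_add_le _ _ _).trans ?_)
        rw [h2, max_le_iff]
        refine ⟨?_, le_rfl⟩
        rcases i with i | i
        · simp only [Sum.elim_inl]
          rw [degreeOf_X, if_neg]
          intro h3
          apply hi
          rw [Fin.castSucc_injective 3 h3]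
        · simp
    obtain ⟨ρ', hρ'⟩ := (Submodule.mem_span_range_iff_exists_fun k).1 hr'
    let ρ : Fin 4 → k := Fin.snoc ρ' 0
    have hρ1 : ∀ l : Fin 3, ρ l.castSucc = ρ' l := fun l => by
      simp only [ρ]
      exact Fin.snoc_castSucc (α := fun _ => k) _ _ l
    have hρ2 : ρ (Fin.last 3) = 0 := by
      simp only [ρ]
      exact Fin.snoc_last (α := fun _ => k) _ _
    have hev : ∀ H, eval ρ (bind₁ (lin w) H) = eval r H := by
      intro H
      rw [eval_lin]
      congr 2
      rw [← hρ']
      funext i
      rw [Fin.sum_univ_castSucc, hρ2, zero_mul, add_zero, Finset.sum_apply]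
      refine Finset.sum_congr rfl fun l _ => ?_
      rw [hρ1, hw1]
      rfl
    have key : ∀ b ∈ W.support, b ≠ 0 → ∏ i ∈ b.support, ρ i ^ b i = 0 := by
      intro b hb hb0
      have h1 : ∀ l : Fin 3, b l.castSucc = 0 := by
        intro l
        have := monomial_le_degreeOf l.castSucc hb
        rw [hW0 l] at this
        exact Nat.le_zero.1 this
      have h2 : b (Fin.last 3) ≠ 0 := by
        intro h2
        apply hb0
        ext i
        refine Fin.lastCases ?_ (fun l => ?_) i
        · rw [h2]
          rfl
        · rw [h1 l]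
          rfl
      refine Finset.prod_eq_zero (Finsupp.mem_support_iff.2 h2) ?_
      rw [hρ2, zero_pow h2]
    have hWev : eval ρ W = constantCoeff W := by
      rw [eval_eq, constantCoeff_eq]
      rw [Finset.sum_eq_single 0]
      · simp
      · intro b hb hb0
        rw [key b hb hb0, mul_zero]
      · intro h1
        rw [notMem_support_iff.1 h1, zero_mul]
    have hfin : ∀ H : MvPolynomial (Fin (n + 1)) k, H.IsHomogeneous d → eval r H ≠ 0 →
        W ∣ bind₁ (lin w) H → IsUnit W := by
      intro H hH hrH hWH
      have h1 : eval ρ W ≠ 0 := by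
        obtain ⟨q', hq'⟩ := hWH
        rw [← hev, hq', map_mul] at hrH
        exact left_ne_zero_of_mul hrH
      have h2 : bind₁ (lin w) H ≠ 0 := by
        intro h2
        rw [← hev, h2, map_zero] at hrH
        exact hrH rfl
      rw [hWev] at h1
      obtain ⟨c, rfl⟩ := eq_C_of_dvd_homogeneous (isHomogeneous_lin w hH) h2 hWH h1
      rw [constantCoeff_C] at h1
      exact (isUnit_iff_ne_zero.2 h1).map C
    rcases hr with hr | hr
    · exact hfin F hF hr hWF
    · exact hfin G hG hr hWG

end Section

end Pool.Agent.Helper98.BBCoprime
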