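import Pool.Agent.Helper28.JM.Defs

/-!
# JM-PROP: a relation involving the big rectangle of the bottom block (MP_c39200_al)
-/

set_option autoImplicit false

namespace Pool.Agent.Helper98.JM

open MvPolynomial Pool.Agent.Helper28.JM

/-- `y_R ↦ f_R` except for one rectangle, whose variable is kept. -/
noncomputable def psi (K : Type*) [Field K] (R0 : Pt × Pt) :
    MvPolynomial (Pt × Pt) K →ₐ[K] Polynomial (MvPolynomial Pt K) :=
  aeval fun R => if R = R0 then Polynomial.X else Polynomial.C (fR K R)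

section alg

variable (K : Type*) [Field K] (Λ : Set Pt) (R0 : Pt × Pt)

/-- the algebra generated by the other binomials -/
noncomputable def AA : Subalgebra K (MvPolynomial Pt K) :=
  (supported K (Mn Λ \ {R0})).map (phi K)

variable {K Λ R0}

lemma fR_mem {R : Pt × Pt} (hR : R ∈ Mn Λ) (h0 : R ≠ R0) : fR K R ∈ AA K Λ R0 := by
  refine Subalgebra.mem_map.mpr ⟨X R, X_mem_supported.mpr ⟨hR, h0⟩, ?_⟩
  simp [phi]

lemma fR_ne_zero {R : Pt × Pt} (h1 : R.1.1 < R.2.1) (h2 : R.1.2 < R.2.2) : fR K R ≠ 0 := by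
  intro h
  have h3 := congrArg (MvPolynomial.eval fun u : Pt =>
    if u = (R.1.1, R.2.2) ∨ u = (R.2.1, R.1.2) then (1 : K) else 0) h
  have e1 : ¬ (R.1 = (R.1.1, R.2.2) ∨ R.1 = (R.2.1, R.1.2)) := by
    rintro (e | e)
    · have := congrArg Prod.snd e
      simp only at this
      omega
    · have := congrArg Prod.fst e
      simp only at this
      omega
  simp [fR, e1] at h3

variable (K Λ R0) in
/-- the elements that come into the algebra after multiplication by `Dt * Z` -/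
def MM (Dt : MvPolynomial Pt K) : Set (MvPolynomial Pt K) :=
  {s | ∃ Z ∈ AA K Λ R0, Z ≠ 0 ∧ Dt * Z * s ∈ AA K Λ R0}

lemma MM_step {Dt a0 a1 a2 f12 f02 f01 : MvPolynomial Pt K}
    (h : a0 * f12 - a1 * f02 + a2 * f01 = 0) (h12 : f12 ∈ AA K Λ R0) (h02 : f02 ∈ AA K Λ R0)
    (h01 : f01 ∈ AA K Λ R0) (h0 : f12 ≠ 0) (h1 : a1 ∈ MM K Λ R0 Dt) (h2 : a2 ∈ MM K Λ R0 Dt) :
    a0 ∈ MM K Λ R0 Dt := by
  obtain ⟨Z1, hZ1, hZ10, hm1⟩ := h1
  obtain ⟨Z2, hZ2, hZ20, hm2⟩ := h2
  refine ⟨Z1 * Z2 * f12, mul_mem (mul_mem hZ1 hZ2) h12, mul_ne_zero (mul_ne_zero hZ10 hZ20) h0, ?_⟩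
  have e : Dt * (Z1 * Z2 * f12) * a0 =
      Dt * Z1 * a1 * (Z2 * f02) - Dt * Z2 * a2 * (Z1 * f01) := by
    linear_combination (Dt * Z1 * Z2) * h
  rw [e]
  exact sub_mem (mul_mem hm1 (mul_mem hZ2 h02)) (mul_mem hm2 (mul_mem hZ1 h01))

lemma fR_memr {i i' j j' : ℤ} (hR0 : R0.2.2 = R0.1.2 + 2) (h1 : i < i') (h2 : j < j')
    (h3 : (i, j') ∈ Λ) (h4 : (i', j) ∈ Λ) (h : j' ≠ j + 2) : fR K ((i, j), (i', j')) ∈ AA K Λ R0 := by
  refine fR_mem ⟨h1, h2, h3, h4⟩ ?_
  rintro rfl
  exact h hR0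

lemma fR_memc {i i' j j' : ℤ} (hR0 : R0.2.1 = R0.1.1 + 2) (h1 : i < i') (h2 : j < j')
    (h3 : (i, j') ∈ Λ) (h4 : (i', j) ∈ Λ) (h : i' ≠ i + 2) : fR K ((i, j), (i', j')) ∈ AA K Λ R0 := by
  refine fR_mem ⟨h1, h2, h3, h4⟩ ?_
  rintro rfl
  exact h hR0

/-- row version -/
lemma MM_row {Dt : MvPolynomial Pt K} {i j j' : ℤ} (hj : j' = j + 1 ∨ j' = j - 1)
    (hR0 : R0.2.2 = R0.1.2 + 2)
    (hL : ∀ s, i ≤ s → s ≤ i + 2 → (s, j) ∈ Λ ∧ (s, j') ∈ Λ)
    (h1 : X (i + 1, j) ∈ MM K Λ R0 Dt) (h2 : X (i + 2, j) ∈ MM K Λ R0 Dt) :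
    X (i, j) ∈ MM K Λ R0 Dt := by
  have l0 := hL i (by omega) (by omega)
  have l1 := hL (i + 1) (by omega) (by omega)
  have l2 := hL (i + 2) (by omega) (by omega)
  rcases hj with rfl | rfl
  · refine MM_step (f12 := fR K ((i + 1, j), (i + 2, j + 1))) (f02 := fR K ((i, j), (i + 2, j + 1)))
      (f01 := fR K ((i, j), (i + 1, j + 1))) ?_ ?_ ?_ ?_ ?_ h1 h2
    · simp only [fR]; ring
    · exact fR_memr hR0 (by omega) (by omega) l1.2 l2.1 (by omega)
    · exact fR_memr hR0 (by omega) (by omega) l0.2 l2.1 (by omega)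
    · exact fR_memr hR0 (by omega) (by omega) l0.2 l1.1 (by omega)
    · exact fR_ne_zero (by simp) (by simp)
  · refine MM_step (f12 := fR K ((i + 1, j - 1), (i + 2, j))) (f02 := fR K ((i, j - 1), (i + 2, j)))
      (f01 := fR K ((i, j - 1), (i + 1, j))) ?_ ?_ ?_ ?_ ?_ h1 h2
    · simp only [fR]; ring
    · exact fR_memr hR0 (by omega) (by omega) l1.1 l2.2 (by omega)
    · exact fR_memr hR0 (by omega) (by omega) l0.1 l2.2 (by omega)
    · exact fR_memr hR0 (by omega) (by omega) l0.1 l1.2 (by omega)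
    · exact fR_ne_zero (by simp) (by simp)

/-- column version -/
lemma MM_col {Dt : MvPolynomial Pt K} {i i' j : ℤ} (hi : i' = i + 1 ∨ i' = i - 1)
    (hR0 : R0.2.1 = R0.1.1 + 2)
    (hL : ∀ t, j ≤ t → t ≤ j + 2 → (i, t) ∈ Λ ∧ (i', t) ∈ Λ)
    (h1 : X (i, j + 1) ∈ MM K Λ R0 Dt) (h2 : X (i, j + 2) ∈ MM K Λ R0 Dt) :
    X (i, j) ∈ MM K Λ R0 Dt := by
  have l0 := hL j (by omega) (by omega)
  have l1 := hL (j + 1) (by omega) (by omega)
  have l2 := hL (j + 2) (by omega) (by omega)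
  rcases hi with rfl | rfl
  · refine MM_step (f12 := fR K ((i, j + 1), (i + 1, j + 2))) (f02 := fR K ((i, j), (i + 1, j + 2)))
      (f01 := fR K ((i, j), (i + 1, j + 1))) ?_ ?_ ?_ ?_ ?_ h1 h2
    · simp only [fR]; ring
    · exact fR_memc hR0 (by omega) (by omega) l2.1 l1.2 (by omega)
    · exact fR_memc hR0 (by omega) (by omega) l2.1 l0.2 (by omega)
    · exact fR_memc hR0 (by omega) (by omega) l1.1 l0.2 (by omega)
    · exact fR_ne_zero (by simp) (by simp)
  · refine MM_step (f12 := fR K ((i - 1, j + 1), (i, j + 2))) (f02 := fR K ((i - 1, j), (i, j + 2)))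
      (f01 := fR K ((i - 1, j), (i, j + 1))) ?_ ?_ ?_ ?_ ?_ h1 h2
    · simp only [fR]; ring
    · exact fR_memc hR0 (by omega) (by omega) l2.2 l1.1 (by omega)
    · exact fR_memc hR0 (by omega) (by omega) l2.2 l0.1 (by omega)
    · exact fR_memc hR0 (by omega) (by omega) l1.2 l0.1 (by omega)
    · exact fR_ne_zero (by simp) (by simp)

/-- elements of the supported subalgebra -/
lemma psi_eq {q : MvPolynomial (Pt × Pt) K} (hq : q ∈ supported K (Mn Λ \ {R0})) :
    psi K R0 q = Polynomial.C (phi K q) := by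
  have h : supported K (Mn Λ \ {R0}) ≤
      AlgHom.equalizer (psi K R0) ((Polynomial.CAlgHom (R := K)).comp (phi K)) := by
    rw [supported]
    refine Algebra.adjoin_le ?_
    rintro _ ⟨R, hR, rfl⟩
    have h0 : R ≠ R0 := hR.2
    rw [SetLike.mem_coe, AlgHom.mem_equalizer]
    simp [psi, phi, h0]
  exact h hq

end alg

section block

lemma mem_of_eq {R : Type*} [CommRing R] {F : Type*} [Field F] [Algebra F R]
    {S : Subalgebra F R} {a b : R} (h : a = b) (hb : b ∈ S) : a ∈ S := by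
  rw [h]; exact hb

/-- a `3 × 3` determinant -/
def det3 {R : Type*} [CommRing R] (a b c d e f g h k : R) : R :=
  a * (e * k - f * h) - b * (d * k - f * g) + c * (d * h - e * g)

lemma mul_det3_mem {R : Type*} [CommRing R] {F : Type*} [Field F] [Algebra F R]
    (S : Subalgebra F R) (x : ℤ → ℤ → R)
    (hS : ∀ i₁ i₂ j₁ j₂ : ℤ, 0 ≤ i₁ → i₁ < i₂ → i₂ ≤ 2 → 0 ≤ j₁ → j₁ < j₂ → j₂ ≤ 2 →
      x i₁ j₁ * x i₂ j₂ - x i₁ j₂ * x i₂ j₁ ∈ S) (i j : ℤ) (hi : 0 ≤ i) (hi' : i ≤ 2) (hj : 0 ≤ j)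
    (hj' : j ≤ 2) : det3 (x 0 0) (x 0 1) (x 0 2) (x 1 0) (x 1 1) (x 1 2) (x 2 0) (x 2 1) (x 2 2) *
      x i j ∈ S := by
  have m0101 := hS 0 1 0 1 (by norm_num) (by norm_num) (by norm_num) (by norm_num) (by norm_num) (by norm_num)
  have m0102 := hS 0 1 0 2 (by norm_num) (by norm_num) (by norm_num) (by norm_num) (by norm_num) (by norm_num)
  have m0112 := hS 0 1 1 2 (by norm_num) (by norm_num) (by norm_num) (by norm_num) (by norm_num) (by norm_num)
  have m0201 := hS 0 2 0 1 (by norm_num) (by norm_num) (by norm_num) (by norm_num) (by norm_num) (by norm_num)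
  have m0202 := hS 0 2 0 2 (by norm_num) (by norm_num) (by norm_num) (by norm_num) (by norm_num) (by norm_num)
  have m0212 := hS 0 2 1 2 (by norm_num) (by norm_num) (by norm_num) (by norm_num) (by norm_num) (by norm_num)
  have m1201 := hS 1 2 0 1 (by norm_num) (by norm_num) (by norm_num) (by norm_num) (by norm_num) (by norm_num)
  have m1202 := hS 1 2 0 2 (by norm_num) (by norm_num) (by norm_num) (by norm_num) (by norm_num) (by norm_num)
  have m1212 := hS 1 2 1 2 (by norm_num) (by norm_num) (by norm_num) (by norm_num) (by norm_num) (by norm_num)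
  unfold det3
  interval_cases i <;> interval_cases j
  · refine mem_of_eq ?_ (sub_mem (mul_mem m0101 m0202) (mul_mem m0102 m0201)); ring
  · refine mem_of_eq ?_ (sub_mem (mul_mem m0101 m0212) (mul_mem m0112 m0201)); ring
  · refine mem_of_eq ?_ (sub_mem (mul_mem m0102 m0212) (mul_mem m0112 m0202)); ring
  · refine mem_of_eq ?_ (sub_mem (mul_mem m0101 m1202) (mul_mem m0102 m1201)); ring
  · refine mem_of_eq ?_ (sub_mem (mul_mem m0101 m1212) (mul_mem m0112 m1201)); ring
  · refine mem_of_eq ?_ (sub_mem (mul_mem m0102 m1212) (mul_mem m0112 m1202)); ring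
  · refine mem_of_eq ?_ (sub_mem (mul_mem m0201 m1202) (mul_mem m0202 m1201)); ring
  · refine mem_of_eq ?_ (sub_mem (mul_mem m0201 m1212) (mul_mem m0212 m1201)); ring
  · refine mem_of_eq ?_ (sub_mem (mul_mem m0202 m1212) (mul_mem m0212 m1202)); ring

end block

section comb

variable {Λ : Set Pt} {bot top : Pt}

/-- the line step -/
lemma line (hR : Reg Λ bot top) {x : Pt} (hx : x ∈ Λ) (hb : x ≠ bot)
    (hlev : x.1 + x.2 + 3 ≤ top.1 + top.2) :
    (∃ j' : ℤ, (j' = x.2 + 1 ∨ j' = x.2 - 1) ∧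
      ∀ s, x.1 ≤ s → s ≤ x.1 + 2 → (s, x.2) ∈ Λ ∧ (s, j') ∈ Λ) ∨
    (∃ i' : ℤ, (i' = x.1 + 1 ∨ i' = x.1 - 1) ∧
      ∀ t, x.2 ≤ t → t ≤ x.2 + 2 → (x.1, t) ∈ Λ ∧ (i', t) ∈ Λ) := by
  obtain ⟨i, j⟩ := x
  obtain ⟨p, q⟩ := top
  obtain ⟨b, c⟩ := bot
  simp only at hlev ⊢
  have hbx : b ≤ i ∧ c ≤ j := by
    have := hR.bot_le _ hx
    exact ⟨this.1, this.2⟩
  have hne : ∀ s t : ℤ, b ≤ s → c ≤ t → b + c < s + t → s + t < p + q →
      ((s, t) : Pt) ≠ (b, c) ∧ ((s, t) : Pt) ≠ (p, q) := by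
    intro s t _ _ h3 h4
    refine ⟨fun h => ?_, fun h => ?_⟩
    · rw [Prod.mk.injEq] at h; omega
    · rw [Prod.mk.injEq] at h; omega
  have hbc : b + c < i + j := by
    rcases lt_or_eq_of_le hbx.1 with h | h
    · omega
    rcases lt_or_eq_of_le hbx.2 with h' | h'
    · omega
    exact absurd (by rw [h, h']) hb
  rcases hR.simple _ hx hb (hne i j hbx.1 hbx.2 hbc (by omega)).2 with h | h
  · -- left element
    simp only at h
    have hcj := (hR.bot_le _ h).2
    simp only at hcj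
    have h10 : (i + 1, j) ∈ Λ := hR.rect i (i + 1) (j - 1) j _ _ hx h (by omega) le_rfl (by omega) le_rfl
    by_cases h20 : (i + 2, j) ∈ Λ
    · by_cases h2m : (i + 2, j - 1) ∈ Λ
      · left
        refine ⟨j - 1, Or.inr rfl, fun s hs hs' => ⟨?_, ?_⟩⟩
        · exact hR.rect i (i + 2) (j - 1) j _ _ hx h2m hs hs' (by omega) le_rfl
        · exact hR.rect i (i + 2) (j - 1) j _ _ hx h2m hs hs' le_rfl (by omega)
      · rcases hR.simple _ h10 (hne _ _ (by omega) (by omega) (by omega) (by omega)).1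
          (hne _ _ (by omega) (by omega) (by omega) (by omega)).2 with h' | h'
        · simp only at h'
          rw [show i + 1 + 1 = i + 2 by ring] at h'
          exact absurd h' h2m
        · simp only at h'
          rw [show i + 1 - 1 = i by ring] at h'
          left
          refine ⟨j + 1, Or.inl rfl, fun s hs hs' => ⟨?_, ?_⟩⟩
          · exact hR.rect i (i + 2) j (j + 1) _ _ h' h20 hs hs' le_rfl (by omega)
          · exact hR.rect i (i + 2) j (j + 1) _ _ h' h20 hs hs' (by omega) le_rfl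
    · have h11 : (i + 1, j + 1) ∈ Λ := by
        rcases hR.up _ h10 (hne _ _ (by omega) (by omega) (by omega) (by omega)).2 with h' | h'
        · simp only at h'
          rw [show i + 1 + 1 = i + 2 by ring] at h'
          exact absurd h' h20
        · exact h'
      rcases hR.simple _ h11 (hne _ _ (by omega) (by omega) (by omega) (by omega)).1
          (hne _ _ (by omega) (by omega) (by omega) (by omega)).2 with h' | h'
      · simp only at h'
        rw [show i + 1 + 1 = i + 2 by ring, show j + 1 - 1 = j by ring] at h'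
        exact absurd h' h20
      · simp only at h'
        rw [show i + 1 - 1 = i by ring, show j + 1 + 1 = j + 2 by ring] at h'
        right
        refine ⟨i + 1, Or.inl rfl, fun t ht ht' => ⟨?_, ?_⟩⟩
        · exact hR.rect i (i + 1) j (j + 2) _ _ h' h10 le_rfl (by omega) ht ht'
        · exact hR.rect i (i + 1) j (j + 2) _ _ h' h10 (by omega) le_rfl ht ht'
  · -- right element
    simp only at h
    have hbi := (hR.bot_le _ h).1
    simp only at hbi
    have h01 : (i, j + 1) ∈ Λ := hR.rect (i - 1) i j (j + 1) _ _ h hx (by omega) le_rfl (by omega) le_rfl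
    by_cases h02 : (i, j + 2) ∈ Λ
    · by_cases hm2 : (i - 1, j + 2) ∈ Λ
      · right
        refine ⟨i - 1, Or.inr rfl, fun t ht ht' => ⟨?_, ?_⟩⟩
        · exact hR.rect (i - 1) i j (j + 2) _ _ hm2 hx (by omega) le_rfl ht ht'
        · exact hR.rect (i - 1) i j (j + 2) _ _ hm2 hx le_rfl (by omega) ht ht'
      · rcases hR.simple _ h01 (hne _ _ (by omega) (by omega) (by omega) (by omega)).1
          (hne _ _ (by omega) (by omega) (by omega) (by omega)).2 with h' | h'
        · simp only at h'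
          rw [show j + 1 - 1 = j by ring] at h'
          right
          refine ⟨i + 1, Or.inl rfl, fun t ht ht' => ⟨?_, ?_⟩⟩
          · exact hR.rect i (i + 1) j (j + 2) _ _ h02 h' le_rfl (by omega) ht ht'
          · exact hR.rect i (i + 1) j (j + 2) _ _ h02 h' (by omega) le_rfl ht ht'
        · simp only at h'
          rw [show j + 1 + 1 = j + 2 by ring] at h'
          exact absurd h' hm2
    · have h11 : (i + 1, j + 1) ∈ Λ := by
        rcases hR.up _ h01 (hne _ _ (by omega) (by omega) (by omega) (by omega)).2 with h' | h'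
        · exact h'
        · simp only at h'
          rw [show j + 1 + 1 = j + 2 by ring] at h'
          exact absurd h' h02
      rcases hR.simple _ h11 (hne _ _ (by omega) (by omega) (by omega) (by omega)).1
          (hne _ _ (by omega) (by omega) (by omega) (by omega)).2 with h' | h'
      · simp only at h'
        rw [show i + 1 + 1 = i + 2 by ring, show j + 1 - 1 = j by ring] at h'
        left
        refine ⟨j + 1, Or.inl rfl, fun s hs hs' => ⟨?_, ?_⟩⟩
        · exact hR.rect i (i + 2) j (j + 1) _ _ h01 h' hs hs' le_rfl (by omega)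
        · exact hR.rect i (i + 2) j (j + 1) _ _ h01 h' hs hs' (by omega) le_rfl
      · simp only at h'
        rw [show i + 1 - 1 = i by ring, show j + 1 + 1 = j + 2 by ring] at h'
        exact absurd h' h02

end comb

/-- a relation involving the big rectangle of the bottom block -/
theorem exists_relation (K : Type*) [Field K] (Λ : Set Pt) (bot top : Pt) (hR : Reg Λ bot top)
    (h1 : Blk Λ bot) (h2 : Blk Λ (top.1 - 2, top.2 - 2)) (hne : bot ≠ (top.1 - 2, top.2 - 2)) :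
    ∃ p ∈ supported K (Mn Λ), phi K p = 0 ∧ psi K (bot, (bot.1 + 2, bot.2 + 2)) p ≠ 0 := by
  obtain ⟨p, q⟩ := top
  obtain ⟨b, c⟩ := bot
  set R0 : Pt × Pt := ((b, c), (b + 2, c + 2)) with hR0
  have h2a : (p - 2, q) ∈ Λ := by
    have := h2.1
    simp only [sub_add_cancel] at this
    exact this
  have h2b : (p, q - 2) ∈ Λ := by
    have := h2.2
    simp only [sub_add_cancel] at this
    exact this
  have h1a : (b, c + 2) ∈ Λ := h1.1
  have h1b : (b + 2, c) ∈ Λ := h1.2
  have hbp : b ≤ p - 2 := (hR.bot_le _ h2a).1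
  have hcq : c ≤ q - 2 := (hR.bot_le _ h2b).2
  have hne' : ¬ (b = p - 2 ∧ c = q - 2) := fun h => hne (by simp [h.1, h.2])
  set x : ℤ → ℤ → MvPolynomial Pt K := fun i j => X (p - i, q - j) with hx
  set Dt : MvPolynomial Pt K :=
    det3 (x 0 0) (x 0 1) (x 0 2) (x 1 0) (x 1 1) (x 1 2) (x 2 0) (x 2 1) (x 2 2) with hDt
  have hDt0 : Dt ≠ 0 := by
    intro h
    have h3 := congrArg (MvPolynomial.eval fun u : Pt =>
      if u = (p, q) ∨ u = (p - 1, q - 1) ∨ u = (p - 2, q - 2) then (1 : K) else 0) h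
    have e1 : ¬ (q = q - 1) := by omega
    have e2 : ¬ (q = q - 2) := by omega
    simp [hDt, det3, hx, e1, e2] at h3
  have htopblk : ∀ s t : ℤ, p - 2 ≤ s → s ≤ p → q - 2 ≤ t → t ≤ q → (s, t) ∈ Λ :=
    fun s t a1 a2 a3 a4 => hR.rect _ _ _ _ _ _ h2a h2b a1 a2 a3 a4
  have hminor : ∀ i₁ i₂ j₁ j₂ : ℤ, 0 ≤ i₁ → i₁ < i₂ → i₂ ≤ 2 → 0 ≤ j₁ → j₁ < j₂ → j₂ ≤ 2 →
      x i₁ j₁ * x i₂ j₂ - x i₁ j₂ * x i₂ j₁ ∈ AA K Λ R0 := by
    intro i₁ i₂ j₁ j₂ a1 a2 a3 a4 a5 a6
    have hmem : fR K ((p - i₂, q - j₂), (p - i₁, q - j₁)) ∈ AA K Λ R0 := by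
      refine fR_mem ⟨?_, ?_, ?_, ?_⟩ ?_
      · simp only; omega
      · simp only; omega
      · exact htopblk _ _ (by simp only; omega) (by simp only; omega) (by simp only; omega) (by simp only; omega)
      · exact htopblk _ _ (by simp only; omega) (by simp only; omega) (by simp only; omega) (by simp only; omega)
      · intro h
        rw [hR0, Prod.mk.injEq, Prod.mk.injEq] at h
        exact hne' ⟨by omega, by omega⟩
    have e : x i₁ j₁ * x i₂ j₂ - x i₁ j₂ * x i₂ j₁ =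
        - fR K ((p - i₂, q - j₂), (p - i₁, q - j₁)) := by
      simp only [fR, hx]; ring
    rw [e]
    exact neg_mem hmem
  have htop : ∀ i j : ℤ, 0 ≤ i → i ≤ 2 → 0 ≤ j → j ≤ 2 → X (p - i, q - j) ∈ MM K Λ R0 Dt := by
    intro i j a1 a2 a3 a4
    refine ⟨1, one_mem _, one_ne_zero, ?_⟩
    rw [mul_one]
    exact mul_det3_mem (AA K Λ R0) x hminor i j a1 a2 a3 a4
  have hall : ∀ n : ℕ, ∀ s t : ℤ, (s, t) ∈ Λ → (s, t) ≠ (b, c) → p + q - s - t = n →
      X (s, t) ∈ MM K Λ R0 Dt := by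
    intro n
    induction n using Nat.strong_induction_on with
    | _ n ih =>
      intro s t hst hb hn
      have hle := hR.le_top _ hst
      have hle1 : s ≤ p := hle.1
      have hle2 : t ≤ q := hle.2
      have hge := hR.bot_le _ hst
      have hge1 : b ≤ s := hge.1
      have hge2 : c ≤ t := hge.2
      by_cases hn3 : n ≤ 2
      · have := htop (p - s) (q - t) (by omega) (by omega) (by omega) (by omega)
        rwa [sub_sub_cancel, sub_sub_cancel] at this
      · rcases line hR hst hb (by simp only; omega) with ⟨j', hj', hL⟩ | ⟨i', hi', hL⟩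
        · refine MM_row hj' (by simp [hR0]) hL ?_ ?_
          · refine ih (n - 1) (by omega) _ _ (hL _ (by omega) (by omega)).1 ?_ (by omega)
            intro h; rw [Prod.mk.injEq] at h; omega
          · refine ih (n - 2) (by omega) _ _ (hL _ (by omega) (by omega)).1 ?_ (by omega)
            intro h; rw [Prod.mk.injEq] at h; omega
        · refine MM_col hi' (by simp [hR0]) hL ?_ ?_
          · refine ih (n - 1) (by omega) _ _ (hL _ (by omega) (by omega)).1 ?_ (by omega)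
            intro h; rw [Prod.mk.injEq] at h; omega
          · refine ih (n - 2) (by omega) _ _ (hL _ (by omega) (by omega)).1 ?_ (by omega)
            intro h; rw [Prod.mk.injEq] at h; omega
  have hall' : ∀ s t : ℤ, (s, t) ∈ Λ → (s, t) ≠ (b, c) → X (s, t) ∈ MM K Λ R0 Dt := by
    intro s t hst hb
    have hle := hR.le_top _ hst
    have hle1 : s ≤ p := hle.1
    have hle2 : t ≤ q := hle.2
    exact hall (p + q - s - t).toNat s t hst hb (by omega)
  have hbblk : ∀ s t : ℤ, b ≤ s → s ≤ b + 2 → c ≤ t → t ≤ c + 2 → (s, t) ∈ Λ :=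
    fun s t a1 a2 a3 a4 => hR.rect _ _ _ _ _ _ h1a h1b a1 a2 a3 a4
  obtain ⟨Z1, hZ1, hZ10, hm1⟩ := hall' (b + 2) c (hbblk _ _ (by omega) (by omega) (by omega) (by omega))
    (by intro h; rw [Prod.mk.injEq] at h; omega)
  obtain ⟨Z2, hZ2, hZ20, hm2⟩ := hall' (b + 2) (c + 1)
    (hbblk _ _ (by omega) (by omega) (by omega) (by omega))
    (by intro h; rw [Prod.mk.injEq] at h; omega)
  obtain ⟨Z3, hZ3, hZ30, hm3⟩ := hall' (b + 2) (c + 2)
    (hbblk _ _ (by omega) (by omega) (by omega) (by omega))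
    (by intro h; rw [Prod.mk.injEq] at h; omega)
  -- common denominator
  have n1 : Dt * (Z1 * Z2 * Z3) * X (b + 2, c) ∈ AA K Λ R0 := by
    have : Dt * (Z1 * Z2 * Z3) * X (b + 2, c) = Dt * Z1 * X (b + 2, c) * (Z2 * Z3) := by ring
    rw [this]; exact mul_mem hm1 (mul_mem hZ2 hZ3)
  have n2 : Dt * (Z1 * Z2 * Z3) * X (b + 2, c + 1) ∈ AA K Λ R0 := by
    have : Dt * (Z1 * Z2 * Z3) * X (b + 2, c + 1) = Dt * Z2 * X (b + 2, c + 1) * (Z1 * Z3) := by ring
    rw [this]; exact mul_mem hm2 (mul_mem hZ1 hZ3)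
  have n3 : Dt * (Z1 * Z2 * Z3) * X (b + 2, c + 2) ∈ AA K Λ R0 := by
    have : Dt * (Z1 * Z2 * Z3) * X (b + 2, c + 2) = Dt * Z3 * X (b + 2, c + 2) * (Z1 * Z2) := by ring
    rw [this]; exact mul_mem hm3 (mul_mem hZ1 hZ2)
  obtain ⟨B1, hB1, hB1'⟩ := Subalgebra.mem_map.mp n1
  obtain ⟨B2, hB2, hB2'⟩ := Subalgebra.mem_map.mp n2
  obtain ⟨B3, hB3, hB3'⟩ := Subalgebra.mem_map.mp n3
  set S1 : Pt × Pt := ((b, c + 1), (b + 2, c + 2)) with hS1
  set S3 : Pt × Pt := ((b, c), (b + 2, c + 1)) with hS3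
  have hS10 : S1 ≠ R0 := by
    intro h
    rw [hS1, hR0, Prod.mk.injEq, Prod.mk.injEq] at h
    omega
  have hS30 : S3 ≠ R0 := by
    intro h
    rw [hS3, hR0, Prod.mk.injEq, Prod.mk.injEq, Prod.mk.injEq] at h
    omega
  have hS1m : S1 ∈ Mn Λ := ⟨by simp [hS1], by simp [hS1],
    hbblk b (c + 2) (by omega) (by omega) (by omega) (by omega),
    hbblk (b + 2) (c + 1) (by omega) (by omega) (by omega) (by omega)⟩
  have hS3m : S3 ∈ Mn Λ := ⟨by simp [hS3], by simp [hS3],
    hbblk b (c + 1) (by omega) (by omega) (by omega) (by omega),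
    hbblk (b + 2) c (by omega) (by omega) (by omega) (by omega)⟩
  have hR0m : R0 ∈ Mn Λ := ⟨by simp [hR0], by simp [hR0], h1a, h1b⟩
  have hsub : supported K (Mn Λ \ {R0}) ≤ supported K (Mn Λ) := supported_mono Set.sdiff_subset
  refine ⟨B1 * X S1 - B2 * X R0 + B3 * X S3, ?_, ?_, ?_⟩
  · exact add_mem (sub_mem (mul_mem (hsub hB1) (X_mem_supported.mpr hS1m))
      (mul_mem (hsub hB2) (X_mem_supported.mpr hR0m))) (mul_mem (hsub hB3) (X_mem_supported.mpr hS3m))
  · have e1 : phi K (X S1) = fR K S1 := by simp [phi]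
    have e2 : phi K (X R0) = fR K R0 := by simp [phi]
    have e3 : phi K (X S3) = fR K S3 := by simp [phi]
    have f1 : phi K B1 = Dt * (Z1 * Z2 * Z3) * X (b + 2, c) := hB1'
    have f2 : phi K B2 = Dt * (Z1 * Z2 * Z3) * X (b + 2, c + 1) := hB2'
    have f3 : phi K B3 = Dt * (Z1 * Z2 * Z3) * X (b + 2, c + 2) := hB3'
    rw [map_add, map_sub, map_mul, map_mul, map_mul, e1, e2, e3, f1, f2, f3]
    simp only [fR, hS1, hR0, hS3]
    ring
  · intro h
    have e1 : psi K R0 (X S1) = Polynomial.C (fR K S1) := by simp [psi, hS10]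
    have e2 : psi K R0 (X R0) = Polynomial.X := by simp [psi]
    have e3 : psi K R0 (X S3) = Polynomial.C (fR K S3) := by simp [psi, hS30]
    have f2 : phi K B2 = Dt * (Z1 * Z2 * Z3) * X (b + 2, c + 1) := hB2'
    have h' := congrArg (fun r => Polynomial.coeff r 1) h
    simp only [map_add, map_sub, map_mul, e1, e2, e3, psi_eq hB1, psi_eq hB2, psi_eq hB3] at h'
    rw [Polynomial.coeff_add, Polynomial.coeff_sub, Polynomial.coeff_C_mul, Polynomial.coeff_C_mul,
      Polynomial.coeff_C_mul, Polynomial.coeff_X_one, Polynomial.coeff_C_of_ne_zero one_ne_zero,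
      Polynomial.coeff_C_of_ne_zero one_ne_zero, f2] at h'
    simp only [mul_zero, mul_one, zero_sub, add_zero, Polynomial.coeff_zero, neg_eq_zero] at h'
    exact mul_ne_zero (mul_ne_zero hDt0 (mul_ne_zero (mul_ne_zero hZ10 hZ20) hZ30)) (X_ne_zero _) h'

end Pool.Agent.Helper98.JM
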