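import Pool.Agent.Helper98.Main2

/-!
Sets of bounded hereditary cardinality.
-/

open Set Ordinal Cardinal

universe u

namespace Pool.Agent.Helper98

open ZFSet (pair)

theorem InH.of_elems {κ : Cardinal.{u}} (hκ : κ.IsRegular) {x : ZFSet.{u}} (hx : x.card < κ)
    (h : ∀ y ∈ x, InH κ y) : InH κ x := by
  have h1 : ∀ y : ZFSet.{u}, ∃ t : ZFSet.{u}, y ∈ x → t.IsTransitive ∧ y ⊆ t ∧ t.card < κ := by
    intro y
    by_cases hy : y ∈ x
    · obtain ⟨t, ht⟩ := h y hy
      exact ⟨t, fun _ => ht⟩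
    · exact ⟨∅, fun h => (hy h).elim⟩
  choose t ht using h1
  let f : Shrink.{u} x → ZFSet.{u} := fun i =>
    insert ((equivShrink x).symm i).1 (t ((equivShrink x).symm i).1)
  refine ⟨ZFSet.iUnion f, ?_, ?_, ?_⟩
  · refine ZFSet.IsTransitive.iUnion ?_
    intro i y hy
    have h2 := ht ((equivShrink x).symm i).1 ((equivShrink x).symm i).2
    intro z hz
    refine ZFSet.mem_insert_iff.2 (Or.inr ?_)
    rcases ZFSet.mem_insert_iff.1 hy with h3 | h3
    · rw [h3] at hz
      exact h2.2.1 hz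
    · exact h2.1 _ h3 hz
  · intro y hy
    refine ZFSet.mem_iUnion.2 ⟨equivShrink x ⟨y, hy⟩, ?_⟩
    refine ZFSet.mem_insert_iff.2 (Or.inl ?_)
    rw [Equiv.symm_apply_apply]
  · have h2 := ZFSet.lift_card_iUnion_le_sum_card (f := f)
    rw [Cardinal.lift_id] at h2
    refine h2.trans_lt (sum_lt_of_isRegular hκ hx ?_)
    intro i
    have h3 := ht ((equivShrink x).symm i).1 ((equivShrink x).symm i).2
    refine ZFSet.card_insert_le.trans_lt ?_
    exact add_lt_of_lt hκ.aleph0_le h3.2.2 (one_lt_aleph0.trans_le hκ.aleph0_le)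

theorem card_pair_le (a b : ZFSet.{u}) : ({a, b} : ZFSet.{u}).card ≤ 2 := by
  have h1 := ZFSet.card_insert_le (x := a) (y := {b})
  rw [ZFSet.card_singleton, one_add_one_eq_two] at h1
  exact h1

theorem InH.upair {κ : Cardinal.{u}} (hκ : κ.IsRegular) {a b : ZFSet.{u}} (ha : InH κ a)
    (hb : InH κ b) : InH κ {a, b} := by
  refine InH.of_elems hκ ?_ ?_
  · exact (card_pair_le a b).trans_lt ((natCast_lt_aleph0 (n := 2)).trans_le hκ.aleph0_le)
  · intro y hy
    rcases ZFSet.mem_pair.1 hy with rfl | rfl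
    · exact ha
    · exact hb

theorem InH.pair {κ : Cardinal.{u}} (hκ : κ.IsRegular) {a b : ZFSet.{u}} (ha : InH κ a)
    (hb : InH κ b) : InH κ (pair a b) := by
  have h1 : InH κ {a} := by
    have := InH.upair hκ ha ha
    rwa [ZFSet.pair_eq_singleton] at this
  exact InH.upair hκ h1 (InH.upair hκ ha hb)

theorem InH.ord {κ : Cardinal.{u}} {o : Ordinal.{u}} (h : o.card < κ) : InH κ o.toZFSet :=
  ⟨o.toZFSet, (ZFSet.isOrdinal_toZFSet o).isTransitive, fun _ h => h, by
    rwa [Ordinal.card_toZFSet]⟩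

theorem card_range_lt {κ : Cardinal.{u}} {α : Type u} (h : #α < κ) (f : α → ZFSet.{u}) :
    (ZFSet.range f).card < κ := by
  have h1 := ZFSet.lift_card_range_le (f := f)
  rw [Cardinal.lift_id, Cardinal.lift_id] at h1
  exact h1.trans_lt h

variable {lam : Cardinal.{u}}

theorem InH.enc (t : TT lam) : InH (Order.succ lam) (enc t) := by
  refine InH.ord ?_
  have h1 : (t.toOrd.1).card < lam := lt_ord.1 t.toOrd.2
  exact h1.trans (Order.lt_succ _)

theorem InH.rel2 (hlam : ℵ₀ ≤ lam) (P : TT lam → TT lam → Prop) :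
    InH (Order.succ lam) (rel2 P) := by
  have hκ : (Order.succ lam).IsRegular := isRegular_succ hlam
  refine InH.of_elems hκ (card_range_lt ?_ _) ?_
  · rw [Order.lt_succ_iff]
    refine (mk_subtype_le _).trans ?_
    rw [mk_prod, Cardinal.lift_id, mk_ord_toType]
    exact (mul_eq_self hlam).le
  · intro y hy
    obtain ⟨p, rfl⟩ := ZFSet.mem_range.1 hy
    exact InH.pair hκ (InH.enc _) (InH.enc _)

theorem InH.rel3 (hlam : ℵ₀ ≤ lam) (P : TT lam → TT lam → TT lam → Prop) :
    InH (Order.succ lam) (rel3 P) := by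
  have hκ : (Order.succ lam).IsRegular := isRegular_succ hlam
  refine InH.of_elems hκ (card_range_lt ?_ _) ?_
  · rw [Order.lt_succ_iff]
    refine (mk_subtype_le _).trans ?_
    rw [mk_prod, Cardinal.lift_id, mk_prod, Cardinal.lift_id, mk_ord_toType, Cardinal.lift_id,
      mul_eq_self hlam]
    exact (mul_eq_self hlam).le
  · intro y hy
    obtain ⟨p, rfl⟩ := ZFSet.mem_range.1 hy
    exact InH.pair hκ (InH.enc _) (InH.pair hκ (InH.enc _) (InH.enc _))

end Pool.Agent.Helper98
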