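import Mathlib

/-!
Combinatorial core: Galvin-Hajnal type ranks modulo normal ideals are locally computable.
-/

open Set Ordinal Cardinal

universe u

namespace Pool.Agent.Helper98

/-- Normal ideals on a well-ordered index set (possibly improper). -/
structure NIdeal (ι : Type u) [LinearOrder ι] where
  sets : Set (Set ι)
  empty_mem : ∅ ∈ sets
  mono : ∀ {A B : Set ι}, A ⊆ B → B ∈ sets → A ∈ sets
  bdd : ∀ i : ι, Set.Iic i ∈ sets
  union : ∀ {A B : Set ι}, A ∈ sets → B ∈ sets → A ∪ B ∈ sets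
  diag : ∀ A : ι → Set ι, (∀ ξ, A ξ ∈ sets) → {i | ∃ ξ, ξ < i ∧ i ∈ A ξ} ∈ sets

variable {ι : Type u} [LinearOrder ι]

theorem NIdeal.ext' {I J : NIdeal ι} (h : I.sets = J.sets) : I = J := by
  cases I; cases J; simp at h; subst h; rfl

/-- `RK J T f γ`: the rank of `f` in the relation `g < f` modulo `J` on `T` is at least `γ`. -/
def RK (J : NIdeal ι) (T : Set ι) (f : ι → Ordinal.{u}) (γ : Ordinal.{u}) : Prop :=
  ∀ δ, δ < γ → ∃ g : ι → Ordinal.{u}, {i ∈ T | ¬ g i < f i} ∈ J.sets ∧ RK J T g δ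
termination_by γ

theorem RK_iff {J : NIdeal ι} {T : Set ι} {f : ι → Ordinal.{u}} {γ : Ordinal.{u}} :
    RK J T f γ ↔ ∀ δ, δ < γ → ∃ g : ι → Ordinal.{u}, {i ∈ T | ¬ g i < f i} ∈ J.sets ∧ RK J T g δ := by
  rw [RK]

variable {J : NIdeal ι}

theorem RK.mono_rank {T : Set ι} {f : ι → Ordinal.{u}} {γ γ' : Ordinal.{u}} (h : γ' ≤ γ)
    (H : RK J T f γ) : RK J T f γ' := by
  rw [RK_iff] at H ⊢
  exact fun δ hδ => H δ (hδ.trans_le h)

theorem RK.mono_set {T T' : Set ι} (h : T' ⊆ T) {γ : Ordinal.{u}} :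
    ∀ {f : ι → Ordinal.{u}}, RK J T f γ → RK J T' f γ := by
  induction γ using WellFoundedLT.induction with
  | ind γ ih =>
    intro f H
    rw [RK_iff] at H ⊢
    intro δ hδ
    obtain ⟨g, hg, hR⟩ := H δ hδ
    refine ⟨g, J.mono ?_ hg, ih δ hδ hR⟩
    rintro i ⟨h1, h2⟩
    exact ⟨h h1, h2⟩

theorem RK.of_le {T : Set ι} {f g : ι → Ordinal.{u}} {γ : Ordinal.{u}}
    (h : {i ∈ T | ¬ f i ≤ g i} ∈ J.sets) (H : RK J T f γ) : RK J T g γ := by
  rw [RK_iff] at H ⊢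
  intro δ hδ
  obtain ⟨k, hk, hR⟩ := H δ hδ
  refine ⟨k, J.mono ?_ (J.union hk h), hR⟩
  rintro i ⟨hi, h1⟩
  by_cases h2 : k i < f i
  · right
    exact ⟨hi, fun h3 => h1 (h2.trans_le h3)⟩
  · left
    exact ⟨hi, h2⟩

theorem RK.congr' {T : Set ι} {f g : ι → Ordinal.{u}} {γ : Ordinal.{u}}
    (h : ∀ i ∈ T, f i = g i) (H : RK J T f γ) : RK J T g γ := by
  refine H.of_le (J.mono ?_ J.empty_mem)
  rintro i ⟨hi, h1⟩
  exact (h1 (h i hi).le).elim

theorem RK.succ {T : Set ι} {f g : ι → Ordinal.{u}} {γ : Ordinal.{u}}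
    (h : {i ∈ T | ¬ f i < g i} ∈ J.sets) (H : RK J T f γ) : RK J T g (γ + 1) := by
  rw [RK_iff]
  intro δ hδ
  exact ⟨f, h, H.mono_rank (Order.lt_add_one_iff.1 hδ)⟩

theorem RK_of_mem {T : Set ι} (h : T ∈ J.sets) (f : ι → Ordinal.{u}) (γ : Ordinal.{u}) :
    RK J T f γ := by
  induction γ using WellFoundedLT.induction generalizing f with
  | ind γ ih =>
    rw [RK_iff]
    intro δ hδ
    exact ⟨f, J.mono (fun i hi => hi.1) h, ih δ hδ f⟩

theorem RK.glue {T : Set ι} (b : ι → ι) (hb : {i ∈ T | ¬ b i < i} ∈ J.sets) {γ : Ordinal.{u}} :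
    ∀ {f : ι → Ordinal.{u}}, (∀ ξ, RK J {i ∈ T | b i = ξ} f γ) → RK J T f γ := by
  induction γ using WellFoundedLT.induction with
  | ind γ ih =>
    intro f H
    rw [RK_iff]
    intro δ hδ
    have H' : ∀ ξ, ∃ g : ι → Ordinal.{u},
        {i ∈ {i ∈ T | b i = ξ} | ¬ g i < f i} ∈ J.sets ∧ RK J {i ∈ T | b i = ξ} g δ := by
      intro ξ
      exact RK_iff.1 (H ξ) δ hδ
    choose g hg hR using H'
    refine ⟨fun i => g (b i) i, ?_, ?_⟩
    · refine J.mono ?_ (J.union hb (J.diag _ hg))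
      rintro i ⟨hi, h1⟩
      by_cases h2 : b i < i
      · right
        exact ⟨b i, h2, ⟨hi, rfl⟩, h1⟩
      · left
        exact ⟨hi, h2⟩
    · apply ih δ hδ
      intro ξ
      refine (hR ξ).congr' ?_
      rintro i ⟨hi, rfl⟩
      rfl

/-- limit points of the index set -/
def Lim (i : ι) : Prop := (∃ ξ, ξ < i) ∧ ∀ ξ, ξ < i → ∃ ξ', ξ < ξ' ∧ ξ' < i

theorem NIdeal.nonlim_mem (I : NIdeal ι) : {i : ι | ¬ Lim i} ∈ I.sets := by
  have h1 : {i : ι | ¬ ∃ ξ, ξ < i} ∈ I.sets := by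
    by_cases hne : Nonempty ι
    · obtain ⟨i0⟩ := hne
      refine I.mono ?_ (I.bdd i0)
      intro i hi
      exact not_lt.1 (fun h => hi ⟨i0, h⟩)
    · refine I.mono ?_ I.empty_mem
      intro i _
      exact (hne ⟨i⟩).elim
  have h2 : ∀ ξ, {i : ι | ξ < i ∧ ∀ ξ', ξ < ξ' → i ≤ ξ'} ∈ I.sets := by
    intro ξ
    by_cases hne : ∃ i0, ξ < i0 ∧ ∀ ξ', ξ < ξ' → i0 ≤ ξ'
    · obtain ⟨i0, h3, _⟩ := hne
      exact I.mono (fun i hi => hi.2 i0 h3) (I.bdd i0)
    · refine I.mono ?_ I.empty_mem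
      intro i hi
      exact (hne ⟨i, hi⟩).elim
  refine I.mono ?_ (I.union h1 (I.diag _ h2))
  intro i hi
  change ¬ ((∃ ξ, ξ < i) ∧ ∀ ξ, ξ < i → ∃ ξ', ξ < ξ' ∧ ξ' < i) at hi
  by_cases h3 : ∃ ξ, ξ < i
  · right
    have h4 : ¬ ∀ ξ, ξ < i → ∃ ξ', ξ < ξ' ∧ ξ' < i := fun h => hi ⟨h3, h⟩
    push Not at h4
    obtain ⟨ξ, h5, h6⟩ := h4
    exact ⟨ξ, h5, h5, h6⟩
  · left
    exact h3

/-- Fodor's lemma for a normal ideal. -/
theorem NIdeal.exists_pos (I : NIdeal ι) {T : Set ι} (hT : T ∉ I.sets) (P : ι → ι → Prop)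
    (hP : ∀ i ∈ T, Lim i → ∃ ξ, ξ < i ∧ P ξ i) : ∃ ξ, {i ∈ T | P ξ i} ∉ I.sets := by
  by_contra hcon
  push Not at hcon
  apply hT
  refine I.mono ?_ (I.union I.nonlim_mem (I.diag _ hcon))
  intro i hi
  by_cases hl : Lim i
  · right
    obtain ⟨ξ, h1, h2⟩ := hP i hi hl
    exact ⟨ξ, h1, hi, h2⟩
  · left
    exact hl

theorem NIdeal.not_mem_diff (I : NIdeal ι) {T A : Set ι} (hT : T ∉ I.sets) (hA : A ∈ I.sets) :
    T \ A ∉ I.sets := by
  intro h
  exact hT (I.mono (fun i hi => by by_cases h1 : i ∈ A; exacts [Or.inr h1, Or.inl ⟨hi, h1⟩])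
    (I.union h hA))

/-- Two distinct small elements of the index set, below everything outside a set of the ideal. -/
theorem RK.union [Infinite ι] [WellFoundedLT ι] {T T' : Set ι} {f : ι → Ordinal.{u}} {γ : Ordinal.{u}}
    (h : RK J T f γ) (h' : RK J T' f γ) : RK J (T ∪ T') f γ := by
  classical
  obtain ⟨a, b, hab⟩ : ∃ a b : ι, a ≠ b := exists_pair_ne ι
  refine RK.glue (fun i => if i ∈ T then a else b) ?_ ?_
  · refine J.mono ?_ (J.bdd (max a b))
    rintro i ⟨_, h2⟩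
    rw [mem_Iic]
    split_ifs at h2
    · exact (not_lt.1 h2).trans (le_max_left _ _)
    · exact (not_lt.1 h2).trans (le_max_right _ _)
  · intro ξ
    by_cases h1 : ξ = a
    · refine h.mono_set ?_
      rintro i ⟨_, h2⟩
      split_ifs at h2 with h3
      · exact h3
      · exact (hab (h1.symm.trans h2.symm)).elim
    · refine h'.mono_set ?_
      rintro i ⟨h0, h2⟩
      split_ifs at h2 with h3
      · exact (h1 h2.symm).elim
      · exact h0.resolve_left h3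

section Ideals

variable [Infinite ι] [WellFoundedLT ι]

/-- The normal ideal of all sets on which `f` has rank at least `γ`. -/
def rankIdeal (J : NIdeal ι) (f : ι → Ordinal.{u}) (γ : Ordinal.{u}) : NIdeal ι where
  sets := {A | RK J A f γ}
  empty_mem := RK_of_mem J.empty_mem f γ
  mono := fun h H => RK.mono_set h H
  bdd := fun i => RK_of_mem (J.bdd i) f γ
  union := fun h h' => RK.union h h'
  diag := by
    intro A hA
    classical
    have hne : ∀ i, ∃ ξ, (∃ ξ', ξ' < i ∧ i ∈ A ξ') → ξ < i ∧ i ∈ A ξ := by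
      intro i
      by_cases h : ∃ ξ', ξ' < i ∧ i ∈ A ξ'
      · obtain ⟨ξ, hξ⟩ := h
        exact ⟨ξ, fun _ => hξ⟩
      · exact ⟨i, fun h' => (h h').elim⟩
    choose b hb using hne
    refine RK.glue b ?_ ?_
    · refine J.mono ?_ J.empty_mem
      rintro i ⟨h1, h2⟩
      exact (h2 (hb i h1).1).elim
    · intro ξ
      refine RK.mono_set ?_ (hA ξ)
      rintro i ⟨h1, rfl⟩
      exact (hb i h1).2

/-- The normal ideal of all sets `A` such that some `g` is below `f` on `A ∩ T` with rank at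
least `γ`. -/
def genIdeal (J : NIdeal ι) (T : Set ι) (f : ι → Ordinal.{u}) (γ : Ordinal.{u}) : NIdeal ι where
  sets := {A | ∃ g : ι → Ordinal.{u}, {i ∈ A ∩ T | ¬ g i < f i} ∈ J.sets ∧ RK J (A ∩ T) g γ}
  empty_mem := ⟨f, J.mono (fun i hi => hi.1.1) J.empty_mem,
    RK_of_mem (J.mono (fun i hi => hi.1) J.empty_mem) f γ⟩
  mono := by
    rintro A B h ⟨g, hg, hR⟩
    refine ⟨g, J.mono ?_ hg, hR.mono_set ?_⟩
    · rintro i ⟨⟨h1, h2⟩, h3⟩
      exact ⟨⟨h h1, h2⟩, h3⟩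
    · rintro i ⟨h1, h2⟩
      exact ⟨h h1, h2⟩
  bdd := fun i => ⟨f, J.mono (fun j hj => hj.1.1) (J.bdd i),
    RK_of_mem (J.mono (fun j hj => hj.1) (J.bdd i)) f γ⟩
  union := by
    classical
    rintro A B ⟨g, hg, hR⟩ ⟨g', hg', hR'⟩
    refine ⟨fun i => if i ∈ A then g i else g' i, ?_, ?_⟩
    · refine J.mono ?_ (J.union hg hg')
      rintro i ⟨⟨h1, h2⟩, h3⟩
      replace h3 : ¬ (if i ∈ A then g i else g' i) < f i := h3
      by_cases h4 : i ∈ A
      · left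
        rw [if_pos h4] at h3
        exact ⟨⟨h4, h2⟩, h3⟩
      · right
        rw [if_neg h4] at h3
        exact ⟨⟨h1.resolve_left h4, h2⟩, h3⟩
    · have h5 : RK J (A ∩ T) (fun i => if i ∈ A then g i else g' i) γ := by
        refine hR.congr' ?_
        intro i hi
        rw [if_pos hi.1]
      have h6 : RK J ((B ∩ T) \ A) (fun i => if i ∈ A then g i else g' i) γ := by
        refine (hR'.mono_set sdiff_subset).congr' ?_
        intro i hi
        rw [if_neg hi.2]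
      refine (RK.union h5 h6).mono_set ?_
      rintro i ⟨h1, h2⟩
      by_cases h4 : i ∈ A
      · left; exact ⟨h4, h2⟩
      · right; exact ⟨⟨h1.resolve_left h4, h2⟩, h4⟩
  diag := by
    intro A hA
    classical
    choose g hg hR using hA
    have hne : ∀ i, ∃ ξ, (∃ ξ', ξ' < i ∧ i ∈ A ξ') → ξ < i ∧ i ∈ A ξ := by
      intro i
      by_cases h : ∃ ξ', ξ' < i ∧ i ∈ A ξ'
      · obtain ⟨ξ, hξ⟩ := h
        exact ⟨ξ, fun _ => hξ⟩
      · exact ⟨i, fun h' => (h h').elim⟩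
    choose b hb using hne
    refine ⟨fun i => g (b i) i, ?_, ?_⟩
    · refine J.mono ?_ (J.diag _ hg)
      rintro i ⟨⟨h1, h2⟩, h3⟩
      have h4 := hb i h1
      exact ⟨b i, h4.1, ⟨h4.2, h2⟩, h3⟩
    · refine RK.glue b ?_ ?_
      · refine J.mono ?_ J.empty_mem
        rintro i ⟨h1, h2⟩
        exact (h2 (hb i h1.1).1).elim
      · intro ξ
        have h1 : RK J {i ∈ {i | ∃ ξ, ξ < i ∧ i ∈ A ξ} ∩ T | b i = ξ} (g ξ) γ := by
          refine RK.mono_set ?_ (hR ξ)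
          rintro i ⟨h1, rfl⟩
          exact ⟨(hb i h1.1).2, h1.2⟩
        refine h1.congr' ?_
        rintro i ⟨_, rfl⟩
        rfl

/-- The restriction of a normal ideal to a set. -/
def NIdeal.restrict (I : NIdeal ι) (T : Set ι) : NIdeal ι where
  sets := {A | A ∩ T ∈ I.sets}
  empty_mem := I.mono (fun i hi => hi.1) I.empty_mem
  mono := by
    intro A B h H
    refine I.mono ?_ H
    rintro i ⟨h1, h2⟩
    exact ⟨h h1, h2⟩
  bdd := fun i => I.mono (fun j hj => hj.1) (I.bdd i)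
  union := by
    intro A B hA hB
    refine I.mono ?_ (I.union hA hB)
    rintro i ⟨h1 | h1, h2⟩
    · left; exact ⟨h1, h2⟩
    · right; exact ⟨h1, h2⟩
  diag := by
    intro A hA
    refine I.mono ?_ (I.diag _ hA)
    rintro i ⟨⟨ξ, h1, h2⟩, h3⟩
    exact ⟨ξ, h1, h2, h3⟩

end Ideals

section WF

/-- `J` is closed under countable unions. -/
theorem NIdeal.iUnion_nat [Infinite ι] (hω : ∀ s : ℕ → ι, BddAbove (range s)) (A : ℕ → Set ι)
    (hA : ∀ n, A n ∈ J.sets) : (⋃ n, A n) ∈ J.sets := by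
  classical
  obtain ⟨s, hs⟩ : ∃ s : ℕ → ι, Function.Injective s :=
    ⟨Infinite.natEmbedding ι, (Infinite.natEmbedding ι).injective⟩
  obtain ⟨i0, hi0⟩ := hω s
  have h1 : ∀ ξ, {i | ∃ n, s n = ξ ∧ i ∈ A n} ∈ J.sets := by
    intro ξ
    by_cases h : ∃ n, s n = ξ
    · obtain ⟨n, rfl⟩ := h
      refine J.mono ?_ (hA n)
      rintro i ⟨m, h2, h3⟩
      rwa [hs h2] at h3
    · refine J.mono ?_ J.empty_mem
      rintro i ⟨m, h2, h3⟩
      exact (h ⟨m, h2⟩).elim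
  refine J.mono ?_ (J.union (J.bdd i0) (J.diag _ h1))
  intro i hi
  rw [mem_iUnion] at hi
  obtain ⟨n, hn⟩ := hi
  by_cases h2 : i ≤ i0
  · left; exact h2
  · right
    exact ⟨s n, (hi0 ⟨n, rfl⟩).trans_lt (not_le.1 h2), n, rfl, hn⟩

theorem wf_lt_mod [Infinite ι] (hω : ∀ s : ℕ → ι, BddAbove (range s)) (hJ : Set.univ ∉ J.sets) :
    WellFounded (fun g f : ι → Ordinal.{u} => {i | ¬ g i < f i} ∈ J.sets) := by
  rw [wellFounded_iff_isEmpty_descending_chain]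
  constructor
  rintro ⟨F, hF⟩
  have h1 := J.iUnion_nat hω _ hF
  have h2 : (⋃ n, {i | ¬ F (n + 1) i < F n i}) ≠ Set.univ := by
    intro h
    rw [h] at h1
    exact hJ h1
  obtain ⟨i, hi⟩ := (ne_univ_iff_exists_notMem _).1 h2
  rw [mem_iUnion, not_exists] at hi
  have h3 : ∀ n, F (n + 1) i < F n i := fun n => not_not.1 (hi n)
  have h4 := (wellFounded_iff_isEmpty_descending_chain (r := ((· < ·) : Ordinal.{u} → Ordinal.{u} → Prop))).1 (wellFounded_lt)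
  exact h4.false ⟨fun n => F n i, h3⟩

/-- There are functions of exact rank `α` below any function of rank at least `α`. -/
theorem exists_exact_rank [Infinite ι] (hω : ∀ s : ℕ → ι, BddAbove (range s))
    (hJ : Set.univ ∉ J.sets) {κ : ι → Ordinal.{u}} {h : ι → Ordinal.{u}} (hκ : ∀ i, h i < κ i)
    {α : Ordinal.{u}} (hR : RK J Set.univ h α) :
    ∃ f : ι → Ordinal.{u}, (∀ i, f i < κ i) ∧ RK J Set.univ f α ∧ ¬ RK J Set.univ f (α + 1) := by
  obtain ⟨f, ⟨hf1, hf2⟩, hmin⟩ := (wf_lt_mod hω hJ).has_min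
    {f : ι → Ordinal.{u} | (∀ i, f i < κ i) ∧ RK J Set.univ f α} ⟨h, hκ, hR⟩
  refine ⟨f, hf1, hf2, ?_⟩
  intro hf3
  rw [RK_iff] at hf3
  obtain ⟨g, hg1, hg2⟩ := hf3 α (lt_add_one α)
  have hg3 : {i | ¬ g i < f i} ∈ J.sets := J.mono (fun i (hi : ¬ g i < f i) => (⟨mem_univ i, hi⟩ : i ∈ Set.univ ∧ ¬ g i < f i)) hg1
  refine hmin (fun i => min (g i) (f i)) ⟨fun i => (min_le_right _ _).trans_lt (hf1 i), ?_⟩ ?_
  · refine hg2.of_le (J.mono ?_ hg3)
    rintro i ⟨_, h1⟩ h2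
    exact h1 (le_min le_rfl h2.le)
  · refine J.mono ?_ hg3
    intro i h1 h2
    exact h1 ((min_le_left _ _).trans_lt h2)

end WF

section Local

/-- Data for coding bounded pieces of functions. -/
structure CodeData (ι : Type u) [LinearOrder ι] where
  θ : ι → Ordinal.{u}
  κ : ι → Ordinal.{u}
  S : ι → Ordinal.{u} → Ordinal.{u} → Ordinal.{u}
  Code : Type u
  dom : Code → Set ι
  val : Code → ι → Ordinal.{u}
  θ_lim : ∀ i, Lim i → ∀ x, x < θ i → ∃ ξ, ξ < i ∧ x < θ ξ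
  S_lt : ∀ i η x, 0 < η → S i η x < η
  S_surj : ∀ i η, η < κ i → ∀ ρ, ρ < η → ∃ x, x < θ i ∧ S i η x = ρ
  code_exists : ∀ (ξ : ι) (T : Set ι) (x : ι → Ordinal.{u}), (∀ i ∈ T, x i < θ ξ) →
    ∃ φ, dom φ = T ∧ ∀ i ∈ T, val φ i = x i

variable (D : CodeData ι)

/-- the partial function coded by `φ` below `h` -/
def CodeData.ev (h : ι → Ordinal.{u}) (φ : D.Code) (i : ι) : Ordinal.{u} := D.S i (h i) (D.val φ i)

/-- `φ'` codes a piece strictly below `φ`. -/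
def CodeData.Below (h : ι → Ordinal.{u}) (φ' φ : D.Code) : Prop :=
  ∀ i, i ∈ D.dom φ' → i ∈ D.dom φ ∧ D.ev h φ' i < D.ev h φ i

/-- proper normal ideals extending `J` -/
def PIdeal (J : NIdeal ι) : Type u := {I : NIdeal ι // J.sets ⊆ I.sets ∧ Set.univ ∉ I.sets}

variable {D}

theorem CodeData.exists_code {h g : ι → Ordinal.{u}} (hh : ∀ i, h i < D.κ i) (I : NIdeal ι)
    {T : Set ι} (hT : T ∉ I.sets) (hg : ∀ i ∈ T, g i < h i) :
    ∃ φ : D.Code, D.dom φ ⊆ T ∧ D.dom φ ∉ I.sets ∧ ∀ i ∈ D.dom φ, D.ev h φ i = g i := by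
  classical
  have h1 : ∀ i, ∃ x, i ∈ T → x < D.θ i ∧ D.S i (h i) x = g i := by
    intro i
    by_cases hi : i ∈ T
    · obtain ⟨x, hx⟩ := D.S_surj i (h i) (hh i) (g i) (hg i hi)
      exact ⟨x, fun _ => hx⟩
    · exact ⟨0, fun h => (hi h).elim⟩
  choose x hx using h1
  obtain ⟨ξ, hξ⟩ := I.exists_pos hT (fun ξ i => x i < D.θ ξ)
    (fun i hi hl => D.θ_lim i hl (x i) (hx i hi).1)
  obtain ⟨φ, hφ1, hφ2⟩ := D.code_exists ξ {i ∈ T | x i < D.θ ξ} x (fun i hi => hi.2)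
  refine ⟨φ, ?_, ?_, ?_⟩
  · rw [hφ1]
    exact fun i hi => hi.1
  · rw [hφ1]
    exact hξ
  · intro i hi
    rw [hφ1] at hi
    rw [CodeData.ev, hφ2 i hi]
    exact (hx i hi.1).2

theorem CodeData.ev_lt {h : ι → Ordinal.{u}} (hpos : ∀ i, 0 < h i) (φ : D.Code) (i : ι) :
    D.ev h φ i < h i := D.S_lt i (h i) _ (hpos i)

variable [Infinite ι] [WellFoundedLT ι]

/-- Local recursion for ranks of pieces. -/
theorem CodeData.local_rec {h : ι → Ordinal.{u}} (hh : ∀ i, h i < D.κ i) (hpos : ∀ i, 0 < h i)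
    (φ : D.Code) (γ : Ordinal.{u}) :
    RK J (D.dom φ) (D.ev h φ) γ ↔ ∀ δ, δ < γ → ∀ I : PIdeal J,
      (∀ φ' : D.Code, D.Below h φ' φ → RK J (D.dom φ') (D.ev h φ') δ → D.dom φ' ∈ I.1.sets) →
      D.dom φ ∈ I.1.sets := by
  constructor
  · intro H δ hδ I hI
    by_contra hcon
    obtain ⟨g, hg1, hg2⟩ := RK_iff.1 H δ hδ
    have hT : {i ∈ D.dom φ | g i < D.ev h φ i} ∉ I.1.sets := by
      intro hmem
      apply hcon
      refine I.1.mono ?_ (I.1.union hmem (I.2.1 hg1))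
      intro i hi
      by_cases h1 : g i < D.ev h φ i
      · left; exact ⟨hi, h1⟩
      · right; exact ⟨hi, h1⟩
    obtain ⟨φ', hφ1, hφ2, hφ3⟩ := D.exists_code hh I.1 hT
      (g := g) (fun i hi => hi.2.trans (D.ev_lt hpos φ i))
    apply hφ2
    apply hI φ'
    · intro i hi
      refine ⟨(hφ1 hi).1, ?_⟩
      rw [hφ3 i hi]
      exact (hφ1 hi).2
    · refine (hg2.mono_set (fun i hi => (hφ1 hi).1)).congr' ?_
      intro i hi
      exact (hφ3 i hi).symm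
  · intro H
    rw [RK_iff]
    intro δ hδ
    have key : D.dom φ ∈ (genIdeal J (D.dom φ) (D.ev h φ) δ).sets := by
      by_contra hcon
      have hproper : Set.univ ∉ (genIdeal J (D.dom φ) (D.ev h φ) δ).sets := by
        intro h1
        exact hcon ((genIdeal J (D.dom φ) (D.ev h φ) δ).mono (subset_univ _) h1)
      have hJ : J.sets ⊆ (genIdeal J (D.dom φ) (D.ev h φ) δ).sets := by
        intro A hA
        exact ⟨fun _ => 0, J.mono (fun i hi => hi.1.1) hA,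
          RK_of_mem (J.mono (fun i hi => hi.1) hA) _ _⟩
      apply hcon
      apply H δ hδ ⟨_, hJ, hproper⟩
      intro φ' hφ' hR
      refine ⟨D.ev h φ', ?_, hR.mono_set inter_subset_left⟩
      refine J.mono ?_ J.empty_mem
      rintro i ⟨⟨h1, _⟩, h2⟩
      exact h2 (hφ' i h1).2
    obtain ⟨g, hg1, hg2⟩ := key
    rw [inter_self] at hg1 hg2
    exact ⟨g, hg1, hg2⟩

/-- Local characterisation of `RK J univ h (α + 1)`. -/
theorem CodeData.local_big {h : ι → Ordinal.{u}} (hh : ∀ i, h i < D.κ i) (hpos : ∀ i, 0 < h i)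
    (α : Ordinal.{u}) :
    RK J Set.univ h (α + 1) ↔ ∀ I : PIdeal J,
      ∃ φ : D.Code, RK J (D.dom φ) (D.ev h φ) α ∧ D.dom φ ∉ I.1.sets := by
  constructor
  · intro H I
    obtain ⟨g, hg1, hg2⟩ := RK_iff.1 H α (lt_add_one α)
    have hT : {i | g i < h i} ∉ I.1.sets := by
      intro hmem
      apply I.2.2
      refine I.1.mono ?_ (I.1.union hmem (I.2.1 hg1))
      intro i hi
      by_cases h1 : g i < h i
      · left; exact h1
      · right; exact ⟨hi, h1⟩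
    obtain ⟨φ', hφ1, hφ2, hφ3⟩ := D.exists_code hh I.1 hT (g := g) (fun i hi => hi)
    refine ⟨φ', ?_, hφ2⟩
    refine (hg2.mono_set (subset_univ _)).congr' ?_
    intro i hi
    exact (hφ3 i hi).symm
  · intro H
    rw [RK_iff]
    intro δ hδ
    have key : Set.univ ∈ (genIdeal J Set.univ h α).sets := by
      by_contra hcon
      have hJ : J.sets ⊆ (genIdeal J Set.univ h α).sets := by
        intro A hA
        exact ⟨fun _ => 0, J.mono (fun i hi => hi.1.1) hA,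
          RK_of_mem (J.mono (fun i hi => hi.1) hA) _ _⟩
      obtain ⟨φ, hφ1, hφ2⟩ := H ⟨_, hJ, hcon⟩
      apply hφ2
      refine ⟨D.ev h φ, ?_, hφ1.mono_set inter_subset_left⟩
      refine J.mono ?_ J.empty_mem
      rintro i ⟨_, h2⟩
      exact h2 (D.ev_lt hpos φ i)
    obtain ⟨g, hg1, hg2⟩ := key
    rw [inter_self] at hg1 hg2
    exact ⟨g, hg1, hg2.mono_rank (Order.lt_add_one_iff.1 hδ)⟩

/-- The invariant: there is an `I`-positive set and a function on it of hereditary rank `α`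
satisfying the constraint `Q`. -/
def CodeData.Inv (D : CodeData ι) (J : NIdeal ι) (α : Ordinal.{u}) (I : PIdeal J)
    (Q : ι → Ordinal.{u} → Prop) : Prop :=
  ∃ (T : Set ι) (f : ι → Ordinal.{u}), T ∉ I.1.sets ∧ (∀ i, f i < D.κ i) ∧ RK J T f α ∧
    (∀ T' ⊆ T, T' ∉ I.1.sets → ¬ RK J T' f (α + 1)) ∧ ∀ i ∈ T, Q i (f i)

/-- The invariant is locally computable. -/
theorem CodeData.local_inv {h : ι → Ordinal.{u}} (hh : ∀ i, h i < D.κ i) (hpos : ∀ i, 0 < h i)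
    {α : Ordinal.{u}} (hR : RK J Set.univ h (α + 1)) (I : PIdeal J)
    (Q : ι → Ordinal.{u} → Prop) :
    D.Inv J α I Q ↔ ∃ φ : D.Code, D.dom φ ∉ I.1.sets ∧ RK J (D.dom φ) (D.ev h φ) α ∧
      (∀ φ' : D.Code, D.Below h φ' φ → RK J (D.dom φ') (D.ev h φ') α → D.dom φ' ∈ I.1.sets) ∧
      ∀ i ∈ D.dom φ, Q i (D.ev h φ i) := by
  constructor
  · rintro ⟨T, f, hT, hf, hf1, hf2, hQ⟩
    have h1 : {i ∈ T | ¬ f i < h i} ∈ I.1.sets := by
      by_contra hcon
      refine hf2 _ (fun i hi => hi.1) hcon ?_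
      refine (hR.mono_set (subset_univ _)).of_le (J.mono ?_ J.empty_mem)
      rintro i ⟨⟨_, h2⟩, h3⟩
      exact h3 (not_lt.1 h2)
    have h2 : {i ∈ T | f i < h i} ∉ I.1.sets := by
      intro hmem
      apply hT
      refine I.1.mono ?_ (I.1.union hmem h1)
      intro i hi
      by_cases h1 : f i < h i
      · left; exact ⟨hi, h1⟩
      · right; exact ⟨hi, h1⟩
    obtain ⟨φ, hφ1, hφ2, hφ3⟩ := D.exists_code hh I.1 h2 (g := f) (fun i hi => hi.2)
    refine ⟨φ, hφ2, ?_, ?_, ?_⟩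
    · refine (hf1.mono_set (fun i hi => (hφ1 hi).1)).congr' ?_
      intro i hi
      exact (hφ3 i hi).symm
    · intro φ' hφ' hR'
      by_contra hcon
      refine hf2 (D.dom φ') (fun i hi => (hφ1 (hφ' i hi).1).1) hcon ?_
      refine RK.succ ?_ hR'
      refine J.mono ?_ J.empty_mem
      rintro i ⟨h3, h4⟩
      apply h4
      rw [← hφ3 i (hφ' i h3).1]
      exact (hφ' i h3).2
    · intro i hi
      rw [hφ3 i hi]
      exact hQ i (hφ1 hi).1
  · rintro ⟨φ, hφ1, hφ2, hφ3, hφ4⟩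
    refine ⟨D.dom φ, D.ev h φ, hφ1, fun i => (D.ev_lt hpos φ i).trans (hh i), hφ2, ?_, hφ4⟩
    intro T' hT' hT'I hR'
    obtain ⟨g, hg1, hg2⟩ := RK_iff.1 hR' α (lt_add_one α)
    have hT : {i ∈ T' | g i < D.ev h φ i} ∉ I.1.sets := by
      intro hmem
      apply hT'I
      refine I.1.mono ?_ (I.1.union hmem (I.2.1 hg1))
      intro i hi
      by_cases h1 : g i < D.ev h φ i
      · left; exact ⟨hi, h1⟩
      · right; exact ⟨hi, h1⟩
    obtain ⟨φ', h1, h2, h3⟩ := D.exists_code hh I.1 hT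
      (g := g) (fun i hi => hi.2.trans (D.ev_lt hpos φ i))
    apply h2
    apply hφ3 φ'
    · intro i hi
      refine ⟨hT' (h1 hi).1, ?_⟩
      rw [h3 i hi]
      exact (h1 hi).2
    · refine (hg2.mono_set (fun i hi => (h1 hi).1)).congr' ?_
      intro i hi
      exact (h3 i hi).symm

/-- The invariants separate ordinals. -/
theorem CodeData.inv_separates (hω : ∀ s : ℕ → ι, BddAbove (range s)) (hJ : Set.univ ∉ J.sets)
    {Y : ι → Type u} (π : (ξ : ι) → ι → Ordinal.{u} → Y ξ)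
    (hπ : ∀ i, Lim i → ∀ η η', η < D.κ i → η' < D.κ i → η ≠ η' → ∃ ξ, ξ < i ∧ π ξ i η ≠ π ξ i η')
    {α β : Ordinal.{u}} (hα : ∃ h : ι → Ordinal.{u}, (∀ i, h i < D.κ i) ∧ RK J Set.univ h α)
    (hne : α ≠ β)
    (hI : ∀ (I : PIdeal J) (ξ : ι) (ψ : (i : ι) → Y ξ),
      D.Inv J α I (fun i η => π ξ i η = ψ i) ↔ D.Inv J β I (fun i η => π ξ i η = ψ i)) : False := by
  obtain ⟨h, hh, hR⟩ := hα
  obtain ⟨f, hf0, hf1, hf2⟩ := exists_exact_rank hω hJ hh hR
  have hJsub : J.sets ⊆ (rankIdeal J f (α + 1)).sets := fun A hA => RK_of_mem hA _ _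
  let I : PIdeal J := ⟨rankIdeal J f (α + 1), hJsub, hf2⟩
  have hIdef : ∀ A : Set ι, A ∈ I.1.sets ↔ RK J A f (α + 1) := fun A => Iff.rfl
  -- step 1
  obtain ⟨ξ0⟩ : Nonempty ι := inferInstance
  have s1 : D.Inv J α I (fun i η => π ξ0 i η = π ξ0 i (f i)) := by
    refine ⟨Set.univ, f, I.2.2, hf0, hf1, ?_, fun i _ => rfl⟩
    intro T' _ hT' h1
    exact hT' h1
  obtain ⟨T0, g, hT0, hg0, hg1, hg2, _⟩ := (hI _ _ _).1 s1
  -- step 2
  have s2 : {i ∈ T0 | f i = g i} ∈ I.1.sets := by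
    by_contra hcon
    rcases lt_or_gt_of_ne hne with hlt | hgt
    · apply hcon
      rw [hIdef]
      have h1 : RK J {i ∈ T0 | f i = g i} f β :=
        (hg1.mono_set (fun i hi => hi.1)).congr' (fun i hi => hi.2.symm)
      exact h1.mono_rank (Order.add_one_le_of_lt hlt)
    · refine hg2 _ (fun i hi => hi.1) hcon ?_
      have h1 : RK J {i ∈ T0 | f i = g i} g α :=
        (hf1.mono_set (subset_univ _)).congr' (fun i hi => hi.2)
      exact h1.mono_rank (Order.add_one_le_of_lt hgt)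
  -- step 3
  have s3 : {i ∈ T0 | f i ≠ g i} ∉ I.1.sets := by
    intro hmem
    apply hT0
    refine I.1.mono ?_ (I.1.union hmem s2)
    intro i hi
    by_cases h1 : f i = g i
    · right; exact ⟨hi, h1⟩
    · left; exact ⟨hi, h1⟩
  obtain ⟨ξ, hξ⟩ := I.1.exists_pos s3 (fun ξ i => π ξ i (f i) ≠ π ξ i (g i))
    (fun i hi hl => hπ i hl (f i) (g i) (hf0 i) (hg0 i) hi.2)
  obtain ⟨T1, hT1⟩ : ∃ T1, T1 = {i ∈ {i ∈ T0 | f i ≠ g i} | π ξ i (f i) ≠ π ξ i (g i)} := ⟨_, rfl⟩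
  rw [← hT1] at hξ
  have hres : ∀ A : Set ι, A ∈ (I.1.restrict T1).sets ↔ A ∩ T1 ∈ I.1.sets := fun A => Iff.rfl
  let I1 : PIdeal J := ⟨I.1.restrict T1, fun A hA => (hres A).2
    (I.1.mono inter_subset_left (I.2.1 hA)), fun h1 => hξ (by
      have := (hres _).1 h1
      rwa [univ_inter] at this)⟩
  have hI1 : ∀ A : Set ι, A ∈ I1.1.sets ↔ A ∩ T1 ∈ I.1.sets := fun A => Iff.rfl
  have s4 : D.Inv J α I1 (fun i η => π ξ i η = π ξ i (f i)) := by
    refine ⟨T1, f, ?_, hf0, hf1.mono_set (subset_univ _), ?_, fun i _ => rfl⟩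
    · rw [hI1, inter_self]
      exact hξ
    · intro T' hT' h1 h2
      apply h1
      rw [hI1, inter_eq_self_of_subset_left hT']
      exact h2
  obtain ⟨T2, g', hT2, _, hg1', hg2', hg3'⟩ := (hI _ _ _).1 s4
  rw [hI1] at hT2
  have s5 : {i ∈ T2 ∩ T1 | g i < g' i} ∈ I.1.sets := by
    by_contra hcon
    refine hg2' {i ∈ T2 ∩ T1 | g i < g' i} (fun i hi => hi.1.1) ?_ ?_
    · rw [hI1]
      intro h1
      apply hcon
      refine I.1.mono ?_ h1
      intro i hi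
      exact ⟨hi, hi.1.2⟩
    · have h1 : RK J {i ∈ T2 ∩ T1 | g i < g' i} g β := by
        refine hg1.mono_set ?_
        intro i hi
        have h2 := hi.1.2
        rw [hT1] at h2
        exact h2.1.1
      refine h1.succ (J.mono ?_ J.empty_mem)
      rintro i ⟨h2, h3⟩
      exact h3 h2.2
  have s6 : {i ∈ T2 ∩ T1 | g' i < g i} ∈ I.1.sets := by
    by_contra hcon
    refine hg2 {i ∈ T2 ∩ T1 | g' i < g i} ?_ hcon ?_
    · intro i hi
      have h2 := hi.1.2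
      rw [hT1] at h2
      exact h2.1.1
    · have h1 : RK J {i ∈ T2 ∩ T1 | g' i < g i} g' β := by
        refine hg1'.mono_set ?_
        intro i hi
        exact hi.1.1
      refine h1.succ (J.mono ?_ J.empty_mem)
      rintro i ⟨h2, h3⟩
      exact h3 h2.2
  have s7 : {i ∈ T2 ∩ T1 | g i = g' i} ∉ I.1.sets := by
    intro hmem
    apply hT2
    refine I.1.mono ?_ (I.1.union hmem (I.1.union s5 s6))
    intro i hi
    rcases lt_trichotomy (g i) (g' i) with h1 | h1 | h1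
    · right; left; exact ⟨hi, h1⟩
    · left; exact ⟨hi, h1⟩
    · right; right; exact ⟨hi, h1⟩
  have s8 : {i ∈ T2 ∩ T1 | g i = g' i} ≠ ∅ := by
    intro h1
    rw [h1] at s7
    exact s7 I.1.empty_mem
  obtain ⟨i, ⟨hi2, hi1⟩, hi3⟩ := nonempty_iff_ne_empty.2 s8
  have h1 := hg3' i hi2
  rw [← hi3] at h1
  rw [hT1] at hi1
  exact hi1.2 h1.symm

end Local

end Pool.Agent.Helper98
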