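import Pool.Agent.Helper98.NonStat

/-!
Coding data for a singular cardinal of uncountable cofinality.
-/

open Set Ordinal Cardinal

universe u

namespace Pool.Agent.Helper98

/-- The index type: the cofinality of `lam`. -/
abbrev Idx (lam : Cardinal.{u}) : Type u := (lam.ord.cof).ord.ToType

section

variable {lam : Cardinal.{u}}

theorem mk_Idx : #(Idx lam) = lam.ord.cof := mk_ord_toType _

theorem cof_Idx : Order.cof (Idx lam) = lam.ord.cof := by
  rw [Ordinal.cof_toType, Ordinal.cof_ord_cof]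

theorem Idx_infinite (hcof : ℵ₀ < lam.ord.cof) : Infinite (Idx lam) := by
  rw [Cardinal.infinite_iff, mk_Idx]
  exact hcof.le

theorem Idx_Iio_lt (i : Idx lam) : #(Iio i) < lam.ord.cof := by simpa using Cardinal.mk_Iio_lt i (by simp)

theorem Idx_Iic_lt (hcof : ℵ₀ < lam.ord.cof) (i : Idx lam) : #(Iic i) < lam.ord.cof := by
  have h1 : (Iic i) = insert i (Iio i) := by
    ext j
    simp [le_iff_eq_or_lt]
  rw [h1]
  refine (mk_insert_le).trans_lt ?_
  exact add_lt_of_lt hcof.le (Idx_Iio_lt i) (one_lt_aleph0.trans hcof)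

theorem Idx_bdd (hcof : ℵ₀ < lam.ord.cof) (s : ℕ → Idx lam) : BddAbove (range s) := by
  refine .of_not_isCofinal fun hg => (Order.cof_le hg).not_gt ?_
  rw [cof_Idx]
  exact hcof.trans_le' (by simpa using mk_range_le_lift (f := s))

/-- The nonstationary ideal on the index type. -/
noncomputable def JNS (hcof : ℵ₀ < lam.ord.cof) : NIdeal (Idx lam) :=
  NS (by rw [cof_Idx]; exact hcof) (fun i => by rw [cof_Idx]; exact Idx_Iic_lt hcof i)

theorem JNS_proper (hcof : ℵ₀ < lam.ord.cof) : Set.univ ∉ (JNS hcof).sets := by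
  have := Idx_infinite hcof
  exact NS_proper _ _

/-- a cofinal sequence -/
theorem exists_cofinal_seq (lam : Cardinal.{u}) : ∃ f : Idx lam → Ordinal.{u},
    (∀ i, f i < lam.ord) ∧ ∀ x, x < lam.ord → ∃ i, x ≤ f i := by
  obtain ⟨s, hs, hs'⟩ := Order.exists_cof_eq lam.ord.ToType
  rw [Ordinal.cof_toType, ← mk_Idx] at hs'
  obtain ⟨e⟩ := Cardinal.eq.1 hs'
  refine ⟨fun i => ((e.symm i).1.toOrd : Iio lam.ord).1, fun i => (e.symm i).1.toOrd.2, ?_⟩
  intro x hx
  obtain ⟨y, hy, hxy⟩ := hs (ToType.mk ⟨x, hx⟩)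
  refine ⟨e ⟨y, hy⟩, ?_⟩
  change x ≤ ((e.symm (e ⟨y, hy⟩)).1.toOrd : Iio lam.ord).1
  rw [Equiv.symm_apply_apply]
  have h1 : (⟨x, hx⟩ : Iio lam.ord) ≤ ToType.mk.symm y := (OrderIso.le_symm_apply _).2 hxy
  exact h1

/-- the chosen cofinal sequence -/
noncomputable def seqF (lam : Cardinal.{u}) : Idx lam → Ordinal.{u} :=
  (exists_cofinal_seq lam).choose

theorem seqF_lt (i : Idx lam) : seqF lam i < lam.ord := (exists_cofinal_seq lam).choose_spec.1 i

theorem seqF_cof (x : Ordinal.{u}) (hx : x < lam.ord) : ∃ i, x ≤ seqF lam i :=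
  (exists_cofinal_seq lam).choose_spec.2 x hx

/-- the continuous ladder -/
noncomputable def th (lam : Cardinal.{u}) (i : Idx lam) : Ordinal.{u} :=
  max ω (⨆ j : Iio i, (seqF lam j.1 + 1))

theorem omega_le_th (i : Idx lam) : ω ≤ th lam i := le_max_left _ _

theorem aleph0_le_card_th (i : Idx lam) : ℵ₀ ≤ (th lam i).card := by
  rw [Ordinal.aleph0_le_card]
  exact omega_le_th i

theorem th_pos (i : Idx lam) : 0 < th lam i := omega0_pos.trans_le (omega_le_th i)

theorem lt_th {i j : Idx lam} (h : j < i) {x : Ordinal.{u}} (hx : x ≤ seqF lam j) :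
    x < th lam i := by
  refine lt_max_of_lt_right ?_
  refine (lt_of_le_of_lt hx (lt_add_one _)).trans_le ?_
  exact Ordinal.le_iSup (fun j : Iio i => (seqF lam j.1 + 1)) ⟨j, h⟩

theorem th_lt (hcof : ℵ₀ < lam.ord.cof) (i : Idx lam) : th lam i < lam.ord := by
  have hlam : ℵ₀ < lam := hcof.trans_le (Ordinal.cof_ord_le lam)
  refine max_lt ?_ ?_
  · rw [← ord_aleph0, ord_lt_ord]
    exact hlam
  · apply Ordinal.iSup_add_one_lt_of_lt_cof (Idx_Iio_lt i)
    exact fun j => seqF_lt j.1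

theorem card_th_lt (hcof : ℵ₀ < lam.ord.cof) (i : Idx lam) : (th lam i).card < lam :=
  lt_ord.1 (th_lt hcof i)

theorem th_lim (i : Idx lam) (hi : Lim i) (x : Ordinal.{u}) (hx : x < th lam i) :
    ∃ ξ, ξ < i ∧ x < th lam ξ := by
  rcases lt_max_iff.1 hx with h | h
  · obtain ⟨ξ, hξ⟩ := hi.1
    exact ⟨ξ, hξ, h.trans_le (omega_le_th ξ)⟩
  · obtain ⟨j, hj⟩ := Ordinal.lt_iSup_iff.1 h
    obtain ⟨ξ, h1, h2⟩ := hi.2 j.1 j.2
    exact ⟨ξ, h2, lt_th h1 (Order.lt_add_one_iff.1 hj)⟩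

theorem th_cofinal (x : Ordinal.{u}) (hx : x < lam.ord) : ∃ i0 : Idx lam, ∀ i, i0 < i → x < th lam i := by
  obtain ⟨j, hj⟩ := seqF_cof x hx
  exact ⟨j, fun i hi => lt_th hi hj⟩

/-- bounds of function values -/
noncomputable def ka (lam : Cardinal.{u}) (i : Idx lam) : Ordinal.{u} :=
  (Order.succ (th lam i).card).ord

theorem isRegular_ka (i : Idx lam) : (Order.succ (th lam i).card).IsRegular :=
  isRegular_succ (aleph0_le_card_th i)

theorem card_le_of_lt_ka {i : Idx lam} {η : Ordinal.{u}} (h : η < ka lam i) :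
    η.card ≤ (th lam i).card := by
  rw [ka, lt_ord, Order.lt_succ_iff] at h
  exact h

theorem exists_surj (lam : Cardinal.{u}) (i : Idx lam) (η : Ordinal.{u}) :
    ∃ s : Ordinal.{u} → Ordinal.{u}, (∀ x, 0 < η → s x < η) ∧
      (η < ka lam i → ∀ ρ, ρ < η → ∃ x, x < th lam i ∧ s x = ρ) := by
  classical
  by_cases hη : 0 < η ∧ η < ka lam i
  · have h1 : #(Iio η) ≤ #(Iio (th lam i)) := by
      rw [Cardinal.mk_Iio_ordinal, Cardinal.mk_Iio_ordinal, Cardinal.lift_le]
      exact card_le_of_lt_ka hη.2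
    obtain ⟨e⟩ := h1
    refine ⟨fun x => if h : ∃ ρ : Iio η, (e ρ).1 = x then h.choose.1 else 0, ?_, ?_⟩
    · intro x _
      dsimp only
      split_ifs with h
      · exact h.choose.2
      · exact hη.1
    · intro _ ρ hρ
      refine ⟨(e ⟨ρ, hρ⟩).1, (e ⟨ρ, hρ⟩).2, ?_⟩
      dsimp only
      have h : ∃ ρ' : Iio η, (e ρ').1 = (e ⟨ρ, hρ⟩).1 := ⟨⟨ρ, hρ⟩, rfl⟩
      rw [dif_pos h]
      have h2 := h.choose_spec
      have h3 : h.choose = ⟨ρ, hρ⟩ := e.injective (Subtype.ext h2)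
      rw [h3]
  · refine ⟨fun _ => 0, fun _ h => h, ?_⟩
    intro h1 ρ hρ
    exact (hη ⟨lt_of_le_of_lt zero_le hρ, h1⟩).elim

/-- surjection functions -/
noncomputable def sur (lam : Cardinal.{u}) (i : Idx lam) (η : Ordinal.{u}) : Ordinal.{u} → Ordinal.{u} :=
  (exists_surj lam i η).choose

/-- codes of bounded pieces -/
abbrev LCode (lam : Cardinal.{u}) : Type u :=
  Set (Idx lam) × (Σ ξ : Idx lam, Idx lam → (th lam ξ).ToType)

/-- The coding data attached to `lam`. -/
noncomputable def LData (lam : Cardinal.{u}) : CodeData (Idx lam) where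
  θ := th lam
  κ := ka lam
  S := sur lam
  Code := LCode lam
  dom := fun φ => φ.1
  val := fun φ i => (φ.2.2 i).toOrd.1
  θ_lim := th_lim
  S_lt := fun i η x h => (exists_surj lam i η).choose_spec.1 x h
  S_surj := fun i η h => (exists_surj lam i η).choose_spec.2 h
  code_exists := by
    classical
    intro ξ T x hx
    refine ⟨⟨T, ξ, fun i => if h : i ∈ T then ToType.mk ⟨x i, hx i h⟩ else
      ToType.mk ⟨0, th_pos ξ⟩⟩, rfl, ?_⟩
    intro i hi
    simp only [dif_pos hi, OrderIso.symm_apply_apply, ToType.toOrd]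

/-- the values of the separating projections -/
abbrev LY (lam : Cardinal.{u}) (ξ : Idx lam) : Type u := (Order.succ (th lam ξ).card).ord.ToType

theorem exists_sep (lam : Cardinal.{u}) : ∃ π : (ξ : Idx lam) → Idx lam → Ordinal.{u} → LY lam ξ,
    ∀ i, Lim i → ∀ η η', η < ka lam i → η' < ka lam i → η ≠ η' →
      ∃ ξ, ξ < i ∧ π ξ i η ≠ π ξ i η' := by
  classical
  have hinj : ∀ i : Idx lam, Lim i → ∃ F : (ka lam i).ToType → ((ξ : Iio i) → LY lam ξ.1),
      Function.Injective F := by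
    intro i hi
    have h1 : #(ka lam i).ToType ≤ #((ξ : Iio i) → LY lam ξ.1) := by
      rw [ka, mk_ord_toType, Order.succ_le_iff, Cardinal.mk_pi]
      have h2 : Cardinal.sum (fun ξ : Iio i => (th lam ξ.1).card) <
          Cardinal.prod (fun ξ : Iio i => Order.succ (th lam ξ.1).card) :=
        Cardinal.sum_lt_prod _ _ (fun ξ => Order.lt_succ _)
      have h3 : Cardinal.prod (fun ξ : Iio i => #(LY lam ξ.1)) =
          Cardinal.prod (fun ξ : Iio i => Order.succ (th lam ξ.1).card) := by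
        congr 1
        ext ξ
        exact mk_ord_toType _
      rw [h3]
      refine lt_of_le_of_lt ?_ h2
      have h4 : ∀ x : (th lam i).ToType, ∃ ξ : Iio i, x.toOrd.1 < th lam ξ.1 := by
        intro x
        obtain ⟨ξ, h5, h6⟩ := th_lim i hi x.toOrd.1 x.toOrd.2
        exact ⟨⟨ξ, h5⟩, h6⟩
      choose G hG using h4
      have h5 : #(th lam i).ToType ≤ #(Σ ξ : Iio i, (th lam ξ.1).ToType) := by
        refine Cardinal.mk_le_of_injective
          (f := fun x => ⟨G x, ToType.mk ⟨x.toOrd.1, hG x⟩⟩) ?_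
        intro x y hxy
        have h6 : ∀ a b : (Σ ξ : Iio i, (th lam ξ.1).ToType), a = b →
            a.2.toOrd.1 = b.2.toOrd.1 := by
          rintro a b rfl
          rfl
        have h7 := h6 _ _ hxy
        simp only [ToType.toOrd, OrderIso.symm_apply_apply] at h7
        exact ToType.mk.symm.injective (Subtype.ext h7)
      rw [Cardinal.mk_sigma] at h5
      simpa using h5
    obtain ⟨e⟩ := h1
    exact ⟨e, e.injective⟩
  have hne : ∀ ξ : Idx lam, Nonempty (LY lam ξ) := by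
    intro ξ
    rw [nonempty_toType_iff]
    intro h
    have := (isRegular_ka ξ).ord_pos
    rw [h] at this
    exact lt_irrefl _ this
  choose! F hF using hinj
  refine ⟨fun ξ i η => if h : ξ < i ∧ η < ka lam i then F i (ToType.mk ⟨η, h.2⟩) ⟨ξ, h.1⟩ else
    (hne ξ).some, ?_⟩
  intro i hi η η' hη hη' hneq
  by_contra hcon
  push Not at hcon
  apply hneq
  have h1 : F i (ToType.mk ⟨η, hη⟩) = F i (ToType.mk ⟨η', hη'⟩) := by
    funext ξ
    have h2 := hcon ξ.1 ξ.2
    rw [dif_pos ⟨ξ.2, hη⟩, dif_pos ⟨ξ.2, hη'⟩] at h2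
    exact h2
  have h3 := ToType.mk.injective (hF i hi h1)
  exact congrArg Subtype.val h3

theorem exists_surj' {a b : Ordinal.{u}} (h : b.card ≤ a.card) :
    ∃ s : Ordinal.{u} → Ordinal.{u}, ∀ ρ, ρ < b → ∃ x, x < a ∧ s x = ρ := by
  classical
  have h1 : #(Iio b) ≤ #(Iio a) := by
    rw [Cardinal.mk_Iio_ordinal, Cardinal.mk_Iio_ordinal, Cardinal.lift_le]
    exact h
  obtain ⟨e⟩ := h1
  refine ⟨fun x => if h : ∃ ρ : Iio b, (e ρ).1 = x then h.choose.1 else 0, ?_⟩
  intro ρ hρ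
  refine ⟨(e ⟨ρ, hρ⟩).1, (e ⟨ρ, hρ⟩).2, ?_⟩
  dsimp only
  have h : ∃ ρ' : Iio b, (e ρ').1 = (e ⟨ρ, hρ⟩).1 := ⟨⟨ρ, hρ⟩, rfl⟩
  rw [dif_pos h]
  have h2 := h.choose_spec
  have h3 : h.choose = ⟨ρ, hρ⟩ := e.injective (Subtype.ext h2)
  rw [h3]

/-- There are functions in the product of rank at least any `α < lam⁺`. -/
theorem exists_large (J : NIdeal (Idx lam)) (α : Ordinal.{u}) (hα : α < (Order.succ lam).ord) :
    ∃ h : Idx lam → Ordinal.{u}, (∀ i, h i < ka lam i) ∧ RK J Set.univ h α := by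
  induction α using WellFoundedLT.induction with
  | ind α ih =>
    have h1 : ∀ β, ∃ h : Idx lam → Ordinal.{u}, β < α → (∀ i, h i < ka lam i) ∧ RK J Set.univ h β := by
      intro β
      by_cases hβ : β < α
      · obtain ⟨h, hh⟩ := ih β hβ (hβ.trans hα)
        exact ⟨h, fun _ => hh⟩
      · exact ⟨fun _ => 0, fun h => (hβ h).elim⟩
    choose H hH using h1
    obtain ⟨d, hd⟩ : ∃ s : Ordinal.{u} → Ordinal.{u}, ∀ ρ, ρ < α → ∃ x, x < lam.ord ∧ s x = ρ := by
      apply exists_surj'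
      rw [card_ord]
      exact Order.lt_succ_iff.1 (lt_ord.1 hα)
    have hpos : ∀ i : Idx lam, 0 < ka lam i := fun i => (isRegular_ka i).ord_pos
    refine ⟨fun i => ⨆ x : (th lam i).ToType,
      ((if d x.toOrd.1 < α then H (d x.toOrd.1) i else 0) + 1), ?_, ?_⟩
    · intro i
      apply Ordinal.iSup_add_one_lt_of_lt_cof
      · rw [ka, (isRegular_ka i).cof_ord, Cardinal.mk_toType]
        exact Order.lt_succ _
      · intro x
        split_ifs with h
        · exact (hH _ h).1 i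
        · exact hpos i
    · rw [RK_iff]
      intro β hβ
      refine ⟨H β, ?_, (hH β hβ).2⟩
      obtain ⟨x, hx, hdx⟩ := hd β hβ
      obtain ⟨i0, hi0⟩ := th_cofinal x hx
      refine J.mono ?_ (J.bdd i0)
      rintro i ⟨_, h2⟩
      by_contra hcon
      rw [mem_Iic, not_le] at hcon
      apply h2
      have h3 := Ordinal.le_iSup (fun x : (th lam i).ToType =>
        ((if d x.toOrd.1 < α then H (d x.toOrd.1) i else 0) + 1)) (ToType.mk ⟨x, hi0 i hcon⟩)
      refine lt_of_lt_of_le ?_ h3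
      simp only [ToType.toOrd, OrderIso.symm_apply_apply, hdx, hβ, if_true]
      exact lt_add_one _

/-- Shifted version of `exists_large`: values are successors. -/
theorem exists_large_succ (J : NIdeal (Idx lam)) (α : Ordinal.{u})
    (hα : α < (Order.succ lam).ord) :
    ∃ h : Idx lam → Ordinal.{u}, (∀ i, h i < ka lam i) ∧
      RK J Set.univ (fun i => h i + 1) (α + 1) := by
  obtain ⟨h, hh, hR⟩ := exists_large J α hα
  refine ⟨h, hh, hR.succ (J.mono ?_ J.empty_mem)⟩
  rintro i ⟨_, h1⟩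
  exact h1 (lt_add_one _)

theorem ka_succ {i : Idx lam} {η : Ordinal.{u}} (h : η < ka lam i) : η + 1 < ka lam i := by
  have h1 : Order.IsSuccLimit (ka lam i) := isSuccLimit_ord (isRegular_ka i).aleph0_le
  exact h1.add_one_lt h

/-! ### cardinalities -/

section Card

variable (hcof : ℵ₀ < lam.ord.cof)

include hcof

theorem aleph0_lt_lam : ℵ₀ < lam := hcof.trans_le (Ordinal.cof_ord_le lam)

theorem mk_LCode_le (h2 : ∀ ν < lam, ν ^ lam.ord.cof ≤ lam) : #(LCode lam) ≤ lam := by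
  have hinf : ℵ₀ ≤ lam := (aleph0_lt_lam hcof).le
  rw [mk_prod, Cardinal.lift_id, Cardinal.lift_id]
  refine (mul_le_mul' ?_ ?_).trans (mul_eq_self hinf).le
  · rw [mk_set, mk_Idx]
    exact h2 2 ((natCast_lt_aleph0 (n := 2)).trans_le hinf)
  · rw [mk_sigma]
    refine (Cardinal.sum_le_sum _ (fun _ => lam) ?_).trans ?_
    · intro ξ
      rw [← Cardinal.power_def, mk_Idx, Cardinal.mk_toType]
      exact h2 _ (card_th_lt hcof ξ)
    · rw [Cardinal.sum_const, Cardinal.lift_id, Cardinal.lift_id, mk_Idx]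
      exact (mul_le_mul' (Ordinal.cof_ord_le lam) le_rfl).trans (mul_eq_self hinf).le

/-- labels for the graph of a function in the product -/
abbrev LE (lam : Cardinal.{u}) : Type u := Σ i : Idx lam, (ka lam i).ToType

omit hcof in
theorem succ_card_th_le (hs : lam.IsSingular) (hcof : ℵ₀ < lam.ord.cof) (i : Idx lam) :
    Order.succ (th lam i).card < lam := hs.isSuccLimit.succ_lt (card_th_lt hcof i)

theorem mk_LE_le (hs : lam.IsSingular) : #(LE lam) ≤ lam := by
  have hinf : ℵ₀ ≤ lam := (aleph0_lt_lam hcof).le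
  rw [mk_sigma]
  refine (Cardinal.sum_le_sum _ (fun _ => lam) ?_).trans ?_
  · intro i
    rw [ka, mk_ord_toType]
    exact (succ_card_th_le hs hcof i).le
  · rw [Cardinal.sum_const, Cardinal.lift_id, Cardinal.lift_id, mk_Idx]
    exact (mul_le_mul' (Ordinal.cof_ord_le lam) le_rfl).trans (mul_eq_self hinf).le

/-- labels for projections -/
abbrev LP (lam : Cardinal.{u}) : Type u := Σ ξ : Idx lam, (Idx lam → LY lam ξ)

theorem mk_LP_le (hs : lam.IsSingular) (h2 : ∀ ν < lam, ν ^ lam.ord.cof ≤ lam) :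
    #(LP lam) ≤ lam := by
  have hinf : ℵ₀ ≤ lam := (aleph0_lt_lam hcof).le
  rw [mk_sigma]
  refine (Cardinal.sum_le_sum _ (fun _ => lam) ?_).trans ?_
  · intro ξ
    rw [← Cardinal.power_def, mk_Idx, mk_ord_toType]
    exact h2 _ (succ_card_th_le hs hcof ξ)
  · rw [Cardinal.sum_const, Cardinal.lift_id, Cardinal.lift_id, mk_Idx]
    exact (mul_le_mul' (Ordinal.cof_ord_le lam) le_rfl).trans (mul_eq_self hinf).le

omit hcof in
theorem mk_PIdeal_le (J : NIdeal (Idx lam)) (h1 : (2 : Cardinal.{u}) ^ ((2 : Cardinal.{u}) ^ lam.ord.cof) ≤ lam) :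
    #(PIdeal J) ≤ lam := by
  refine le_trans ?_ h1
  have h3 : #(Set (Set (Idx lam))) =
      (2 : Cardinal.{u}) ^ ((2 : Cardinal.{u}) ^ lam.ord.cof) := by
    rw [mk_set, mk_set, mk_Idx]
  rw [← h3]
  refine Cardinal.mk_le_of_injective (f := fun I : PIdeal J => I.1.sets) ?_
  intro I I' h
  exact Subtype.ext (NIdeal.ext' h)

end Card

end

end Pool.Agent.Helper98
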