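import Pool.Agent.Helper98.SigmaDefs

/-!
Levy hierarchy of formulas over `ZFSet` and a small calculus of `Σ₀` relations.
-/

universe u

namespace Pool.Agent.Helper98

/-- relations defined by `Σ₀` formulas -/
def D0 {n : ℕ} (R : (Fin n → ZFSet.{u}) → Prop) : Prop :=
  ∃ φ : Fml n, φ.IsSigmaZero ∧ ∀ v, φ.Sat v ↔ R v

/-- variable projections -/
def Var {n : ℕ} (t : (Fin n → ZFSet.{u}) → ZFSet.{u}) : Prop := ∃ i, t = fun v => v i

theorem Var.tail {n : ℕ} {t : (Fin n → ZFSet.{u}) → ZFSet.{u}} (h : Var t) :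
    Var (fun w : Fin (n + 1) → ZFSet.{u} => t (Fin.tail w)) := by
  obtain ⟨i, rfl⟩ := h
  exact ⟨i.succ, rfl⟩

theorem Var.zero {n : ℕ} : Var (fun w : Fin (n + 1) → ZFSet.{u} => w 0) := ⟨0, rfl⟩

variable {n : ℕ} {R S : (Fin n → ZFSet.{u}) → Prop}
  {a b c d e p q t : (Fin n → ZFSet.{u}) → ZFSet.{u}}

theorem D0.congr (h : D0 R) (h' : ∀ v, R v ↔ S v) : D0 S := by
  obtain ⟨φ, h1, h2⟩ := h
  exact ⟨φ, h1, fun v => (h2 v).trans (h' v)⟩

theorem D0.mem (ha : Var a) (hb : Var b) : D0 (fun v => a v ∈ b v) := by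
  obtain ⟨i, rfl⟩ := ha
  obtain ⟨j, rfl⟩ := hb
  exact ⟨.mem i j, .mem i j, fun v => Iff.rfl⟩

theorem D0.eq (ha : Var a) (hb : Var b) : D0 (fun v => a v = b v) := by
  obtain ⟨i, rfl⟩ := ha
  obtain ⟨j, rfl⟩ := hb
  exact ⟨.eq i j, .eq i j, fun v => Iff.rfl⟩

theorem D0.not (h : D0 R) : D0 (fun v => ¬ R v) := by
  obtain ⟨φ, h1, h2⟩ := h
  exact ⟨.neg φ, .neg h1, fun v => not_congr (h2 v)⟩

theorem D0.and (h : D0 R) (h' : D0 S) : D0 (fun v => R v ∧ S v) := by
  obtain ⟨φ, h1, h2⟩ := h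
  obtain ⟨ψ, h3, h4⟩ := h'
  exact ⟨.conj φ ψ, .conj h1 h3, fun v => and_congr (h2 v) (h4 v)⟩

theorem D0.or (h : D0 R) (h' : D0 S) : D0 (fun v => R v ∨ S v) :=
  (h.not.and h'.not).not.congr fun v => by tauto

theorem D0.imp (h : D0 R) (h' : D0 S) : D0 (fun v => R v → S v) :=
  (h.and h'.not).not.congr fun v => by tauto

theorem D0.iff (h : D0 R) (h' : D0 S) : D0 (fun v => R v ↔ S v) :=
  ((h.imp h').and (h'.imp h)).congr fun v => by tauto

theorem D0.bex (ha : Var a) {R : (Fin n → ZFSet.{u}) → ZFSet.{u} → Prop}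
    (h : D0 (fun w : Fin (n + 1) → ZFSet.{u} => R (Fin.tail w) (w 0))) :
    D0 (fun v => ∃ x ∈ a v, R v x) := by
  obtain ⟨i, rfl⟩ := ha
  obtain ⟨φ, h1, h2⟩ := h
  refine ⟨.ex (.conj (.mem 0 i.succ) φ), .bex i h1, fun v => ?_⟩
  refine exists_congr fun x => and_congr Iff.rfl ?_
  exact h2 (Fin.cons x v)

theorem D0.ball (ha : Var a) {R : (Fin n → ZFSet.{u}) → ZFSet.{u} → Prop}
    (h : D0 (fun w : Fin (n + 1) → ZFSet.{u} => R (Fin.tail w) (w 0))) :
    D0 (fun v => ∀ x ∈ a v, R v x) :=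
  (D0.bex (R := fun v x => ¬ R v x) ha h.not).not.congr fun v => by push Not; rfl

theorem D0.eqSingleton (ha : Var a) (hb : Var b) : D0 (fun v => a v = {b v}) := by
  refine ((D0.mem hb ha).and (D0.ball (R := fun v x => x = b v) ha (D0.eq .zero hb.tail))).congr ?_
  intro v
  constructor
  · rintro ⟨h1, h2⟩
    ext z
    rw [ZFSet.mem_singleton]
    constructor
    · exact h2 z
    · rintro rfl
      exact h1
  · intro h
    rw [h]
    simp

theorem D0.eqPair (ha : Var a) (hb : Var b) (hc : Var c) : D0 (fun v => a v = {b v, c v}) := by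
  refine ((D0.mem hb ha).and ((D0.mem hc ha).and (D0.ball (R := fun v x => x = b v ∨ x = c v) ha
    ((D0.eq .zero hb.tail).or (D0.eq .zero hc.tail))))).congr ?_
  intro v
  constructor
  · rintro ⟨h1, h2, h3⟩
    ext z
    rw [ZFSet.mem_pair]
    constructor
    · exact h3 z
    · rintro (rfl | rfl)
      · exact h1
      · exact h2
  · intro h
    rw [h]
    simp

theorem D0.eqOPair (ha : Var a) (hb : Var b) (hc : Var c) :
    D0 (fun v => a v = ZFSet.pair (b v) (c v)) := by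
  refine ((D0.ball (R := fun v x => x = {b v} ∨ x = {b v, c v}) ha
    ((D0.eqSingleton .zero hb.tail).or (D0.eqPair .zero hb.tail hc.tail))).and
    ((D0.bex (R := fun v x => x = {b v}) ha (D0.eqSingleton .zero hb.tail)).and
    (D0.bex (R := fun v x => x = {b v, c v}) ha (D0.eqPair .zero hb.tail hc.tail)))).congr ?_
  intro v
  constructor
  · rintro ⟨h1, ⟨x, hx, rfl⟩, ⟨y, hy, rfl⟩⟩
    ext z
    rw [ZFSet.pair, ZFSet.mem_pair]
    constructor
    · exact h1 z
    · rintro (rfl | rfl)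
      · exact hx
      · exact hy
  · intro h
    rw [h, ZFSet.pair]
    simp

theorem D0.pairMem (ha : Var a) (hb : Var b) (hc : Var c) :
    D0 (fun v => ZFSet.pair (a v) (b v) ∈ c v) := by
  refine (D0.bex (R := fun v x => x = ZFSet.pair (a v) (b v)) hc
    (D0.eqOPair .zero ha.tail hb.tail)).congr ?_
  intro v
  constructor
  · rintro ⟨x, hx, rfl⟩
    exact hx
  · intro h
    exact ⟨_, h, rfl⟩

theorem D0.tripMem (ha : Var a) (hb : Var b) (hc : Var c) (hd : Var d) :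
    D0 (fun v => ZFSet.pair (a v) (ZFSet.pair (b v) (c v)) ∈ d v) := by
  refine (D0.bex (R := fun v x => ∃ y ∈ x, ∃ z ∈ y, z = ZFSet.pair (b v) (c v) ∧
    x = ZFSet.pair (a v) z) hd ?_).congr ?_
  · refine D0.bex (R := fun w y => ∃ z ∈ y, z = ZFSet.pair (b (Fin.tail w)) (c (Fin.tail w)) ∧
      w 0 = ZFSet.pair (a (Fin.tail w)) z) .zero ?_
    refine D0.bex (R := fun w z => z = ZFSet.pair (b (Fin.tail (Fin.tail w)))
      (c (Fin.tail (Fin.tail w))) ∧ Fin.tail w 0 = ZFSet.pair (a (Fin.tail (Fin.tail w))) z)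
      .zero ?_
    exact (D0.eqOPair .zero hb.tail.tail.tail hc.tail.tail.tail).and
      (D0.eqOPair (Var.zero.tail.tail) ha.tail.tail.tail .zero)
  · intro v
    constructor
    · rintro ⟨x, hx, y, _, z, _, rfl, rfl⟩
      exact hx
    · intro h
      refine ⟨_, h, {a v, ZFSet.pair (b v) (c v)}, ?_, ZFSet.pair (b v) (c v), ?_, rfl, rfl⟩
      · rw [ZFSet.pair]
        simp
      · simp

theorem D0.eqEmpty (ha : Var a) : D0 (fun v => a v = ∅) := by
  refine (D0.ball (R := fun _ x => ¬ x = x) ha (D0.eq .zero .zero).not).congr ?_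
  intro v
  rw [ZFSet.eq_empty]
  constructor
  · intro h y hy
    exact h y hy rfl
  · intro h y hy
    exact (h y hy).elim

theorem D0.eqOne (ha : Var a) : D0 (fun v => a v = {∅}) := by
  refine ((D0.bex (R := fun _ x => x = ∅) ha (D0.eqEmpty .zero)).and
    (D0.ball (R := fun _ x => x = ∅) ha (D0.eqEmpty .zero))).congr ?_
  intro v
  constructor
  · rintro ⟨⟨x, hx, rfl⟩, h2⟩
    ext z
    rw [ZFSet.mem_singleton]
    constructor
    · exact h2 z
    · rintro rfl
      exact hx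
  · intro h
    rw [h]
    simp

end Pool.Agent.Helper98
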