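import Pool.Agent.Helper98.Levy

/-!
The `Σ₁` formula defining the bad colouring.
-/

universe u

namespace Pool.Agent.Helper98

open ZFSet (pair)

def LtR (h A φ' φ : ZFSet.{u}) : Prop := ∀ p ∈ h, pair p (pair φ' φ) ∈ A

def GoodR (h L G1 G2 : ZFSet.{u}) : Prop :=
  (∀ p ∈ h, p ∈ L) ∧ (∀ p ∈ h, ∀ q ∈ h, ¬ pair p q ∈ G1) ∧ (∀ p ∈ L, ∃ q ∈ h, pair p q ∈ G2)

def CorrR (ζ h R L A B : ZFSet.{u}) : Prop :=
  ∀ γ ∈ ζ, ∀ φ ∈ L, (pair φ γ ∈ R ↔ ∀ δ ∈ γ, ∀ J ∈ L,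
    ((∀ φ' ∈ L, LtR h A φ' φ → pair φ' δ ∈ R → pair J φ' ∈ B) → pair J φ ∈ B))

def BigR (R L B β : ZFSet.{u}) : Prop := ∀ J ∈ L, ∃ φ ∈ L, pair φ β ∈ R ∧ ¬ pair J φ ∈ B

def InvR (k R h L A B1 C α : ZFSet.{u}) : Prop :=
  ∃ φ ∈ L, ¬ pair k φ ∈ B1 ∧ pair φ α ∈ R ∧
    (∀ φ' ∈ L, LtR h A φ' φ → pair φ' α ∈ R → pair k φ' ∈ B1) ∧
    ∀ p ∈ h, pair p (pair k φ) ∈ C

def ColR (α β y R h L A B1 C : ZFSet.{u}) : Prop :=
  ∃ k ∈ L, (∀ k' ∈ k, (InvR k' R h L A B1 C α ↔ InvR k' R h L A B1 C β)) ∧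
    ((InvR k R h L A B1 C α ∧ ¬ InvR k R h L A B1 C β ∧ y = ∅) ∨
     (¬ InvR k R h L A B1 C α ∧ InvR k R h L A B1 C β ∧ y = {∅}))

/-- The matrix of the formula, with a bound `w` for the three witnesses. -/
def MatR (w α β y L A B C B1 G1 G2 : ZFSet.{u}) : Prop :=
  ∃ ζ ∈ w, ∃ h ∈ w, ∃ R ∈ w, (β ∈ ζ ∧ ∀ x ∈ β, x ∈ ζ) ∧ GoodR h L G1 G2 ∧ CorrR ζ h R L A B ∧
    BigR R L B β ∧ ColR α β y R h L A B1 C

variable {n : ℕ} {a b c d e p q t k R h L A B C B1 G1 G2 y α β ζ w :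
  (Fin n → ZFSet.{u}) → ZFSet.{u}}

theorem D0.ltR (ha : Var a) (hb : Var b) (hc : Var c) (hd : Var d) :
    D0 (fun v => LtR (a v) (b v) (c v) (d v)) :=
  D0.ball (R := fun v p => pair p (pair (c v) (d v)) ∈ b v) ha
    (D0.tripMem .zero hc.tail hd.tail hb.tail)

theorem D0.goodR (hh : Var h) (hL : Var L) (h1 : Var G1) (h2 : Var G2) :
    D0 (fun v => GoodR (h v) (L v) (G1 v) (G2 v)) := by
  refine D0.and ?_ (D0.and ?_ ?_)
  · exact D0.ball (R := fun v p => p ∈ L v) hh (D0.mem .zero hL.tail)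
  · refine D0.ball (R := fun v p => ∀ q ∈ h v, ¬ pair p q ∈ G1 v) hh ?_
    refine D0.ball (R := fun w q => ¬ pair (w 0) q ∈ G1 (Fin.tail w)) hh.tail ?_
    exact (D0.pairMem Var.zero.tail .zero h1.tail.tail).not
  · refine D0.ball (R := fun v p => ∃ q ∈ h v, pair p q ∈ G2 v) hL ?_
    refine D0.bex (R := fun w q => pair (w 0) q ∈ G2 (Fin.tail w)) hh.tail ?_
    exact (D0.pairMem Var.zero.tail .zero h2.tail.tail)

theorem D0.bigR (hR : Var R) (hL : Var L) (hB : Var B) (hβ : Var β) :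
    D0 (fun v => BigR (R v) (L v) (B v) (β v)) := by
  refine D0.ball (R := fun v J => ∃ φ ∈ L v, pair φ (β v) ∈ R v ∧ ¬ pair J φ ∈ B v) hL ?_
  refine D0.bex (R := fun w φ => pair φ (β (Fin.tail w)) ∈ R (Fin.tail w) ∧
    ¬ pair (w 0) φ ∈ B (Fin.tail w)) hL.tail ?_
  exact (D0.pairMem .zero hβ.tail.tail hR.tail.tail).and
    (D0.pairMem Var.zero.tail .zero hB.tail.tail).not

theorem D0.corrR (hζ : Var ζ) (hh : Var h) (hR : Var R) (hL : Var L) (hA : Var A) (hB : Var B) :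
    D0 (fun v => CorrR (ζ v) (h v) (R v) (L v) (A v) (B v)) := by
  refine D0.ball (R := fun v γ => ∀ φ ∈ L v, (pair φ γ ∈ R v ↔ ∀ δ ∈ γ, ∀ J ∈ L v,
    ((∀ φ' ∈ L v, LtR (h v) (A v) φ' φ → pair φ' δ ∈ R v → pair J φ' ∈ B v) →
      pair J φ ∈ B v))) hζ ?_
  refine D0.ball (R := fun w φ => (pair φ (w 0) ∈ R (Fin.tail w) ↔ ∀ δ ∈ w 0, ∀ J ∈ L (Fin.tail w),
    ((∀ φ' ∈ L (Fin.tail w), LtR (h (Fin.tail w)) (A (Fin.tail w)) φ' φ →
      pair φ' δ ∈ R (Fin.tail w) → pair J φ' ∈ B (Fin.tail w)) →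
      pair J φ ∈ B (Fin.tail w)))) hL.tail ?_
  refine (D0.pairMem .zero Var.zero.tail hR.tail.tail).iff ?_
  refine D0.ball (a := fun w => Fin.tail w 0) (R := fun w δ => ∀ J ∈ L (Fin.tail (Fin.tail w)),
    ((∀ φ' ∈ L (Fin.tail (Fin.tail w)), LtR (h (Fin.tail (Fin.tail w)))
      (A (Fin.tail (Fin.tail w))) φ' (w 0) →
      pair φ' δ ∈ R (Fin.tail (Fin.tail w)) → pair J φ' ∈ B (Fin.tail (Fin.tail w))) →
      pair J (w 0) ∈ B (Fin.tail (Fin.tail w)))) Var.zero.tail ?_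
  refine D0.ball (R := fun w J =>
    ((∀ φ' ∈ L (Fin.tail (Fin.tail (Fin.tail w))), LtR (h (Fin.tail (Fin.tail (Fin.tail w))))
      (A (Fin.tail (Fin.tail (Fin.tail w)))) φ' (Fin.tail w 0) →
      pair φ' (w 0) ∈ R (Fin.tail (Fin.tail (Fin.tail w))) →
      pair J φ' ∈ B (Fin.tail (Fin.tail (Fin.tail w)))) →
      pair J (Fin.tail w 0) ∈ B (Fin.tail (Fin.tail (Fin.tail w))))) hL.tail.tail.tail ?_
  refine D0.imp ?_ (D0.pairMem .zero Var.zero.tail.tail hB.tail.tail.tail.tail)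
  refine D0.ball (R := fun w φ' =>
    LtR (h (Fin.tail (Fin.tail (Fin.tail (Fin.tail w)))))
      (A (Fin.tail (Fin.tail (Fin.tail (Fin.tail w))))) φ' (Fin.tail (Fin.tail w) 0) →
      pair φ' (Fin.tail w 0) ∈ R (Fin.tail (Fin.tail (Fin.tail (Fin.tail w)))) →
      pair (w 0) φ' ∈ B (Fin.tail (Fin.tail (Fin.tail (Fin.tail w))))) hL.tail.tail.tail.tail ?_
  refine (D0.ltR hh.tail.tail.tail.tail.tail hA.tail.tail.tail.tail.tail .zero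
    Var.zero.tail.tail.tail).imp ?_
  exact (D0.pairMem .zero Var.zero.tail.tail hR.tail.tail.tail.tail.tail).imp
    (D0.pairMem Var.zero.tail .zero hB.tail.tail.tail.tail.tail)

theorem D0.invR (hk : Var k) (hR : Var R) (hh : Var h) (hL : Var L) (hA : Var A) (hB1 : Var B1)
    (hC : Var C) (hα : Var α) :
    D0 (fun v => InvR (k v) (R v) (h v) (L v) (A v) (B1 v) (C v) (α v)) := by
  refine D0.bex (R := fun v φ => ¬ pair (k v) φ ∈ B1 v ∧ pair φ (α v) ∈ R v ∧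
    (∀ φ' ∈ L v, LtR (h v) (A v) φ' φ → pair φ' (α v) ∈ R v → pair (k v) φ' ∈ B1 v) ∧
    ∀ p ∈ h v, pair p (pair (k v) φ) ∈ C v) hL ?_
  refine (D0.pairMem hk.tail .zero hB1.tail).not.and ((D0.pairMem .zero hα.tail hR.tail).and
    (D0.and ?_ ?_))
  · refine D0.ball (R := fun w φ' => LtR (h (Fin.tail w)) (A (Fin.tail w)) φ' (w 0) →
      pair φ' (α (Fin.tail w)) ∈ R (Fin.tail w) → pair (k (Fin.tail w)) φ' ∈ B1 (Fin.tail w))
      hL.tail ?_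
    exact (D0.ltR hh.tail.tail hA.tail.tail .zero Var.zero.tail).imp
      ((D0.pairMem .zero hα.tail.tail hR.tail.tail).imp
        (D0.pairMem hk.tail.tail .zero hB1.tail.tail))
  · refine D0.ball (R := fun w p => pair p (pair (k (Fin.tail w)) (w 0)) ∈ C (Fin.tail w))
      hh.tail ?_
    exact D0.tripMem .zero hk.tail.tail Var.zero.tail hC.tail.tail

theorem D0.colR (hα : Var α) (hβ : Var β) (hy : Var y) (hR : Var R) (hh : Var h) (hL : Var L)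
    (hA : Var A) (hB1 : Var B1) (hC : Var C) :
    D0 (fun v => ColR (α v) (β v) (y v) (R v) (h v) (L v) (A v) (B1 v) (C v)) := by
  refine D0.bex (R := fun v k => (∀ k' ∈ k, (InvR k' (R v) (h v) (L v) (A v) (B1 v) (C v) (α v) ↔
      InvR k' (R v) (h v) (L v) (A v) (B1 v) (C v) (β v))) ∧
    ((InvR k (R v) (h v) (L v) (A v) (B1 v) (C v) (α v) ∧
      ¬ InvR k (R v) (h v) (L v) (A v) (B1 v) (C v) (β v) ∧ y v = ∅) ∨
     (¬ InvR k (R v) (h v) (L v) (A v) (B1 v) (C v) (α v) ∧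
      InvR k (R v) (h v) (L v) (A v) (B1 v) (C v) (β v) ∧ y v = {∅}))) hL ?_
  refine D0.and ?_ ?_
  · refine D0.ball (R := fun w k' => (InvR k' (R (Fin.tail w)) (h (Fin.tail w)) (L (Fin.tail w))
      (A (Fin.tail w)) (B1 (Fin.tail w)) (C (Fin.tail w)) (α (Fin.tail w)) ↔
      InvR k' (R (Fin.tail w)) (h (Fin.tail w)) (L (Fin.tail w))
      (A (Fin.tail w)) (B1 (Fin.tail w)) (C (Fin.tail w)) (β (Fin.tail w)))) .zero ?_
    exact (D0.invR .zero hR.tail.tail hh.tail.tail hL.tail.tail hA.tail.tail hB1.tail.tail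
      hC.tail.tail hα.tail.tail).iff (D0.invR .zero hR.tail.tail hh.tail.tail hL.tail.tail
      hA.tail.tail hB1.tail.tail hC.tail.tail hβ.tail.tail)
  · have h1 := D0.invR .zero hR.tail hh.tail hL.tail hA.tail hB1.tail hC.tail hα.tail
    have h2 := D0.invR .zero hR.tail hh.tail hL.tail hA.tail hB1.tail hC.tail hβ.tail
    exact (h1.and (h2.not.and (D0.eqEmpty hy.tail))).or
      (h1.not.and (h2.and (D0.eqOne hy.tail)))

theorem D0.matR (hw : Var w) (hα : Var α) (hβ : Var β) (hy : Var y) (hL : Var L)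
    (hA : Var A) (hB : Var B) (hC : Var C) (hB1 : Var B1) (hG1 : Var G1) (hG2 : Var G2) :
    D0 (fun v => MatR (w v) (α v) (β v) (y v) (L v) (A v) (B v) (C v) (B1 v) (G1 v) (G2 v)) := by
  refine D0.bex (R := fun v ζ => ∃ h ∈ w v, ∃ R ∈ w v, (β v ∈ ζ ∧ ∀ x ∈ β v, x ∈ ζ) ∧
    GoodR h (L v) (G1 v) (G2 v) ∧ CorrR ζ h R (L v) (A v) (B v) ∧
    BigR R (L v) (B v) (β v) ∧ ColR (α v) (β v) (y v) R h (L v) (A v) (B1 v) (C v)) hw ?_
  refine D0.bex (R := fun v h => ∃ R ∈ w (Fin.tail v), (β (Fin.tail v) ∈ v 0 ∧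
      ∀ x ∈ β (Fin.tail v), x ∈ v 0) ∧
    GoodR h (L (Fin.tail v)) (G1 (Fin.tail v)) (G2 (Fin.tail v)) ∧
    CorrR (v 0) h R (L (Fin.tail v)) (A (Fin.tail v)) (B (Fin.tail v)) ∧
    BigR R (L (Fin.tail v)) (B (Fin.tail v)) (β (Fin.tail v)) ∧
    ColR (α (Fin.tail v)) (β (Fin.tail v)) (y (Fin.tail v)) R h (L (Fin.tail v)) (A (Fin.tail v))
      (B1 (Fin.tail v)) (C (Fin.tail v))) hw.tail ?_
  refine D0.bex (R := fun v R => (β (Fin.tail (Fin.tail v)) ∈ Fin.tail v 0 ∧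
      ∀ x ∈ β (Fin.tail (Fin.tail v)), x ∈ Fin.tail v 0) ∧
    GoodR (v 0) (L (Fin.tail (Fin.tail v))) (G1 (Fin.tail (Fin.tail v)))
      (G2 (Fin.tail (Fin.tail v))) ∧
    CorrR (Fin.tail v 0) (v 0) R (L (Fin.tail (Fin.tail v))) (A (Fin.tail (Fin.tail v)))
      (B (Fin.tail (Fin.tail v))) ∧
    BigR R (L (Fin.tail (Fin.tail v))) (B (Fin.tail (Fin.tail v))) (β (Fin.tail (Fin.tail v))) ∧
    ColR (α (Fin.tail (Fin.tail v))) (β (Fin.tail (Fin.tail v))) (y (Fin.tail (Fin.tail v))) R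
      (v 0) (L (Fin.tail (Fin.tail v))) (A (Fin.tail (Fin.tail v)))
      (B1 (Fin.tail (Fin.tail v))) (C (Fin.tail (Fin.tail v)))) hw.tail.tail ?_
  refine D0.and (D0.and (D0.mem hβ.tail.tail.tail Var.zero.tail.tail) ?_) ?_
  · exact D0.ball (R := fun v x => x ∈ Fin.tail (Fin.tail v) 0) hβ.tail.tail.tail
      (D0.mem .zero Var.zero.tail.tail.tail)
  · exact (D0.goodR Var.zero.tail hL.tail.tail.tail hG1.tail.tail.tail hG2.tail.tail.tail).and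
      ((D0.corrR Var.zero.tail.tail Var.zero.tail .zero hL.tail.tail.tail hA.tail.tail.tail
        hB.tail.tail.tail).and ((D0.bigR .zero hL.tail.tail.tail hB.tail.tail.tail
        hβ.tail.tail.tail).and (D0.colR hα.tail.tail.tail hβ.tail.tail.tail hy.tail.tail.tail .zero
        Var.zero.tail hL.tail.tail.tail hA.tail.tail.tail hB1.tail.tail.tail hC.tail.tail.tail)))

/-- The `Σ₁` formula. -/
theorem exists_sigma_one_formula : ∃ φ : Fml 11, φ.IsSigma 1 ∧ ∀ v : Fin 11 → ZFSet.{u},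
    φ.Sat v ↔ ∃ w, MatR w (v 0) (v 1) (v 2) (v 4) (v 5) (v 6) (v 7) (v 8) (v 9) (v 10) := by
  have h : D0 (fun w : Fin 12 → ZFSet.{u} =>
      MatR (w 0) (w 1) (w 2) (w 3) (w 5) (w 6) (w 7) (w 8) (w 9) (w 10) (w 11)) :=
    D0.matR ⟨0, rfl⟩ ⟨1, rfl⟩ ⟨2, rfl⟩ ⟨3, rfl⟩ ⟨5, rfl⟩ ⟨6, rfl⟩ ⟨7, rfl⟩ ⟨8, rfl⟩ ⟨9, rfl⟩
      ⟨10, rfl⟩ ⟨11, rfl⟩
  obtain ⟨ψ, h1, h2⟩ := h
  refine ⟨.ex (.neg (.neg ψ)), ⟨.neg ψ, .neg h1, rfl⟩, ?_⟩
  intro v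
  refine exists_congr fun w => ?_
  refine not_not.trans ?_
  exact h2 (Fin.cons w v)

end Pool.Agent.Helper98
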