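import Pool.Agent.Helper98.Ladder
import Pool.Agent.Helper98.Main1

/-!
Encoding of the combinatorial data into sets, and correctness of the formula.
-/

open Set Ordinal Cardinal

universe u

namespace Pool.Agent.Helper98

open ZFSet (pair)

/-- labels -/
abbrev TT (lam : Cardinal.{u}) : Type u := lam.ord.ToType

section Enc

variable {lam : Cardinal.{u}}

noncomputable def enc (t : TT lam) : ZFSet.{u} := (t.toOrd.1).toZFSet

theorem enc_mem_enc {s t : TT lam} : enc s ∈ enc t ↔ s < t := by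
  rw [enc, enc, Ordinal.toZFSet_mem_toZFSet_iff, Subtype.coe_lt_coe]
  exact OrderIso.lt_iff_lt _

theorem enc_injective : Function.Injective (enc : TT lam → ZFSet.{u}) := by
  intro s t h
  have h1 := Ordinal.toZFSet_injective h
  exact ToType.mk.symm.injective (Subtype.ext h1)

theorem mem_L_iff {x : ZFSet.{u}} : x ∈ lam.ord.toZFSet ↔ ∃ t : TT lam, enc t = x := by
  rw [Ordinal.mem_toZFSet_iff]
  constructor
  · rintro ⟨a, ha, rfl⟩
    refine ⟨ToType.mk ⟨a, ha⟩, ?_⟩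
    simp [enc, ToType.toOrd]
  · rintro ⟨t, rfl⟩
    exact ⟨t.toOrd.1, t.toOrd.2, rfl⟩

theorem enc_mem_L (t : TT lam) : enc t ∈ lam.ord.toZFSet := mem_L_iff.2 ⟨t, rfl⟩

theorem forall_mem_L {P : ZFSet.{u} → Prop} : (∀ x ∈ lam.ord.toZFSet, P x) ↔ ∀ t : TT lam, P (enc t) := by
  constructor
  · intro h t
    exact h _ (enc_mem_L t)
  · intro h x hx
    obtain ⟨t, rfl⟩ := mem_L_iff.1 hx
    exact h t

theorem exists_mem_L {P : ZFSet.{u} → Prop} : (∃ x ∈ lam.ord.toZFSet, P x) ↔ ∃ t : TT lam, P (enc t) := by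
  constructor
  · rintro ⟨x, hx, h⟩
    obtain ⟨t, rfl⟩ := mem_L_iff.1 hx
    exact ⟨t, h⟩
  · rintro ⟨t, h⟩
    exact ⟨_, enc_mem_L t, h⟩

theorem forall_mem_enc {P : ZFSet.{u} → Prop} {k : TT lam} :
    (∀ x ∈ enc k, P x) ↔ ∀ t : TT lam, t < k → P (enc t) := by
  constructor
  · intro h t ht
    exact h _ (enc_mem_enc.2 ht)
  · intro h x hx
    obtain ⟨a, ha, rfl⟩ := Ordinal.mem_toZFSet_iff.1 hx
    have h1 : a.toZFSet ∈ lam.ord.toZFSet :=
      Ordinal.toZFSet_mem_toZFSet_iff.2 (ha.trans k.toOrd.2)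
    obtain ⟨t, ht⟩ := mem_L_iff.1 h1
    rw [← ht] at hx ⊢
    exact h t (enc_mem_enc.1 hx)

/-- binary relations on labels as sets -/
noncomputable def rel2 (P : TT lam → TT lam → Prop) : ZFSet.{u} :=
  ZFSet.range (fun p : {p : TT lam × TT lam // P p.1 p.2} => pair (enc p.1.1) (enc p.1.2))

theorem pair_mem_rel2 {P : TT lam → TT lam → Prop} {a b : TT lam} :
    pair (enc a) (enc b) ∈ rel2 P ↔ P a b := by
  rw [rel2, ZFSet.mem_range]
  constructor
  · rintro ⟨⟨⟨x, y⟩, h⟩, h1⟩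
    obtain ⟨h2, h3⟩ := ZFSet.pair_inj.1 h1
    dsimp only at h h2 h3
    rw [enc_injective h2, enc_injective h3] at h
    exact h
  · intro h
    exact ⟨⟨⟨a, b⟩, h⟩, rfl⟩

/-- ternary relations on labels as sets -/
noncomputable def rel3 (P : TT lam → TT lam → TT lam → Prop) : ZFSet.{u} :=
  ZFSet.range (fun p : {p : TT lam × TT lam × TT lam // P p.1 p.2.1 p.2.2} =>
    pair (enc p.1.1) (pair (enc p.1.2.1) (enc p.1.2.2)))

theorem pair_mem_rel3 {P : TT lam → TT lam → TT lam → Prop} {a b c : TT lam} :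
    pair (enc a) (pair (enc b) (enc c)) ∈ rel3 P ↔ P a b c := by
  rw [rel3, ZFSet.mem_range]
  constructor
  · rintro ⟨⟨⟨x, y, z⟩, h⟩, h1⟩
    obtain ⟨h2, h3⟩ := ZFSet.pair_inj.1 h1
    obtain ⟨h3, h4⟩ := ZFSet.pair_inj.1 h3
    dsimp only at h h2 h3 h4
    rw [enc_injective h2, enc_injective h3, enc_injective h4] at h
    exact h
  · intro h
    exact ⟨⟨⟨a, b, c⟩, h⟩, rfl⟩

/-- relations between labels and ordinals below `b` -/
noncomputable def relO (b : Ordinal.{u}) (P : TT lam → Ordinal.{u} → Prop) : ZFSet.{u} :=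
  ZFSet.range (fun p : {p : TT lam × b.ToType // P p.1 p.2.toOrd.1} =>
    pair (enc p.1.1) (p.1.2.toOrd.1).toZFSet)

theorem pair_mem_relO {b : Ordinal.{u}} {P : TT lam → Ordinal.{u} → Prop} {a : TT lam}
    {c : Ordinal.{u}} (hc : c < b) : pair (enc a) c.toZFSet ∈ relO b P ↔ P a c := by
  rw [relO, ZFSet.mem_range]
  constructor
  · rintro ⟨⟨⟨x, y⟩, h⟩, h1⟩
    obtain ⟨h2, h3⟩ := ZFSet.pair_inj.1 h1
    dsimp only at h h2 h3
    rw [enc_injective h2, Ordinal.toZFSet_injective h3] at h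
    exact h
  · intro h
    refine ⟨⟨⟨a, ToType.mk ⟨c, hc⟩⟩, ?_⟩, ?_⟩
    · simpa [ToType.toOrd] using h
    · simp [ToType.toOrd]

end Enc

section Correct

variable {lam : Cardinal.{u}} (J : NIdeal (Idx lam))
  (π : (ξ : Idx lam) → Idx lam → Ordinal.{u} → LY lam ξ)
  (dE : TT lam → LE lam) (dC : TT lam → LCode lam) (dJ : TT lam → PIdeal J)
  (dK : TT lam → PIdeal J × LP lam)

/-- the value (shifted by one) of a label for graph points -/
noncomputable def vE (p : TT lam) : Ordinal.{u} := (dE p).2.toOrd.1 + 1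

noncomputable def pA : ZFSet.{u} := rel3 (fun p φ' φ : TT lam =>
  (dE p).1 ∈ (LData lam).dom (dC φ') → (dE p).1 ∈ (LData lam).dom (dC φ) ∧
    (LData lam).S (dE p).1 (vE dE p) ((LData lam).val (dC φ') (dE p).1) <
    (LData lam).S (dE p).1 (vE dE p) ((LData lam).val (dC φ) (dE p).1))

noncomputable def pB : ZFSet.{u} := rel2 (fun k φ : TT lam =>
  (LData lam).dom (dC φ) ∈ (dJ k).1.sets)

noncomputable def pC : ZFSet.{u} := rel3 (fun p k φ : TT lam =>
  (dE p).1 ∈ (LData lam).dom (dC φ) →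
    π (dK k).2.1 (dE p).1 ((LData lam).S (dE p).1 (vE dE p) ((LData lam).val (dC φ) (dE p).1)) =
    (dK k).2.2 (dE p).1)

noncomputable def pB1 : ZFSet.{u} := rel2 (fun k φ : TT lam =>
  (LData lam).dom (dC φ) ∈ (dK k).1.1.sets)

noncomputable def pG1 : ZFSet.{u} := rel2 (fun p q : TT lam =>
  (dE p).1 = (dE q).1 ∧ dE p ≠ dE q)

noncomputable def pG2 : ZFSet.{u} := rel2 (fun p q : TT lam => (dE p).1 = (dE q).1)

variable {J π dE dC dJ dK}

/-- `h` codes the graph of `hf`, whose values are shifted by one. -/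
structure Dec (dE : TT lam → LE lam) (h : ZFSet.{u}) (hf : Idx lam → Ordinal.{u}) : Prop where
  sub : ∀ p ∈ h, p ∈ lam.ord.toZFSet
  val : ∀ t : TT lam, enc t ∈ h → vE dE t = hf (dE t).1
  ex : ∀ i, ∃ t : TT lam, enc t ∈ h ∧ (dE t).1 = i

theorem Dec.forall_iff {h : ZFSet.{u}} {hf : Idx lam → Ordinal.{u}} (H : Dec dE h hf)
    {Q : ZFSet.{u} → Prop} {P : Idx lam → Ordinal.{u} → Prop}
    (hQ : ∀ t : TT lam, Q (enc t) ↔ P (dE t).1 (vE dE t)) :
    (∀ p ∈ h, Q p) ↔ ∀ i, P i (hf i) := by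
  constructor
  · intro h1 i
    obtain ⟨t, ht, rfl⟩ := H.ex i
    rw [← H.val t ht]
    exact (hQ t).1 (h1 _ ht)
  · intro h1 p hp
    obtain ⟨t, rfl⟩ := mem_L_iff.1 (H.sub p hp)
    rw [hQ, H.val t hp]
    exact h1 _

theorem Dec.pos {h : ZFSet.{u}} {hf : Idx lam → Ordinal.{u}} (H : Dec dE h hf) (i : Idx lam) :
    0 < hf i := by
  obtain ⟨t, ht, rfl⟩ := H.ex i
  rw [← H.val t ht, vE]
  exact Order.lt_add_one_iff.2 zero_le

theorem Dec.lt {h : ZFSet.{u}} {hf : Idx lam → Ordinal.{u}} (H : Dec dE h hf) (i : Idx lam) :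
    hf i < (LData lam).κ i := by
  obtain ⟨t, ht, rfl⟩ := H.ex i
  rw [← H.val t ht, vE]
  exact ka_succ (dE t).2.toOrd.2

theorem exists_dec (hE : Function.Surjective dE) {h : ZFSet.{u}}
    (H : GoodR h lam.ord.toZFSet (pG1 dE) (pG2 dE)) : ∃ hf, Dec dE h hf := by
  obtain ⟨h1, h2, h3⟩ := H
  have h4 : ∀ i : Idx lam, ∃ t : TT lam, enc t ∈ h ∧ (dE t).1 = i := by
    intro i
    have h5 : 0 < ka lam i := (isRegular_ka i).ord_pos
    obtain ⟨p, hp⟩ := hE ⟨i, ToType.mk ⟨0, h5⟩⟩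
    obtain ⟨q, hq, hq'⟩ := h3 _ (enc_mem_L p)
    obtain ⟨t, rfl⟩ := mem_L_iff.1 (h1 q hq)
    rw [pG2, pair_mem_rel2] at hq'
    refine ⟨t, hq, ?_⟩
    rw [← hq', hp]
  choose G hG1 hG2 using h4
  refine ⟨fun i => vE dE (G i), h1, ?_, fun i => ⟨G i, hG1 i, hG2 i⟩⟩
  intro t ht
  have h5 := h2 _ ht _ (hG1 (dE t).1)
  rw [pG1, pair_mem_rel2, not_and, not_not] at h5
  have h6 := h5 (hG2 _).symm
  change vE dE t = vE dE (G (dE t).1)
  rw [vE, vE, ← h6]

theorem Dec.good {h : ZFSet.{u}} {hf : Idx lam → Ordinal.{u}} (H : Dec dE h hf) :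
    GoodR h lam.ord.toZFSet (pG1 dE) (pG2 dE) := by
  refine ⟨H.sub, ?_, ?_⟩
  · intro p hp q hq
    obtain ⟨s, rfl⟩ := mem_L_iff.1 (H.sub p hp)
    obtain ⟨t, rfl⟩ := mem_L_iff.1 (H.sub q hq)
    rw [pG1, pair_mem_rel2]
    rintro ⟨h1, h2⟩
    apply h2
    have h3 := H.val s hp
    have h4 := H.val t hq
    rw [h1, ← h4, vE, vE] at h3
    have h5 : (dE s).2.toOrd.1 = (dE t).2.toOrd.1 := by
      simpa using h3
    revert h1 h5
    generalize dE s = x
    generalize dE t = y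
    obtain ⟨i, x⟩ := x
    obtain ⟨j, y⟩ := y
    intro h1 h5
    dsimp only at h1
    subst h1
    dsimp only at h5
    rw [ToType.mk.symm.injective (Subtype.ext h5)]
  · rw [forall_mem_L]
    intro p
    obtain ⟨t, ht, ht'⟩ := H.ex (dE p).1
    refine ⟨enc t, ht, ?_⟩
    rw [pG2, pair_mem_rel2, ht']

theorem exists_dec_of (hE : Function.Surjective dE) {hf : Idx lam → Ordinal.{u}}
    (hlt : ∀ i, hf i < ka lam i) : ∃ h, Dec dE h (fun i => hf i + 1) := by
  refine ⟨ZFSet.range (fun t : {t : TT lam // vE dE t = hf (dE t).1 + 1} => enc t.1), ?_, ?_, ?_⟩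
  · intro p hp
    obtain ⟨t, rfl⟩ := ZFSet.mem_range.1 hp
    exact enc_mem_L _
  · intro t ht
    obtain ⟨s, hs⟩ := ZFSet.mem_range.1 ht
    rw [← enc_injective hs]
    exact s.2
  · intro i
    obtain ⟨t, ht⟩ := hE ⟨i, ToType.mk ⟨hf i, hlt i⟩⟩
    have h1 : vE dE t = hf (dE t).1 + 1 := by
      rw [vE, ht]
      simp [ToType.toOrd]
    exact ⟨t, ZFSet.mem_range.2 ⟨⟨t, h1⟩, rfl⟩, by rw [ht]⟩

theorem Dec.ltR_iff {h : ZFSet.{u}} {hf : Idx lam → Ordinal.{u}} (H : Dec dE h hf)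
    (a b : TT lam) : LtR h (pA dE dC) (enc a) (enc b) ↔ (LData lam).Below hf (dC a) (dC b) := by
  refine H.forall_iff (Q := fun p => pair p (pair (enc a) (enc b)) ∈ pA dE dC)
    (P := fun i v => i ∈ (LData lam).dom (dC a) → i ∈ (LData lam).dom (dC b) ∧
    (LData lam).S i v ((LData lam).val (dC a) i) < (LData lam).S i v ((LData lam).val (dC b) i)) ?_
  intro t
  rw [pA, pair_mem_rel3]

/-- `R` is correct below `b` (inclusive) -/
def RGood (J : NIdeal (Idx lam)) (dC : TT lam → LCode lam) (hf : Idx lam → Ordinal.{u})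
    (R : ZFSet.{u}) (b : Ordinal.{u}) : Prop :=
  ∀ γ, γ ≤ b → ∀ a : TT lam, (pair (enc a) γ.toZFSet ∈ R ↔
    RK J ((LData lam).dom (dC a)) ((LData lam).ev hf (dC a)) γ)

theorem forall_mem_ord {γ : Ordinal.{u}} {P : ZFSet.{u} → Prop} :
    (∀ x ∈ γ.toZFSet, P x) ↔ ∀ δ, δ < γ → P δ.toZFSet := by
  constructor
  · intro h δ hδ
    exact h _ (Ordinal.toZFSet_mem_toZFSet_iff.2 hδ)
  · intro h x hx
    obtain ⟨δ, hδ, rfl⟩ := Ordinal.mem_toZFSet_iff.1 hx
    exact h δ hδ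

theorem local_rec' (hhcof : ℵ₀ < lam.ord.cof) {hf : Idx lam → Ordinal.{u}}
    (hh : ∀ i, hf i < (LData lam).κ i) (hpos : ∀ i, 0 < hf i)
    (hC : Function.Surjective dC) (hJs : Function.Surjective dJ) (a : TT lam) (γ : Ordinal.{u}) :
    RK J ((LData lam).dom (dC a)) ((LData lam).ev hf (dC a)) γ ↔
      ∀ δ, δ < γ → ∀ k : TT lam, ((∀ a' : TT lam, (LData lam).Below hf (dC a') (dC a) →
        RK J ((LData lam).dom (dC a')) ((LData lam).ev hf (dC a')) δ →
        (LData lam).dom (dC a') ∈ (dJ k).1.sets) → (LData lam).dom (dC a) ∈ (dJ k).1.sets) := by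
  have := Idx_infinite hhcof
  refine (CodeData.local_rec (D := LData lam) hh hpos (dC a) γ).trans ?_
  refine forall_congr' fun δ => imp_congr Iff.rfl ?_
  constructor
  · intro h k h1
    refine h (dJ k) fun φ' => ?_
    obtain ⟨a', rfl⟩ := hC φ'
    exact h1 a'
  · intro h I
    obtain ⟨k, rfl⟩ := hJs I
    intro h1
    exact h k fun a' => h1 _

theorem Dec.corr_imp (hhcof : ℵ₀ < lam.ord.cof) {h R ζ : ZFSet.{u}}
    {hf : Idx lam → Ordinal.{u}} (H : Dec dE h hf)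
    (hC : Function.Surjective dC) (hJs : Function.Surjective dJ) {b : Ordinal.{u}}
    (h1 : b.toZFSet ∈ ζ) (h2 : ∀ x ∈ b.toZFSet, x ∈ ζ)
    (h3 : CorrR ζ h R lam.ord.toZFSet (pA dE dC) (pB J dC dJ)) : RGood J dC hf R b := by
  intro γ
  induction γ using WellFoundedLT.induction with
  | ind γ ih =>
    intro hγ a
    have hζ : γ.toZFSet ∈ ζ := by
      rcases hγ.eq_or_lt with h4 | h4
      · rw [h4]
        exact h1
      · exact h2 _ (Ordinal.toZFSet_mem_toZFSet_iff.2 h4)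
    rw [h3 _ hζ _ (enc_mem_L a), local_rec' hhcof H.lt H.pos hC hJs, forall_mem_ord]
    refine forall_congr' fun δ => forall_congr' fun hδ => ?_
    rw [forall_mem_L]
    refine forall_congr' fun k => imp_congr ?_ ?_
    · rw [forall_mem_L]
      refine forall_congr' fun a' => ?_
      rw [H.ltR_iff, ih δ hδ (hδ.le.trans hγ), pB, pair_mem_rel2]
    · rw [pB, pair_mem_rel2]

theorem Dec.corr_of (hhcof : ℵ₀ < lam.ord.cof) {h R : ZFSet.{u}}
    {hf : Idx lam → Ordinal.{u}} (H : Dec dE h hf)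
    (hC : Function.Surjective dC) (hJs : Function.Surjective dJ) {b : Ordinal.{u}}
    (h3 : RGood J dC hf R b) :
    CorrR (b + 1).toZFSet h R lam.ord.toZFSet (pA dE dC) (pB J dC dJ) := by
  unfold CorrR
  rw [forall_mem_ord]
  intro γ hγ
  rw [forall_mem_L]
  intro a
  rw [Order.lt_add_one_iff] at hγ
  rw [h3 γ hγ, local_rec' hhcof H.lt H.pos hC hJs, forall_mem_ord]
  refine forall_congr' fun δ => forall_congr' fun hδ => ?_
  rw [forall_mem_L]
  refine forall_congr' fun k => imp_congr ?_ ?_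
  · rw [forall_mem_L]
    refine forall_congr' fun a' => ?_
    rw [H.ltR_iff, h3 δ (hδ.le.trans hγ), pB, pair_mem_rel2]
  · rw [pB, pair_mem_rel2]

theorem Dec.big_iff (hhcof : ℵ₀ < lam.ord.cof) {h R : ZFSet.{u}}
    {hf : Idx lam → Ordinal.{u}} (H : Dec dE h hf)
    (hC : Function.Surjective dC) (hJs : Function.Surjective dJ) {b : Ordinal.{u}}
    (h3 : RGood J dC hf R b) :
    BigR R lam.ord.toZFSet (pB J dC dJ) b.toZFSet ↔ RK J Set.univ hf (b + 1) := by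
  have := Idx_infinite hhcof
  rw [CodeData.local_big H.lt H.pos, BigR, forall_mem_L]
  constructor
  · intro h4 I
    obtain ⟨k, rfl⟩ := hJs I
    obtain ⟨x, hx, h5, h6⟩ := h4 k
    obtain ⟨a, rfl⟩ := mem_L_iff.1 hx
    rw [pB, pair_mem_rel2] at h6
    exact ⟨dC a, (h3 b le_rfl a).1 h5, h6⟩
  · intro h4 k
    obtain ⟨φ, h5, h6⟩ := h4 (dJ k)
    obtain ⟨a, rfl⟩ := hC φ
    refine ⟨enc a, enc_mem_L a, (h3 b le_rfl a).2 h5, ?_⟩
    rw [pB, pair_mem_rel2]
    exact h6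

/-- the truth value of the invariant with label `k` at the ordinal `a` -/
def sInv (π : (ξ : Idx lam) → Idx lam → Ordinal.{u} → LY lam ξ)
    (dK : TT lam → PIdeal J × LP lam) (a : Ordinal.{u}) (k : TT lam) : Prop :=
  (LData lam).Inv J a (dK k).1 (fun i η => π (dK k).2.1 i η = (dK k).2.2 i)

theorem Dec.inv_iff (hhcof : ℵ₀ < lam.ord.cof) {h R : ZFSet.{u}}
    {hf : Idx lam → Ordinal.{u}} (H : Dec dE h hf)
    (hC : Function.Surjective dC) {b : Ordinal.{u}}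
    (h3 : RGood J dC hf R b) (h4 : RK J Set.univ hf (b + 1)) {a : Ordinal.{u}} (hab : a ≤ b)
    (k : TT lam) :
    InvR (enc k) R h lam.ord.toZFSet (pA dE dC) (pB1 J dC dK) (pC J π dE dC dK) a.toZFSet ↔
      sInv π dK a k := by
  have := Idx_infinite hhcof
  have h5 : RK J Set.univ hf (a + 1) := h4.mono_rank (by simpa using hab)
  rw [sInv, CodeData.local_inv H.lt H.pos h5, InvR, exists_mem_L]
  have key : ∀ c : TT lam, ((¬ pair (enc k) (enc c) ∈ pB1 J dC dK ∧ pair (enc c) a.toZFSet ∈ R ∧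
      (∀ φ' ∈ lam.ord.toZFSet, LtR h (pA dE dC) φ' (enc c) → pair φ' a.toZFSet ∈ R →
        pair (enc k) φ' ∈ pB1 J dC dK) ∧
      ∀ p ∈ h, pair p (pair (enc k) (enc c)) ∈ pC J π dE dC dK) ↔
      ((LData lam).dom (dC c) ∉ (dK k).1.1.sets ∧
      RK J ((LData lam).dom (dC c)) ((LData lam).ev hf (dC c)) a ∧
      (∀ φ' : (LData lam).Code, (LData lam).Below hf φ' (dC c) →
        RK J ((LData lam).dom φ') ((LData lam).ev hf φ') a → (LData lam).dom φ' ∈ (dK k).1.1.sets) ∧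
      ∀ i ∈ (LData lam).dom (dC c), π (dK k).2.1 i ((LData lam).ev hf (dC c) i) = (dK k).2.2 i)) := by
    intro c
    refine and_congr ?_ (and_congr (h3 a hab c) (and_congr ?_ ?_))
    · rw [pB1, pair_mem_rel2]
    · rw [forall_mem_L]
      constructor
      · intro h6 φ'
        obtain ⟨a', rfl⟩ := hC φ'
        intro h7 h8
        have h9 := h6 a' ((H.ltR_iff _ _).2 h7) ((h3 a hab a').2 h8)
        rw [pB1, pair_mem_rel2] at h9
        exact h9
      · intro h6 a' h7 h8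
        rw [pB1, pair_mem_rel2]
        exact h6 _ ((H.ltR_iff _ _).1 h7) ((h3 a hab a').1 h8)
    · refine H.forall_iff (Q := fun p => pair p (pair (enc k) (enc c)) ∈ pC J π dE dC dK)
        (P := fun i v => i ∈ (LData lam).dom (dC c) → π (dK k).2.1 i
          ((LData lam).S i v ((LData lam).val (dC c) i)) = (dK k).2.2 i) ?_
      intro t
      rw [pC, pair_mem_rel3]
  constructor
  · rintro ⟨c, hc⟩
    exact ⟨dC c, (key c).1 hc⟩
  · rintro ⟨φ, hφ⟩
    obtain ⟨c, rfl⟩ := hC φ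
    exact ⟨c, (key c).2 hφ⟩

theorem Dec.col_iff (hhcof : ℵ₀ < lam.ord.cof) {h R : ZFSet.{u}}
    {hf : Idx lam → Ordinal.{u}} (H : Dec dE h hf)
    (hC : Function.Surjective dC) {b : Ordinal.{u}}
    (h3 : RGood J dC hf R b) (h4 : RK J Set.univ hf (b + 1)) {a : Ordinal.{u}} (hab : a ≤ b)
    (y : ZFSet.{u}) :
    ColR a.toZFSet b.toZFSet y R h lam.ord.toZFSet (pA dE dC) (pB1 J dC dK)
      (pC J π dE dC dK) ↔
      ∃ k : TT lam, (∀ k' < k, (sInv π dK a k' ↔ sInv π dK b k')) ∧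
        ((sInv π dK a k ∧ ¬ sInv π dK b k ∧ y = ∅) ∨
          (¬ sInv π dK a k ∧ sInv π dK b k ∧ y = {∅})) := by
  rw [ColR, exists_mem_L]
  refine exists_congr fun k => ?_
  rw [forall_mem_enc, H.inv_iff hhcof hC h3 h4 hab, H.inv_iff hhcof hC h3 h4 le_rfl]
  refine and_congr ?_ Iff.rfl
  refine forall_congr' fun k' => imp_congr Iff.rfl ?_
  rw [H.inv_iff hhcof hC h3 h4 hab, H.inv_iff hhcof hC h3 h4 le_rfl]

theorem mat_iff (hhcof : ℵ₀ < lam.ord.cof) (hE : Function.Surjective dE)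
    (hC : Function.Surjective dC) (hJs : Function.Surjective dJ) {a b : Ordinal.{u}}
    (hab : a ≤ b) (hb : b < (Order.succ lam).ord) (y : ZFSet.{u}) :
    (∃ w, MatR w a.toZFSet b.toZFSet y lam.ord.toZFSet (pA dE dC) (pB J dC dJ)
      (pC J π dE dC dK) (pB1 J dC dK) (pG1 dE) (pG2 dE)) ↔
      ∃ k : TT lam, (∀ k' < k, (sInv π dK a k' ↔ sInv π dK b k')) ∧
        ((sInv π dK a k ∧ ¬ sInv π dK b k ∧ y = ∅) ∨
          (¬ sInv π dK a k ∧ sInv π dK b k ∧ y = {∅})) := by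
  constructor
  · rintro ⟨w, ζ, _, h, _, R, _, ⟨h1, h2⟩, h3, h4, h5, h6⟩
    obtain ⟨hf, H⟩ := exists_dec hE h3
    have h7 := H.corr_imp hhcof hC hJs h1 h2 h4
    have h8 := (H.big_iff hhcof hC hJs h7).1 h5
    exact (H.col_iff hhcof hC h7 h8 hab y).1 h6
  · intro h0
    obtain ⟨hf, h1, h2⟩ := exists_large_succ J b hb
    obtain ⟨h, H⟩ := exists_dec_of hE h1
    obtain ⟨R, hR⟩ : ∃ R, R = relO (lam := lam) (b + 1) (fun a γ =>
      RK J ((LData lam).dom (dC a)) ((LData lam).ev (fun i => hf i + 1) (dC a)) γ) := ⟨_, rfl⟩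
    have h7 : RGood J dC (fun i => hf i + 1) R b := by
      intro γ hγ a
      rw [hR, pair_mem_relO (Order.lt_add_one_iff.2 hγ)]
    refine ⟨{(b + 1).toZFSet, h, R}, (b + 1).toZFSet, by simp, h, by simp, R, by simp, ⟨?_, ?_⟩,
      H.good, H.corr_of hhcof hC hJs h7, (H.big_iff hhcof hC hJs h7).2 h2,
      (H.col_iff hhcof hC h7 h2 hab y).2 h0⟩
    · exact Ordinal.toZFSet_mem_toZFSet_iff.2 (lt_add_one b)
    · rw [forall_mem_ord]
      intro δ hδ
      exact Ordinal.toZFSet_mem_toZFSet_iff.2 (hδ.trans (lt_add_one b))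

end Correct

end Pool.Agent.Helper98
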