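import Pool.Agent.Helper98.Core

/-!
The nonstationary ideal is a proper normal ideal.
-/

open Set Ordinal Cardinal

universe u

namespace Pool.Agent.Helper98

variable {ι : Type u} [LinearOrder ι] [WellFoundedLT ι]

theorem isClub_diag (hα : ℵ₀ < Order.cof ι) (hc : ∀ i : ι, #(Iic i) < Order.cof ι)
    {C : ι → Set ι} (hC : ∀ ξ, IsClub (C ξ)) : IsClub {i | ∀ ξ, ξ < i → i ∈ C ξ} := by
  have hne : Nonempty ι := by
    by_contra h
    rw [not_nonempty_iff] at h
    have h2 : Order.cof ι = 0 := by simp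
    rw [h2] at hα
    exact (not_lt_zero' hα).elim
  constructor
  · intro d hd hd0 _ a ha ξ hξ
    obtain ⟨x, hx, hξx⟩ := (lt_isLUB_iff ha).1 hξ
    refine (hC ξ).isLUB_mem (t := {x ∈ d | ξ < x}) ?_ ⟨x, hx, hξx⟩ ?_
    · intro y hy
      exact hd hy.1 ξ hy.2
    · constructor
      · intro y hy
        exact ha.1 hy.1
      · intro y hy
        refine ha.2 ?_
        intro z hz
        by_cases h : ξ < z
        · exact hy ⟨hz, h⟩
        · exact (not_lt.1 h).trans (hξx.le.trans (hy ⟨hx, hξx⟩))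
  · intro a
    have h1 : ∀ b : ι, ∃ c, b ≤ c ∧ ∀ ξ, ξ ≤ b → c ∈ C ξ := by
      intro b
      have h2 : IsClub (⋂ ξ : Iic b, C ξ.1) := by
        refine IsClub.iInter hα.ne' ?_ (fun ξ => hC ξ.1)
        rw [Cardinal.lift_lt]
        exact hc b
      obtain ⟨c, hc1, hc2⟩ := h2.isCofinal b
      refine ⟨c, hc2, ?_⟩
      intro ξ hξ
      rw [mem_iInter] at hc1
      exact hc1 ⟨ξ, hξ⟩
    choose F hF1 hF2 using h1
    let g : ℕ → ι := fun n => Nat.rec a (fun _ b => F b) n
    have hg0 : g 0 = a := rfl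
    have hgs : ∀ n, g (n + 1) = F (g n) := fun n => rfl
    have hmono : Monotone g := by
      apply monotone_nat_of_le_succ
      intro n
      rw [hgs]
      exact hF1 _
    have hb : BddAbove (range g) := by
      refine .of_not_isCofinal fun hg => (Order.cof_le hg).not_gt (hα.trans_le' ?_)
      simpa using mk_range_le_lift (f := g)
    obtain ⟨b, hb1⟩ : ∃ b, IsLUB (range g) b := by
      obtain ⟨b, hb1, hb2⟩ := (wellFounded_lt (α := ι)).has_min (upperBounds (range g)) hb
      exact ⟨b, hb1, fun c hc => not_lt.1 (hb2 c hc)⟩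
    refine ⟨b, ?_, hb1.1 ⟨0, rfl⟩⟩
    intro ξ hξ
    obtain ⟨_, ⟨n, rfl⟩, hn⟩ := (lt_isLUB_iff hb1).1 hξ
    refine (hC ξ).isLUB_mem (t := {x | ∃ m, n < m ∧ g m = x}) ?_ ⟨_, n + 1, Nat.lt_succ_self n, rfl⟩ ?_
    · rintro x ⟨m, hm, rfl⟩
      obtain ⟨k, rfl⟩ : ∃ k, m = k + 1 := ⟨m - 1, by omega⟩
      rw [hgs]
      exact hF2 _ _ (hn.le.trans (hmono (by omega)))
    · constructor
      · rintro x ⟨m, _, rfl⟩
        exact hb1.1 ⟨m, rfl⟩
      · intro y hy
        refine hb1.2 ?_
        rintro x ⟨m, rfl⟩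
        exact (hmono (by omega : m ≤ m + n + 1)).trans (hy ⟨m + n + 1, by omega, rfl⟩)

/-- The nonstationary ideal. -/
def NS (hα : ℵ₀ < Order.cof ι) (hc : ∀ i : ι, #(Iic i) < Order.cof ι) : NIdeal ι where
  sets := {A | ¬ IsStationary A}
  empty_mem := not_isStationary_empty
  mono := fun h h1 h2 => h1 (h2.mono h)
  bdd := by
    intro i hi
    have h1 : IsClub {j | ∀ ξ, ξ < j → j ∈ (Ioi i : Set ι)} := by
      refine isClub_diag hα hc ?_
      intro _
      constructor
      · intro d hd hd0 _ a ha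
        obtain ⟨x, hx⟩ := hd0
        exact lt_of_lt_of_le (hd hx) (ha.1 hx)
      · intro a
        by_contra hcon
        push Not at hcon
        have h2 : IsCofinal (Iic (max a i)) := by
          intro b
          by_cases h : b ≤ max a i
          · exact ⟨b, h, le_rfl⟩
          · exfalso
            have h3 := not_le.1 h
            exact absurd ((le_max_left a i).trans h3.le) (not_le.2 (hcon b ((le_max_right a i).trans_lt h3)))
        exact (Order.cof_le h2).not_gt (hc _)
    obtain ⟨x, hx⟩ : ∃ x : ι, i < x := by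
      by_contra hcon
      push Not at hcon
      have h2 : IsCofinal (Iic i) := fun b => ⟨i, le_rfl, hcon b⟩
      exact (Order.cof_le h2).not_gt (hc _)
    -- the tail is a club
    have h3 : IsClub (Ioi i : Set ι) := by
      constructor
      · intro d hd hd0 _ a ha
        obtain ⟨x, hx⟩ := hd0
        exact lt_of_lt_of_le (hd hx) (ha.1 hx)
      · intro a
        obtain ⟨c, hc1, hc2⟩ := h1.isCofinal (max a x)
        exact ⟨c, lt_of_lt_of_le (lt_of_lt_of_le (by exact ‹i < x›) (le_max_right a x)) hc2,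
          (le_max_left a x).trans hc2⟩
    obtain ⟨y, hy1, hy2⟩ := hi h3
    exact absurd hy1 (not_le.2 hy2)
  union := by
    intro A B hA hB h
    rcases (isStationary_union_iff hα.ne').1 h with h | h
    · exact hA h
    · exact hB h
  diag := by
    intro A hA
    have h1 : ∀ ξ, ∃ t, IsClub t ∧ Disjoint (A ξ) t := fun ξ => not_isStationary_iff.1 (hA ξ)
    choose C hC hd using h1
    refine not_isStationary_iff.2 ⟨_, isClub_diag hα hc hC, ?_⟩
    rw [Set.disjoint_left]
    rintro i ⟨ξ, h2, h3⟩ h4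
    exact Set.disjoint_left.1 (hd ξ) h3 (h4 ξ h2)

theorem NS_proper [Nonempty ι] (hα : ℵ₀ < Order.cof ι) (hc : ∀ i : ι, #(Iic i) < Order.cof ι) :
    Set.univ ∉ (NS hα hc).sets := by
  intro h
  exact h IsStationary.univ

end Pool.Agent.Helper98
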