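import Pool.Agent.Helper98.Levy

/-!
Truth of formulas in a transitive class `N` of sets, absoluteness of `Σ₀` formulas,
and `Σ₁` definability over `N`.
-/

universe u

namespace Pool.Agent.Helper98

/-- Truth of a formula in the structure `(N, ∈)` under an assignment. -/
def Fml.SatIn (N : ZFSet.{u} → Prop) : {n : ℕ} → Fml n → (Fin n → ZFSet.{u}) → Prop
  | _, .mem i j, v => v i ∈ v j
  | _, .eq i j, v => v i = v j
  | _, .neg φ, v => ¬ φ.SatIn N v
  | _, .conj φ ψ, v => φ.SatIn N v ∧ ψ.SatIn N v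
  | _, .ex φ, v => ∃ x : ZFSet.{u}, N x ∧ φ.SatIn N (Fin.cons x v)

/-- the whole universe -/
theorem Fml.satIn_univ {n : ℕ} (φ : Fml n) (v : Fin n → ZFSet.{u}) :
    φ.SatIn (fun _ => True) v ↔ φ.Sat v := by
  induction φ with
  | mem i j => exact Iff.rfl
  | eq i j => exact Iff.rfl
  | neg φ ih => exact not_congr (ih v)
  | conj φ ψ ih1 ih2 => exact and_congr (ih1 v) (ih2 v)
  | ex φ ih => exact exists_congr fun x => (and_iff_right trivial).trans (ih _)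

/-- `Σ₀` formulas are absolute for transitive classes. -/
theorem Fml.IsSigmaZero.satIn_iff {N : ZFSet.{u} → Prop} (hN : ∀ x y, N x → y ∈ x → N y)
    {n : ℕ} {φ : Fml n} (h : φ.IsSigmaZero) :
    ∀ v : Fin n → ZFSet.{u}, (∀ i, N (v i)) → (φ.SatIn N v ↔ φ.Sat v) := by
  induction h with
  | mem i j => exact fun v _ => Iff.rfl
  | eq i j => exact fun v _ => Iff.rfl
  | neg h ih => exact fun v hv => not_congr (ih v hv)
  | conj h1 h2 ih1 ih2 => exact fun v hv => and_congr (ih1 v hv) (ih2 v hv)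
  | bex i h ih =>
    intro v hv
    constructor
    · rintro ⟨x, hx, h1, h2⟩
      refine ⟨x, h1, (ih _ ?_).1 h2⟩
      intro j
      refine Fin.cases ?_ (fun j => ?_) j
      · exact hx
      · exact hv j
    · rintro ⟨x, h1, h2⟩
      have hx : N x := hN (v i) x (hv i) h1
      refine ⟨x, hx, h1, (ih _ ?_).2 h2⟩
      intro j
      refine Fin.cases ?_ (fun j => ?_) j
      · exact hx
      · exact hv j

/-- `Σ₁` formulas in a transitive class. -/
theorem Fml.IsSigma.satIn_one {N : ZFSet.{u} → Prop} (hN : ∀ x y, N x → y ∈ x → N y)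
    {n : ℕ} {φ : Fml n} (h : φ.IsSigma 1) :
    ∃ ψ : Fml (n + 1), ψ.IsSigmaZero ∧ φ = .ex (.neg ψ) ∧
      ∀ v : Fin n → ZFSet.{u}, (∀ i, N (v i)) →
        (φ.SatIn N v ↔ ∃ x, N x ∧ ¬ ψ.Sat (Fin.cons x v)) := by
  obtain ⟨ψ, h1, rfl⟩ := h
  refine ⟨ψ, h1, rfl, fun v hv => ?_⟩
  have h1 : ψ.IsSigmaZero := h1
  refine exists_congr fun x => and_congr_right fun hx => not_congr (h1.satIn_iff hN _ ?_)
  intro j
  refine Fin.cases ?_ (fun j => ?_) j
  · exact hx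
  · exact hv j

/-- `Σ₁` formulas are upwards absolute. -/
theorem Fml.IsSigma.sat_of_satIn {N : ZFSet.{u} → Prop} (hN : ∀ x y, N x → y ∈ x → N y)
    {n : ℕ} {φ : Fml n} (h : φ.IsSigma 1) (v : Fin n → ZFSet.{u}) (hv : ∀ i, N (v i))
    (hs : φ.SatIn N v) : φ.Sat v := by
  obtain ⟨ψ, h1, rfl, h2⟩ := h.satIn_one hN
  obtain ⟨x, _, hx⟩ := (h2 v hv).1 hs
  exact ⟨x, hx⟩

/-- The relation `R` is `Σ₁`-definable over `(N, ∈)` (parameters are further variables). -/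
def SigmaOneIn (N : ZFSet.{u} → Prop) {n : ℕ} (R : (Fin n → ZFSet.{u}) → Prop) : Prop :=
  ∃ φ : Fml n, φ.IsSigma 1 ∧ ∀ v : Fin n → ZFSet.{u}, (∀ i, N (v i)) → (φ.SatIn N v ↔ R v)

/-- A `Σ₀` matrix with one unbounded existential quantifier over `N`. -/
theorem SigmaOneIn.of_matrix {N : ZFSet.{u} → Prop} (hN : ∀ x y, N x → y ∈ x → N y) {n : ℕ}
    {R : (Fin n → ZFSet.{u}) → Prop} {S : (Fin (n + 1) → ZFSet.{u}) → Prop} (hS : D0 S)
    (h : ∀ v : Fin n → ZFSet.{u}, (∀ i, N (v i)) → (R v ↔ ∃ x, N x ∧ S (Fin.cons x v))) :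
    SigmaOneIn N R := by
  obtain ⟨ψ, h1, h2⟩ := hS
  refine ⟨.ex (.neg (.neg ψ)), ⟨.neg ψ, .neg h1, rfl⟩, fun v hv => ?_⟩
  rw [h v hv]
  refine exists_congr fun x => and_congr_right fun hx => ?_
  refine not_not.trans ((h1.satIn_iff hN _ ?_).trans (h2 _))
  intro j
  refine Fin.cases ?_ (fun j => ?_) j
  · exact hx
  · exact hv j

theorem SigmaOneIn.congr {N : ZFSet.{u} → Prop} {n : ℕ} {R S : (Fin n → ZFSet.{u}) → Prop}
    (h : SigmaOneIn N R) (hRS : ∀ v, (∀ i, N (v i)) → (R v ↔ S v)) : SigmaOneIn N S := by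
  obtain ⟨φ, h1, h2⟩ := h
  exact ⟨φ, h1, fun v hv => (h2 v hv).trans (hRS v hv)⟩

end Pool.Agent.Helper98
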