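import Mathlib

/-!
The Levy hierarchy of formulas, the sets `H(κ)`, and the definable colouring properties.
-/

open Cardinal

universe u

namespace Pool.Agent.Helper98

/-- Formulas of the language of set theory whose free variables are among `v₀, …, vₙ₋₁`.
In `ex φ` the quantified variable is `v₀` of `φ`, the others are shifted by one. -/
inductive Fml : ℕ → Type
  | mem {n : ℕ} (i j : Fin n) : Fml n
  | eq {n : ℕ} (i j : Fin n) : Fml n
  | neg {n : ℕ} (φ : Fml n) : Fml n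
  | conj {n : ℕ} (φ ψ : Fml n) : Fml n
  | ex {n : ℕ} (φ : Fml (n + 1)) : Fml n

/-- Truth of a formula in the universe of sets under an assignment. -/
def Fml.Sat : {n : ℕ} → Fml n → (Fin n → ZFSet.{u}) → Prop
  | _, .mem i j, v => v i ∈ v j
  | _, .eq i j, v => v i = v j
  | _, .neg φ, v => ¬ φ.Sat v
  | _, .conj φ ψ, v => φ.Sat v ∧ ψ.Sat v
  | _, .ex φ, v => ∃ x : ZFSet.{u}, φ.Sat (Fin.cons x v)

/-- `Σ₀` formulas: closed under negation, conjunction and bounded quantification. -/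
inductive Fml.IsSigmaZero : {n : ℕ} → Fml n → Prop
  | mem {n : ℕ} (i j : Fin n) : IsSigmaZero (.mem i j)
  | eq {n : ℕ} (i j : Fin n) : IsSigmaZero (.eq i j)
  | neg {n : ℕ} {φ : Fml n} : IsSigmaZero φ → IsSigmaZero (.neg φ)
  | conj {n : ℕ} {φ ψ : Fml n} : IsSigmaZero φ → IsSigmaZero ψ → IsSigmaZero (.conj φ ψ)
  | bex {n : ℕ} (i : Fin n) {φ : Fml (n + 1)} :
      IsSigmaZero φ → IsSigmaZero (.ex (.conj (.mem 0 i.succ) φ))

/-- `Σₘ` formulas: a `Σₘ₊₁` formula has the form `∃ x ¬ φ` with `φ` a `Σₘ` formula. -/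
def Fml.IsSigma : ℕ → {n : ℕ} → Fml n → Prop
  | 0, _, φ => φ.IsSigmaZero
  | m + 1, n, φ => ∃ ψ : Fml (n + 1), Fml.IsSigma m ψ ∧ φ = .ex (.neg ψ)

/-- `x ∈ H(κ)`: the set `x` is included in a transitive set of cardinality below `κ`. -/
def InH (κ : Cardinal.{u}) (x : ZFSet.{u}) : Prop :=
  ∃ t : ZFSet.{u}, t.IsTransitive ∧ x ⊆ t ∧ t.card < κ

/-- A colouring `c` of pairs `α < β < κ` of ordinals by sets is a `Σₙ(z)`-partition: for some
`Σₙ`-formula `φ`, and all `α < β < κ`, the value `c α β` is the unique `y` such that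
`φ(α, β, y, κ, z)` holds in the universe of sets. -/
def IsSigmaPartition (n : ℕ) (κ : Cardinal.{u}) {m : ℕ} (z : Fin m → ZFSet.{u})
    (c : Ordinal.{u} → Ordinal.{u} → ZFSet.{u}) : Prop :=
  ∃ φ : Fml (m + 4), φ.IsSigma n ∧ ∀ α β : Ordinal.{u}, α < β → β < κ.ord → ∀ y : ZFSet.{u},
    (φ.Sat (Fin.cons α.toZFSet (Fin.cons β.toZFSet (Fin.cons y (Fin.cons κ.ord.toZFSet z)))) ↔
      y = c α β)

/-- The `Σₙ(z)`-colouring property of `κ`: every `Σₙ(z)`-partition `c : [κ]² → 2` (the two colours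
are the sets `∅` and `{∅}`) has a homogeneous set `H ⊆ κ` of cardinality `κ`. -/
def HasColouringProperty (n : ℕ) (κ : Cardinal.{u}) {m : ℕ} (z : Fin m → ZFSet.{u}) : Prop :=
  ∀ c : Ordinal.{u} → Ordinal.{u} → ZFSet.{u}, IsSigmaPartition n κ z c →
    (∀ α β, α < β → β < κ.ord → c α β = ∅ ∨ c α β = {∅}) →
    ∃ H : Set Ordinal.{u}, H ⊆ Set.Iio κ.ord ∧ #H = Cardinal.lift.{u + 1} κ ∧
      ∃ i : ZFSet.{u}, ∀ α ∈ H, ∀ β ∈ H, α < β → c α β = i

/-- The boldface `Σₙ`-colouring property: the `Σₙ(z)`-colouring property for all finite tuples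
`z` of elements of `H(κ)`. -/
def HasBoldfaceColouringProperty (n : ℕ) (κ : Cardinal.{u}) : Prop :=
  ∀ (m : ℕ) (z : Fin m → ZFSet.{u}), (∀ i, InH κ (z i)) → HasColouringProperty n κ z

end Pool.Agent.Helper98
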