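import Pool.Agent.Helper98.Hered
import Pool.Agent.Helper98.Homog

/-!
If `λ` is a singular cardinal of uncountable cofinality `μ` such that `2^(2^μ) ≤ λ` and
`ν^μ ≤ λ` for all `ν < λ` (for instance if `λ` is a strong limit), then `λ⁺` does not have the
boldface `Σ₁`-colouring property.
-/

open Set Ordinal Cardinal

universe u

namespace Pool.Agent.Results.MP_bf1b61_lc.StrongLimitSigmaOne

open Pool.Agent.Helper98

theorem exists_decoder {lam : Cardinal.{u}} {A : Type u} [Nonempty A] (h : #A ≤ lam) :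
    ∃ d : TT lam → A, Function.Surjective d := by
  rw [← mk_ord_toType lam] at h
  obtain ⟨e⟩ := h
  exact ⟨Function.invFun e, Function.invFun_surjective e.injective⟩

theorem empty_ne_one : (∅ : ZFSet.{u}) ≠ {∅} := by
  intro h
  have h1 : (∅ : ZFSet.{u}) ∈ ({∅} : ZFSet.{u}) := ZFSet.mem_singleton.2 rfl
  rw [← h] at h1
  exact ZFSet.notMem_empty _ h1

theorem lex_iff {T : Type u} [LinearOrder T] [WellFoundedLT T] (sa sb : T → Prop)
    (h : ∃ k, ¬ (sa k ↔ sb k)) (y c : ZFSet.{u})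
    (hc1 : (∃ k, (∀ k' < k, (sa k' ↔ sb k')) ∧ ¬ sa k ∧ sb k) → c = {∅})
    (hc0 : ¬ (∃ k, (∀ k' < k, (sa k' ↔ sb k')) ∧ ¬ sa k ∧ sb k) → c = ∅) :
    (∃ k, (∀ k' < k, (sa k' ↔ sb k')) ∧
      ((sa k ∧ ¬ sb k ∧ y = ∅) ∨ (¬ sa k ∧ sb k ∧ y = {∅}))) ↔ y = c := by
  obtain ⟨k0, hk0, hmin⟩ := (wellFounded_lt (α := T)).has_min {k | ¬ (sa k ↔ sb k)} h
  have hbelow : ∀ k' < k0, (sa k' ↔ sb k') := by
    intro k' hk'
    by_contra h1
    exact hmin k' h1 hk'
  have huniq : ∀ k, (∀ k' < k, (sa k' ↔ sb k')) → ¬ (sa k ↔ sb k) → k = k0 := by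
    intro k h1 h2
    rcases lt_trichotomy k k0 with h3 | h3 | h3
    · exact (h2 (hbelow k h3)).elim
    · exact h3
    · exact (hk0 (h1 k0 h3)).elim
  by_cases h1 : sa k0
  · have h2 : ¬ sb k0 := fun h2 => hk0 ⟨fun _ => h2, fun _ => h1⟩
    have h3 : c = ∅ := by
      apply hc0
      rintro ⟨k, h4, h5, h6⟩
      have h7 := huniq k h4 (fun h8 => h5 (h8.2 h6))
      rw [h7] at h5
      exact h5 h1
    rw [h3]
    constructor
    · rintro ⟨k, h4, h5⟩
      rcases h5 with ⟨_, _, h6⟩ | ⟨h5, h6, _⟩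
      · exact h6
      · have h7 := huniq k h4 (fun h8 => h5 (h8.2 h6))
        rw [h7] at h5
        exact (h5 h1).elim
    · intro h4
      exact ⟨k0, hbelow, Or.inl ⟨h1, h2, h4⟩⟩
  · have h2 : sb k0 := by
      by_contra h2
      exact hk0 ⟨fun h3 => (h1 h3).elim, fun h3 => (h2 h3).elim⟩
    have h3 : c = {∅} := hc1 ⟨k0, hbelow, h1, h2⟩
    rw [h3]
    constructor
    · rintro ⟨k, h4, h5⟩
      rcases h5 with ⟨h5, h6, _⟩ | ⟨_, _, h6⟩
      · have h7 := huniq k h4 (fun h8 => h6 (h8.1 h5))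
        rw [h7] at h5
        exact (h1 h5).elim
      · exact h6
    · intro h4
      exact ⟨k0, hbelow, Or.inr ⟨h1, h2, h4⟩⟩

/-- If `lam` is singular with `cf(lam) > ω`, `2 ^ 2 ^ cf(lam) ≤ lam` and `ν ^ cf(lam) ≤ lam` for all
`ν < lam`, then the successor of `lam` fails the boldface `Σ₁`-colouring property. -/
theorem result : ∀ lam : Cardinal.{u}, lam.IsSingular → ℵ₀ < lam.ord.cof →
    (2 : Cardinal.{u}) ^ ((2 : Cardinal.{u}) ^ lam.ord.cof) ≤ lam →
    (∀ ν < lam, ν ^ lam.ord.cof ≤ lam) →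
    ¬ HasBoldfaceColouringProperty 1 (Order.succ lam) := by
  classical
  intro lam hs hcof h1 h2 hB
  have hlam : ℵ₀ ≤ lam := hs.aleph0_le
  have hinf := Idx_infinite hcof
  obtain ⟨i0⟩ : Nonempty (Idx lam) := inferInstance
  have hth : ∀ i : Idx lam, Nonempty (th lam i).ToType := by
    intro i
    rw [nonempty_toType_iff]
    exact (th_pos i).ne'
  have hka : ∀ i : Idx lam, Nonempty (ka lam i).ToType := by
    intro i
    rw [nonempty_toType_iff]
    exact (isRegular_ka i).ord_pos.ne'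
  have n1 : Nonempty (LE lam) := ⟨⟨i0, (hka i0).some⟩⟩
  have n2 : Nonempty (LCode lam) := ⟨⟨∅, i0, fun _ => (hth i0).some⟩⟩
  have n3 : Nonempty (PIdeal (JNS hcof)) := ⟨⟨JNS hcof, Subset.rfl, JNS_proper hcof⟩⟩
  have n4 : Nonempty (LP lam) := ⟨⟨i0, fun _ => (hka i0).some⟩⟩
  have c3 : #(PIdeal (JNS hcof)) ≤ lam := mk_PIdeal_le _ h1
  obtain ⟨dE, hE⟩ := exists_decoder (mk_LE_le hcof hs)
  obtain ⟨dC, hC⟩ := exists_decoder (mk_LCode_le hcof h2)
  obtain ⟨dJ, hJ⟩ := exists_decoder c3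
  obtain ⟨dK, hK⟩ : ∃ d : TT lam → PIdeal (JNS hcof) × LP lam, Function.Surjective d := by
    apply exists_decoder
    rw [mk_prod, Cardinal.lift_id, Cardinal.lift_id]
    exact (mul_le_mul' c3 (mk_LP_le hcof hs h2)).trans (mul_eq_self hlam).le
  obtain ⟨π, hπ⟩ := exists_sep lam
  obtain ⟨φ, hφ1, hφ2⟩ := exists_sigma_one_formula.{u}
  -- the separation property
  have hsep : ∀ a b, a < (Order.succ lam).ord → b < (Order.succ lam).ord → a ≠ b →
      ∃ k, ¬ (sInv π dK a k ↔ sInv π dK b k) := by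
    intro a b ha hb hab
    by_contra hcon
    push Not at hcon
    obtain ⟨h, hh1, hh2⟩ := exists_large (JNS hcof) a ha
    refine CodeData.inv_separates (D := LData lam) (J := JNS hcof) (Idx_bdd hcof) (JNS_proper hcof)
      π hπ ⟨h, hh1, hh2⟩ hab ?_
    intro I ξ ψ
    obtain ⟨k, hk⟩ := hK ⟨I, ξ, ψ⟩
    have h3 := hcon k
    rw [sInv, sInv, hk] at h3
    exact h3
  -- the colouring
  obtain ⟨c, hc1, hc0⟩ : ∃ c : Ordinal.{u} → Ordinal.{u} → ZFSet.{u},
      (∀ a b, (∃ k, (∀ k' < k, (sInv π dK a k' ↔ sInv π dK b k')) ∧ ¬ sInv π dK a k ∧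
        sInv π dK b k) → c a b = {∅}) ∧
      (∀ a b, ¬ (∃ k, (∀ k' < k, (sInv π dK a k' ↔ sInv π dK b k')) ∧ ¬ sInv π dK a k ∧
        sInv π dK b k) → c a b = ∅) := by
    refine ⟨fun a b => if (∃ k, (∀ k' < k, (sInv π dK a k' ↔ sInv π dK b k')) ∧
      ¬ sInv π dK a k ∧ sInv π dK b k) then {∅} else ∅, ?_, ?_⟩
    · intro a b h
      exact if_pos h
    · intro a b h
      exact if_neg h
  have hpart : IsSigmaPartition 1 (Order.succ lam)
      ![lam.ord.toZFSet, pA dE dC, pB (JNS hcof) dC dJ, pC (JNS hcof) π dE dC dK,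
        pB1 (JNS hcof) dC dK, pG1 dE, pG2 dE] c := by
    refine ⟨φ, hφ1, ?_⟩
    intro a b hab hb y
    rw [hφ2]
    refine Iff.trans ?_ (lex_iff (sInv π dK a) (sInv π dK b)
      (hsep a b (hab.trans hb) hb hab.ne) y (c a b) (hc1 a b) (hc0 a b))
    exact mat_iff hcof hE hC hJ hab.le hb y
  obtain ⟨H, hH1, hH2, i, hH3⟩ := hB _ _ (by
    have hL : InH (Order.succ lam) lam.ord.toZFSet := by
      apply InH.ord
      rw [card_ord]
      exact Order.lt_succ _
    intro i
    fin_cases i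
    · exact hL
    · change InH (Order.succ lam) (pA dE dC)
      exact InH.rel3 hlam _
    · change InH (Order.succ lam) (pB (JNS hcof) dC dJ)
      exact InH.rel2 hlam _
    · change InH (Order.succ lam) (pC (JNS hcof) π dE dC dK)
      exact InH.rel3 hlam _
    · change InH (Order.succ lam) (pB1 (JNS hcof) dC dK)
      exact InH.rel2 hlam _
    · change InH (Order.succ lam) (pG1 dE)
      exact InH.rel2 hlam _
    · change InH (Order.succ lam) (pG2 dE)
      exact InH.rel2 hlam _) c hpart (by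
    intro a b _ _
    by_cases h : ∃ k, (∀ k' < k, (sInv π dK a k' ↔ sInv π dK b k')) ∧ ¬ sInv π dK a k ∧
        sInv π dK b k
    · exact Or.inr (hc1 a b h)
    · exact Or.inl (hc0 a b h))
  have hunb : ∀ b, b < (Order.succ lam).ord → ∃ a ∈ H, b < a ∧ a < (Order.succ lam).ord := by
    intro b hb
    by_contra hcon
    push Not at hcon
    have h3 : H ⊆ Set.Iic b := by
      intro a ha
      by_contra h4
      exact (hcon a ha (not_le.1 h4)).not_gt (hH1 ha)
    have h4 := Cardinal.mk_le_mk_of_subset h3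
    rw [hH2] at h4
    have h5 : (Set.Iic b) = Set.Iio (b + 1) := by
      ext x
      simp [Order.lt_add_one_iff]
    rw [h5, Cardinal.mk_Iio_ordinal, Cardinal.lift_le] at h4
    have h6 : (b + 1).card < Order.succ lam := by
      rw [← lt_ord]
      exact (isSuccLimit_ord (isRegular_succ hlam).aleph0_le).add_one_lt hb
    exact h4.not_gt h6
  refine no_homogeneous hlam (T := TT lam) (mk_ord_toType lam).le (fun a k => sInv π dK a k) H
    hunb hsep ?_
  by_cases hi : i = {∅}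
  · left
    intro a ha b hb hab _
    by_contra hcon
    have h3 := hH3 a ha b hb hab
    rw [hc0 a b hcon, hi] at h3
    exact empty_ne_one h3
  · right
    intro a ha b hb hab _ hcon
    have h3 := hH3 a ha b hb hab
    rw [hc1 a b hcon] at h3
    exact hi h3.symm

end Pool.Agent.Results.MP_bf1b61_lc.StrongLimitSigmaOne
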